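import Pool.Agent.Y926.LZ.Arch

/-!
# The upper bound of the linear forms
-/

open Polynomial Pool.Agent.H337R2 Pool.Agent.W165.OZ Pool.Agent.W165.OZ.PAx

namespace Pool.Agent.Y926.LZ

noncomputable section

lemma tail_pow {τ r : ℚ} {p q : ℕ} (hr : 1 ≤ r) (hτ : r ≤ τ) (hpq : p + 2 ≤ q) :
    τ ^ p / τ ^ q ≤ 1 / r ^ (q - p - 2) * (1 / τ ^ 2) := by
  have hr0 : 0 < r := by linarith
  have hτ0 : 0 < τ := by linarith
  obtain ⟨e, he⟩ : ∃ e, q = p + 2 + e := ⟨q - p - 2, by omega⟩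
  have h1 : q - p - 2 = e := by omega
  rw [h1, he, pow_add, pow_add]
  have h2 : r ^ e ≤ τ ^ e := pow_le_pow_left₀ hr0.le hτ e
  have h3 : (0 : ℚ) < r ^ e := by positivity
  rw [one_div_mul_one_div, div_le_div_iff₀ (by positivity) (by positivity)]
  have h4 : (0 : ℚ) < τ ^ p := by positivity
  have h5 : (0 : ℚ) < τ ^ 2 := by positivity
  calc τ ^ p * (r ^ e * τ ^ 2) ≤ τ ^ p * (τ ^ e * τ ^ 2) := by gcongr
    _ = _ := by ring

lemma zr_two_le : zr 2 ≤ 2 := by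
  have h1 := hasSum_zeta_two
  have h2 : HasSum (fun t : ℕ => 1 / ((t : ℝ) + 1) ^ 2) (Real.pi ^ 2 / 6) := by
    have h3 := (hasSum_nat_add_iff' (f := fun n : ℕ => 1 / (n : ℝ) ^ 2) 1).2 h1
    simp only [Finset.range_one, Finset.sum_singleton, Nat.cast_zero, ne_eq, OfNat.ofNat_ne_zero,
      not_false_eq_true, zero_pow, div_zero, sub_zero] at h3
    have h4 : (fun t : ℕ => 1 / ((t : ℝ) + 1) ^ 2) = fun t : ℕ => 1 / ((t + 1 : ℕ) : ℝ) ^ 2 := by
      ext t; push_cast; rfl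
    rw [h4]
    exact h3
  unfold zr
  rw [h2.tsum_eq]
  have h5 := Real.pi_lt_d2
  have h6 := Real.pi_pos
  nlinarith

lemma sum_bound {f : ℕ → ℝ} {M : ℝ} (hf : ∀ t, |f t| ≤ M * (1 / ((t : ℝ) + 1) ^ 2)) (hM : 0 ≤ M) :
    |∑' t, f t| ≤ 2 * M := by
  have h1 : Summable (fun t : ℕ => M * (1 / ((t : ℝ) + 1) ^ 2)) := (summable_zr le_rfl).mul_left M
  have h2 : HasSum (fun t : ℕ => M * (1 / ((t : ℝ) + 1) ^ 2)) (M * zr 2) :=
    (summable_zr le_rfl).hasSum.mul_left M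
  have h3 := tsum_of_norm_bounded h2 (f := f) (fun t => by rw [Real.norm_eq_abs]; exact hf t)
  rw [Real.norm_eq_abs] at h3
  refine h3.trans ?_
  have := zr_two_le
  nlinarith

variable {n b h : ℕ}

/-- vanishing of the terms before the `r`-th block -/
lemma term_zero {B r d t : ℕ} (hn : 1 ≤ n) (hd : 1 ≤ d) (hdB : d ≤ B) (Q : ℚ[X])
    (ht : t + 1 < r * (d * n)) :
    PowerSeries.coeff b (RS (sP n) (mP h) (KP n h (Phi n b B (r + 1) * Q)) (((t : ℚ) + 1) / d)) = 0 := by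
  have hd0 : (d : ℚ) ≠ 0 := by exact_mod_cast (by omega : d ≠ 0)
  apply RS_zero
  have h1 : ((t : ℚ) + 1) / d = ((t + 1 + d * n : ℕ) : ℚ) / d - n := by
    push_cast
    field_simp
    ring
  rw [h1]
  apply KP_dvd
  apply Phi_dvd hn hd hdB
  calc t + 1 + d * n < r * (d * n) + d * n := by omega
    _ = (r + 1) * (d * n) := by ring

/-- the bound of the terms of the basic linear forms -/
def M6 (n h B r E : ℕ) : ℚ :=
  4 ^ (h + 1) * n * (54 * (B : ℚ) ^ 4) ^ (n * E) / (r : ℚ) ^ (2 * h * n - (2 * (n * E) + 1) - 2) *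
    ((B : ℚ) * n) ^ 2

lemma term_le {B r d t m E : ℕ} (hn : 1 ≤ n) (hr : 2 ≤ r) (hd : 1 ≤ d) (hdB : d ≤ B)
    (hE : (b + 1) * (B ^ 2 * (r + 1)) + (m / n + 1) ≤ E) (hh : 2 * (n * E) + 3 ≤ 2 * h * n) :
    |PowerSeries.coeff b (RS (sP n) (mP h) (KP n h (Phi n b B (r + 1) * Gb n m)) (((t : ℚ) + 1) / d))|
      ≤ M6 n h B r E * (1 / ((t : ℚ) + 1) ^ 2) := by
  have hn' : (1 : ℚ) ≤ n := by exact_mod_cast hn
  have hd' : (1 : ℚ) ≤ d := by exact_mod_cast hd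
  have hB' : (d : ℚ) ≤ B := by exact_mod_cast hdB
  have hr' : (2 : ℚ) ≤ r := by exact_mod_cast hr
  have hM : 0 ≤ M6 n h B r E := by unfold M6; positivity
  by_cases ht : t + 1 < r * (d * n)
  · rw [term_zero hn hd hdB _ ht, abs_zero]
    positivity
  · obtain ⟨c, hc⟩ : ∃ c : ℚ, c = ((t : ℚ) + 1) / d := ⟨_, rfl⟩
    have ht' : (r : ℚ) * ((d : ℚ) * n) ≤ (t : ℚ) + 1 := by exact_mod_cast not_lt.1 ht
    have hcr : (r : ℚ) * n ≤ c := by
      rw [hc, le_div_iff₀ (by linarith)]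
      linarith
    have hc2 : 2 * (n : ℚ) ≤ c := by nlinarith
    have hc0 : 0 < c := by linarith
    have hτ : (r : ℚ) ≤ c / n := by rw [le_div_iff₀ (by linarith)]; exact hcr
    have hB1 : 1 ≤ B := hd.trans hdB
    have hB4 : (1 : ℚ) ≤ (B : ℚ) ^ 4 := one_le_pow₀ (by exact_mod_cast hB1)
    have hbase : (1 : ℚ) ≤ 54 * (B : ℚ) ^ 4 * (c / n) ^ 2 := by nlinarith
    rw [← hc]
    have h1 := Phi_le (n := n) (b := b) (B := B) (R := r + 1) (c := c) hn hB1 hc2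
      (by push_cast; linarith)
    have h2 := Gb_le (n := n) (b := b) (B := B) (m := m) (c := c) hn hB1 hc2
    have h3 := Nm_mul_le (T := b) zero_le_one h1 h2
    have h4 : (54 * (B : ℚ) ^ 4 * (c / n) ^ 2) ^ (n * ((b + 1) * (B ^ 2 * (r + 1)))) *
        (54 * (B : ℚ) ^ 4 * (c / n) ^ 2) ^ (n * (m / n + 1)) ≤
        (54 * (B : ℚ) ^ 4 * (c / n) ^ 2) ^ (n * E) := by
      rw [← pow_add, ← mul_add]
      exact pow_le_pow_right₀ hbase (Nat.mul_le_mul_left _ hE)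
    rw [← map_mul, ← Polynomial.mul_comp] at h3
    have h5 := RS_le (h := h) hn hc2 (h3.trans h4)
    refine h5.trans ?_
    have h6 := fact_ratio hc0 hn h
    have h7 := tail_pow (p := 2 * (n * E) + 1) (q := 2 * h * n) (by linarith) hτ (by omega)
    have h8 : 1 / (c / n) ^ 2 ≤ ((B : ℚ) * n) ^ 2 * (1 / ((t : ℚ) + 1) ^ 2) := by
      have ht0 : (0 : ℚ) < (t : ℚ) + 1 := by positivity
      have h9 : 1 / (c / n) ^ 2 = ((d : ℚ) * n) ^ 2 * (1 / ((t : ℚ) + 1) ^ 2) := by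
        rw [hc]
        field_simp
      rw [h9]
      gcongr
    calc (n.factorial : ℚ) ^ (2 * h) * (4 * c * (54 * (B : ℚ) ^ 4 * (c / n) ^ 2) ^ (n * E)) *
          (2 / c ^ n) ^ (2 * h)
        = (4 * c * (54 * (B : ℚ) ^ 4 * (c / n) ^ 2) ^ (n * E)) *
          ((n.factorial : ℚ) ^ (2 * h) * (2 / c ^ n) ^ (2 * h)) := by ring
      _ ≤ (4 * c * (54 * (B : ℚ) ^ 4 * (c / n) ^ 2) ^ (n * E)) * (4 ^ h / (c / n) ^ (2 * h * n)) := by
          gcongr
      _ = 4 ^ (h + 1) * n * (54 * (B : ℚ) ^ 4) ^ (n * E) *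
          ((c / n) ^ (2 * (n * E) + 1) / (c / n) ^ (2 * h * n)) := by
          rw [mul_pow _ ((c / n) ^ 2), ← pow_mul (c / n) 2 (n * E), pow_succ (c / n) (2 * (n * E)),
            pow_succ (4 : ℚ) h]
          have : (c : ℚ) = n * (c / n) := by field_simp
          conv_lhs => rw [this]
          have h10 : (n : ℚ) * (c / n) / n = c / n := by rw [← this]
          rw [h10]
          ring
      _ ≤ 4 ^ (h + 1) * n * (54 * (B : ℚ) ^ 4) ^ (n * E) *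
          (1 / (r : ℚ) ^ (2 * h * n - (2 * (n * E) + 1) - 2) * (1 / (c / n) ^ 2)) := by
          gcongr
      _ ≤ 4 ^ (h + 1) * n * (54 * (B : ℚ) ^ 4) ^ (n * E) *
          (1 / (r : ℚ) ^ (2 * h * n - (2 * (n * E) + 1) - 2) *
            (((B : ℚ) * n) ^ 2 * (1 / ((t : ℚ) + 1) ^ 2))) := by
          gcongr
      _ = M6 n h B r E * (1 / ((t : ℚ) + 1) ^ 2) := by
          unfold M6
          ring

/-- the bound of the basic linear forms -/
theorem Lam_le {B r m E : ℕ} (hn : 1 ≤ n) (hr : 2 ≤ r) (w : ℕ → ℤ)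
    (hE : (b + 1) * (B ^ 2 * (r + 1)) + (m / n + 1) ≤ E) (hh : 2 * (n * E) + 3 ≤ 2 * h * n) :
    |Lam n h b B w (KP n h (Phi n b B (r + 1) * Gb n m))| ≤
      (∑ d ∈ Finset.Icc 1 B, |(w d : ℝ)|) * (2 * (M6 n h B r E : ℝ)) := by
  unfold Lam
  refine (Finset.abs_sum_le_sum_abs _ _).trans ?_
  rw [Finset.sum_mul]
  apply Finset.sum_le_sum
  intro d hd
  rw [Finset.mem_Icc] at hd
  rw [abs_mul]
  apply mul_le_mul_of_nonneg_left _ (abs_nonneg _)
  unfold Sd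
  apply sum_bound
  · intro t
    have h1 := term_le (n := n) (b := b) (h := h) (B := B) (r := r) (d := d) (t := t) (m := m)
      (E := E) hn hr hd.1 hd.2 hE hh
    have h2 : ((|PowerSeries.coeff b (RS (sP n) (mP h) (KP n h (Phi n b B (r + 1) * Gb n m))
        (((t : ℚ) + 1) / d))| : ℚ) : ℝ) ≤ ((M6 n h B r E * (1 / ((t : ℚ) + 1) ^ 2) : ℚ) : ℝ) := by
      exact_mod_cast h1
    push_cast at h2
    exact h2
  · have : 0 ≤ M6 n h B r E := by unfold M6; positivity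
    exact_mod_cast this

end

end Pool.Agent.Y926.LZ
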