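import Pool.Agent.Y926.LZ.NonW

/-!
# Non-vanishing of one of the basic linear forms
-/

open Polynomial Pool.Agent.H337R2 Pool.Agent.W165.OZ Pool.Agent.W165.OZ.PAx

namespace Pool.Agent.Y926.LZ

noncomputable section

theorem Lam_ne {n h b B r r1 d0 : ℕ} (hn : 1 ≤ n) (hr : 2 ≤ r) (hr1 : 1 ≤ r1) (hd0 : 1 ≤ d0)
    (hd0B : d0 ≤ B) (hb : Even b) (hb1 : 1 ≤ b) (w : ℕ → ℤ) (hw0 : w d0 ≠ 0)
    (hw : ∀ d, d0 < d → d ≤ B → w d = 0)
    (hh : 2 * (n * ((b + 1) * (B ^ 2 * (r + 1 + r1)))) + 3 ≤ 2 * h * n)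
    (hdeg : 2 * (Phi n b B (r + 1) * Kd n b r (r1 * n) d0).natDegree + 3 ≤ n * (2 * h))
    (hsmall : (∑ d ∈ Finset.Icc 1 B, |(w d : ℝ)|) * (2 * (M7 n h b B r r1 : ℝ)) < 1) :
    Lam n h b B w (KP n h (Phi n b B (r + 1) * Kd n b r (r1 * n) d0)) ≠ 0 := by
  have hdeg' := degree_KP_lt hdeg
  set P := KP n h (Phi n b B (r + 1) * Kd n b r (r1 * n) d0) with hP
  obtain ⟨f, hf⟩ : ∃ f : ℕ → ℕ → ℝ, ∀ d t, f d t =
      ((PowerSeries.coeff b (RS (sP n) (mP h) P (((t : ℚ) + 1) / d)) : ℚ) : ℝ) :=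
    ⟨_, fun _ _ => rfl⟩
  obtain ⟨t0, ht0⟩ : ∃ t0, t0 + 1 = r * (d0 * n) + 1 % d0 := by
    have h1 : 0 < r * (d0 * n) := by positivity
    exact ⟨r * (d0 * n) + 1 % d0 - 1, Nat.sub_add_cancel (by omega)⟩
  have hx0 : ((t0 : ℚ) + 1) / d0 = x0q r n d0 := by
    have h1 : (t0 : ℚ) + 1 = (r : ℚ) * ((d0 : ℚ) * n) + ((1 % d0 : ℕ) : ℚ) := by exact_mod_cast ht0
    have h2 : (d0 : ℚ) ≠ 0 := by exact_mod_cast (by omega : d0 ≠ 0)
    rw [h1]
    unfold x0q
    field_simp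
  obtain ⟨mv, hmv⟩ : ∃ mv : ℝ, mv = (mainv n h b B r (r1 * n) d0 : ℝ) := ⟨_, rfl⟩
  have hf0 : f d0 t0 = mv := by
    rw [hf, hx0, hmv]
    rfl
  have hmv0 : 0 < |mv| := by
    rw [hmv]
    apply abs_pos.2
    exact_mod_cast mainv_ne hn hr hd0
  have hM7 : (0 : ℝ) ≤ (M7 n h b B r r1 : ℝ) := by
    have : 0 ≤ M7 n h b B r r1 := by unfold M7; positivity
    exact_mod_cast this
  obtain ⟨g, hg⟩ : ∃ g : ℕ → ℕ → ℝ, ∀ d t, g d t = if d = d0 ∧ t = t0 then 0 else f d t :=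
    ⟨_, fun _ _ => rfl⟩
  have hgb : ∀ d, 1 ≤ d → d ≤ d0 → ∀ t, |g d t| ≤
      |mv| * (M7 n h b B r r1 : ℝ) * (1 / ((t : ℝ) + 1) ^ 2) := by
    intro d hd hdd t
    rw [hg]
    split_ifs with hc
    · rw [abs_zero]
      positivity
    · rw [hf]
      by_cases ht : t + 1 < d * (r * n + r1 * n)
      · rw [hP, node_zero hn hd hdd hd0B ht]
        · rw [Rat.cast_zero, abs_zero]
          positivity
        · rintro ⟨h1, h2⟩
          apply hc
          refine ⟨h1, ?_⟩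
          rw [h1] at h2
          omega
      · have h1 := node_le (n := n) (h := h) (b := b) (B := B) (r := r) (r1 := r1) (d0 := d0)
          (d := d) (t := t) hn hr hr1 hd hdd hd0B (not_lt.1 ht) hh
        rw [hmv]
        have h2 := (Rat.cast_le (K := ℝ)).2 h1
        push_cast at h2
        exact h2
  have hgs : ∀ d, 1 ≤ d → d ≤ d0 → |∑' t, g d t| ≤ 2 * (|mv| * (M7 n h b B r r1 : ℝ)) :=
    fun d hd hdd => sum_bound (hgb d hd hdd) (by positivity)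
  have hSd : ∀ d, 1 ≤ d → Sd n h b d P = (if d = d0 then mv else 0) + ∑' t, g d t := by
    intro d hd
    have hsum : Summable (f d) := by
      have h1 := (hasSum_S hb hb1 hd P hdeg').summable
      have h2 : f d = fun t : ℕ =>
          ((PowerSeries.coeff b (RS (sP n) (mP h) P (((t : ℚ) + 1) / d)) : ℚ) : ℝ) := by
        ext t; exact hf d t
      rw [h2]
      exact h1
    have h3 : Sd n h b d P = ∑' t, f d t := by
      unfold Sd
      exact tsum_congr fun t => (hf d t).symm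
    rw [h3]
    by_cases hdd : d = d0
    · rw [if_pos hdd, hsum.tsum_eq_add_tsum_ite t0]
      subst hdd
      rw [hf0]
      congr 1
      apply tsum_congr
      intro t
      rw [hg]
      simp
    · rw [if_neg hdd, zero_add]
      apply tsum_congr
      intro t
      rw [hg, if_neg (fun h => hdd h.1)]
  have hmain : |Lam n h b B w P - (w d0 : ℝ) * mv| ≤
      (∑ d ∈ Finset.Icc 1 B, |(w d : ℝ)|) * (2 * (|mv| * (M7 n h b B r r1 : ℝ))) := by
    have h1 : (w d0 : ℝ) * mv = ∑ d ∈ Finset.Icc 1 B, (w d : ℝ) * (if d = d0 then mv else 0) := by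
      rw [Finset.sum_eq_single d0]
      · rw [if_pos rfl]
      · intro d _ hdd
        rw [if_neg hdd, mul_zero]
      · intro h
        exact absurd (Finset.mem_Icc.2 ⟨hd0, hd0B⟩) h
    unfold Lam
    rw [h1, ← Finset.sum_sub_distrib]
    refine (Finset.abs_sum_le_sum_abs _ _).trans ?_
    rw [Finset.sum_mul]
    apply Finset.sum_le_sum
    intro d hd
    rw [Finset.mem_Icc] at hd
    rw [← mul_sub, abs_mul]
    by_cases hdd : d ≤ d0
    · apply mul_le_mul_of_nonneg_left _ (abs_nonneg _)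
      rw [hSd d hd.1, add_sub_cancel_left]
      exact hgs d hd.1 hdd
    · rw [hw d (by omega) hd.2]
      simp
  intro h0
  rw [h0, zero_sub, abs_neg, abs_mul] at hmain
  have h2 : (1 : ℝ) ≤ |(w d0 : ℝ)| := by
    have : 1 ≤ |w d0| := Int.one_le_abs hw0
    exact_mod_cast this
  have h3 : |mv| ≤ |(w d0 : ℝ)| * |mv| := le_mul_of_one_le_left hmv0.le h2
  have h4 : (∑ d ∈ Finset.Icc 1 B, |(w d : ℝ)|) * (2 * (|mv| * (M7 n h b B r r1 : ℝ))) =
      ((∑ d ∈ Finset.Icc 1 B, |(w d : ℝ)|) * (2 * (M7 n h b B r r1 : ℝ))) * |mv| := by ring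
  rw [h4] at hmain
  have h5 : ((∑ d ∈ Finset.Icc 1 B, |(w d : ℝ)|) * (2 * (M7 n h b B r r1 : ℝ))) * |mv| < 1 * |mv| :=
    mul_lt_mul_of_pos_right hsmall hmv0
  linarith

/-! ### Linearity -/

lemma basis_expand (G : ℕ → ℚ[X]) (hG : ∀ m, G m ≠ 0 ∧ (G m).natDegree = m) (K : ℕ) :
    ∀ Q : ℚ[X], Q.natDegree ≤ K → ∃ a : ℕ → ℚ, Q = ∑ m ∈ Finset.range (K + 1), C (a m) * G m := by
  induction K with
  | zero =>
    intro Q hQ
    have h1 : Q = C (Q.coeff 0) := Polynomial.eq_C_of_natDegree_le_zero hQ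
    have h2 : G 0 = C ((G 0).coeff 0) := Polynomial.eq_C_of_natDegree_le_zero (hG 0).2.le
    have h3 : (G 0).coeff 0 ≠ 0 := by
      intro h0
      apply (hG 0).1
      rw [h2, h0, map_zero]
    refine ⟨fun _ => Q.coeff 0 / (G 0).coeff 0, ?_⟩
    rw [Finset.sum_range_one]
    have h4 : C (Q.coeff 0 / (G 0).coeff 0) * G 0 = C (Q.coeff 0) := by
      have h5 : C (Q.coeff 0 / (G 0).coeff 0) * C ((G 0).coeff 0) = C (Q.coeff 0) := by
        rw [← map_mul, div_mul_cancel₀ _ h3]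
      rw [← h2] at h5
      exact h5
    rw [h4]
    exact h1
  | succ K ih =>
    intro Q hQ
    have h1 := hG (K + 1)
    have hlc : (G (K + 1)).coeff (K + 1) ≠ 0 := by
      have := Polynomial.leadingCoeff_ne_zero.2 h1.1
      unfold Polynomial.leadingCoeff at this
      rwa [h1.2] at this
    obtain ⟨α, hα⟩ : ∃ α : ℚ, α = Q.coeff (K + 1) / (G (K + 1)).coeff (K + 1) := ⟨_, rfl⟩
    have h2 : (Q - C α * G (K + 1)).natDegree ≤ K := by
      rw [Polynomial.natDegree_le_iff_coeff_eq_zero]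
      intro N hN
      rw [Polynomial.coeff_sub, Polynomial.coeff_C_mul]
      rcases Nat.lt_or_ge (K + 1) N with h3 | h3
      · rw [Polynomial.coeff_eq_zero_of_natDegree_lt (lt_of_le_of_lt hQ h3),
          Polynomial.coeff_eq_zero_of_natDegree_lt (by rw [h1.2]; exact h3)]
        ring
      · have h4 : N = K + 1 := by omega
        rw [h4, hα, div_mul_cancel₀ _ hlc, sub_self]
    obtain ⟨a, ha⟩ := ih _ h2
    refine ⟨fun m => if m = K + 1 then α else a m, ?_⟩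
    rw [Finset.sum_range_succ]
    simp only [if_true]
    have h5 : ∑ m ∈ Finset.range (K + 1), C (if m = K + 1 then α else a m) * G m =
        ∑ m ∈ Finset.range (K + 1), C (a m) * G m := by
      refine Finset.sum_congr rfl fun m hm => ?_
      rw [Finset.mem_range] at hm
      rw [if_neg (by omega)]
    rw [h5, ← ha]
    ring

lemma NB_natDegree {n d : ℕ} (hd : 1 ≤ d) (x0 : ℚ) (m : ℕ) : (NB n d x0 m).natDegree = m := by
  unfold NB
  rw [Polynomial.natDegree_C_mul, YB_natDegree]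
  have : (0 : ℚ) < d := by exact_mod_cast hd
  have hf : (0 : ℚ) < (m.factorial : ℚ) := by exact_mod_cast m.factorial_pos
  positivity

lemma NB_ne {n d : ℕ} (hd : 1 ≤ d) (x0 : ℚ) (m : ℕ) : NB n d x0 m ≠ 0 := by
  unfold NB
  have : (0 : ℚ) < d := by exact_mod_cast hd
  have hf : (0 : ℚ) < (m.factorial : ℚ) := by exact_mod_cast m.factorial_pos
  apply mul_ne_zero
  · rw [Ne, Polynomial.C_eq_zero]
    positivity
  · exact (YB_monic n x0 m).ne_zero

lemma Gb_spec (n m : ℕ) : Gb n m ≠ 0 ∧ (Gb n m).natDegree = m := by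
  unfold Gb
  have h1 := NB_ne (n := n) le_rfl 0 n
  have h2 := NB_ne (n := n) le_rfl 0 (m % n)
  refine ⟨mul_ne_zero (pow_ne_zero _ h1) h2, ?_⟩
  rw [Polynomial.natDegree_mul (pow_ne_zero _ h1) h2, Polynomial.natDegree_pow,
    NB_natDegree le_rfl, NB_natDegree le_rfl]
  exact Nat.div_add_mod' m n

lemma Phi_natDegree (n b B R : ℕ) : (Phi n b B R).natDegree ≤ n * ((b + 1) * (B ^ 2 * R)) := by
  unfold Phi
  refine (Polynomial.natDegree_prod_le _ _).trans ?_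
  calc ∑ q ∈ Ix B R, (NB n q.1 (stq n q) n ^ (b + 1)).natDegree
      ≤ ∑ q ∈ Ix B R, (b + 1) * n := by
        apply Finset.sum_le_sum
        intro q hq
        rw [mem_Ix] at hq
        rw [Polynomial.natDegree_pow, NB_natDegree hq.1.1]
    _ = (Ix B R).card * ((b + 1) * n) := by rw [Finset.sum_const, smul_eq_mul]
    _ ≤ (B ^ 2 * R) * ((b + 1) * n) := Nat.mul_le_mul_right _ (card_Ix_le B R)
    _ = _ := by ring

lemma Kd_natDegree {n b r M d0 B : ℕ} (hd0 : 1 ≤ d0) (hd0B : d0 ≤ B) (hM : 1 ≤ M) :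
    (Kd n b r M d0).natDegree ≤ (b + 1) * (M * B ^ 2) := by
  unfold Kd Th
  have h1 : ((X - C (yq n (x0q r n d0))) ^ b : ℚ[X]).natDegree ≤ b := by
    rw [Polynomial.natDegree_pow, Polynomial.natDegree_X_sub_C, mul_one]
  have h2 : ((YB n (x0q r n d0 + 1) (M - 1)) ^ (b + 1)).natDegree ≤ (b + 1) * (M - 1) := by
    rw [Polynomial.natDegree_pow, YB_natDegree]
  have h3 : (∏ q ∈ (JJ d0).erase ⟨d0, 1 % d0⟩,
      YB n ((r : ℚ) * n + (q.2 : ℚ) / (q.1 : ℕ)) M ^ (b + 1)).natDegree ≤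
      ((JJ d0).card - 1) * ((b + 1) * M) := by
    refine (Polynomial.natDegree_prod_le _ _).trans ?_
    rw [← Finset.card_erase_of_mem (q0_mem hd0)]
    have h4 : ((JJ d0).erase ⟨d0, 1 % d0⟩).card * ((b + 1) * M) =
        ∑ _q ∈ (JJ d0).erase ⟨d0, 1 % d0⟩, (b + 1) * M := by
      rw [Finset.sum_const, smul_eq_mul]
    rw [h4]
    apply Finset.sum_le_sum
    intro q _
    rw [Polynomial.natDegree_pow, YB_natDegree]
  refine Polynomial.natDegree_mul_le.trans ?_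
  refine (Nat.add_le_add h1 (Polynomial.natDegree_mul_le.trans (Nat.add_le_add h2 h3))).trans ?_
  have e1 : 1 ≤ (JJ d0).card := Finset.card_pos.2 ⟨_, q0_mem hd0⟩
  have e2 : (JJ d0).card ≤ B ^ 2 := (card_JJ_le d0).trans (Nat.pow_le_pow_left hd0B 2)
  obtain ⟨M', rfl⟩ : ∃ M', M = M' + 1 := ⟨M - 1, by omega⟩
  obtain ⟨J', hJ'⟩ : ∃ J', (JJ d0).card = J' + 1 := ⟨(JJ d0).card - 1, by omega⟩
  rw [hJ', Nat.add_sub_cancel, Nat.add_sub_cancel]
  rw [hJ'] at e2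
  calc b + ((b + 1) * M' + J' * ((b + 1) * (M' + 1))) ≤ (b + 1) * (M' + 1) * (J' + 1) := by
        nlinarith
    _ ≤ (b + 1) * (M' + 1) * B ^ 2 := Nat.mul_le_mul_left _ e2
    _ = _ := by ring

lemma KP_sum (n h : ℕ) (Φ : ℚ[X]) (S : Finset ℕ) (a : ℕ → ℚ) (G : ℕ → ℚ[X]) :
    KP n h (Φ * ∑ m ∈ S, C (a m) * G m) = ∑ m ∈ S, C (a m) * KP n h (Φ * G m) := by
  unfold KP num
  rw [Finset.mul_sum, Polynomial.sum_comp, Finset.mul_sum, Finset.mul_sum]
  refine Finset.sum_congr rfl fun m _ => ?_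
  simp only [Polynomial.mul_comp, Polynomial.C_comp]
  ring

lemma coeff_RS_sum (s : Finset ℕ) (μ : ℕ → ℕ) (S : Finset ℕ) (a : ℕ → ℚ) (P : ℕ → ℚ[X]) (c : ℚ)
    (b : ℕ) : PowerSeries.coeff b (RS s μ (∑ m ∈ S, C (a m) * P m) c) =
      ∑ m ∈ S, a m * PowerSeries.coeff b (RS s μ (P m) c) := by
  unfold RS
  rw [map_sum, Finset.sum_mul, map_sum]
  refine Finset.sum_congr rfl fun m _ => ?_
  rw [map_mul (TS c), TS_C, mul_assoc, PowerSeries.coeff_C_mul]

lemma Lam_sum {n h b B : ℕ} (hb : Even b) (hb1 : 1 ≤ b) (w : ℕ → ℤ) (S : Finset ℕ) (a : ℕ → ℚ)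
    (P : ℕ → ℚ[X]) (hdeg : ∀ m ∈ S, (P m).degree < (QQ (sP n) (mP h)).degree) :
    Lam n h b B w (∑ m ∈ S, C (a m) * P m) = ∑ m ∈ S, (a m : ℝ) * Lam n h b B w (P m) := by
  have h1 : ∀ d ∈ Finset.Icc 1 B, Sd n h b d (∑ m ∈ S, C (a m) * P m) =
      ∑ m ∈ S, (a m : ℝ) * Sd n h b d (P m) := by
    intro d hd
    rw [Finset.mem_Icc] at hd
    unfold Sd
    have h2 : HasSum (fun t : ℕ => ∑ m ∈ S, (a m : ℝ) *
        ((PowerSeries.coeff b (RS (sP n) (mP h) (P m) (((t : ℚ) + 1) / d)) : ℚ) : ℝ))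
        (∑ m ∈ S, (a m : ℝ) * ∑' t : ℕ,
        ((PowerSeries.coeff b (RS (sP n) (mP h) (P m) (((t : ℚ) + 1) / d)) : ℚ) : ℝ)) := by
      apply hasSum_sum
      intro m hm
      exact ((hasSum_S hb hb1 hd.1 (P m) (hdeg m hm)).summable.hasSum).mul_left _
    rw [← h2.tsum_eq]
    apply tsum_congr
    intro t
    rw [coeff_RS_sum]
    push_cast
    rfl
  unfold Lam
  rw [Finset.sum_congr rfl fun d hd => by rw [h1 d hd]]
  simp_rw [Finset.mul_sum]
  rw [Finset.sum_comm]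
  refine Finset.sum_congr rfl fun m _ => Finset.sum_congr rfl fun d _ => ?_
  ring

/-- one of the basic linear forms does not vanish -/
theorem exists_ne {n h b B r r1 d0 : ℕ} (hn : 1 ≤ n) (hr : 2 ≤ r) (hr1 : 1 ≤ r1) (hd0 : 1 ≤ d0)
    (hd0B : d0 ≤ B) (hb : Even b) (hb1 : 1 ≤ b) (w : ℕ → ℤ) (hw0 : w d0 ≠ 0)
    (hw : ∀ d, d0 < d → d ≤ B → w d = 0)
    (hh : 2 * (n * ((b + 1) * (B ^ 2 * (r + 1 + r1)))) + 3 ≤ 2 * h * n)
    (hsmall : (∑ d ∈ Finset.Icc 1 B, |(w d : ℝ)|) * (2 * (M7 n h b B r r1 : ℝ)) < 1) :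
    ∃ m, m ≤ n * ((b + 1) * (B ^ 2 * r1)) ∧
      Lam n h b B w (KP n h (Phi n b B (r + 1) * Gb n m)) ≠ 0 := by
  have hP := Phi_natDegree n b B (r + 1)
  have hM : 1 ≤ r1 * n := Nat.mul_pos hr1 hn
  have hK := Kd_natDegree (n := n) (b := b) (r := r) (M := r1 * n) hd0 hd0B hM
  have e1 : (b + 1) * (r1 * n * B ^ 2) = n * ((b + 1) * (B ^ 2 * r1)) := by ring
  have e2 : n * ((b + 1) * (B ^ 2 * (r + 1 + r1))) =
      n * ((b + 1) * (B ^ 2 * (r + 1))) + n * ((b + 1) * (B ^ 2 * r1)) := by ring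
  have e3 : n * (2 * h) = 2 * h * n := by ring
  rw [e1] at hK
  have hdeg : ∀ Q : ℚ[X], Q.natDegree ≤ n * ((b + 1) * (B ^ 2 * r1)) →
      2 * (Phi n b B (r + 1) * Q).natDegree + 3 ≤ n * (2 * h) := by
    intro Q hQ
    have h1 := Polynomial.natDegree_mul_le (p := Phi n b B (r + 1)) (q := Q)
    rw [e3]
    rw [e2] at hh
    omega
  have hne := Lam_ne hn hr hr1 hd0 hd0B hb hb1 w hw0 hw hh (hdeg _ hK) hsmall
  by_contra hno
  push Not at hno
  apply hne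
  obtain ⟨a, ha⟩ := basis_expand (Gb n) (Gb_spec n) _ _ hK
  rw [ha, KP_sum, Lam_sum hb hb1 w _ a _ fun m hm => ?_]
  · apply Finset.sum_eq_zero
    intro m hm
    rw [Finset.mem_range] at hm
    rw [hno m (by omega), mul_zero]
  · rw [Finset.mem_range] at hm
    apply degree_KP_lt
    apply hdeg
    rw [(Gb_spec n m).2]
    omega

end

end Pool.Agent.Y926.LZ
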