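import Pool.Agent.Y926.LZ.NonX

/-!
# The size of the coefficients of the linear forms
-/

open Polynomial Pool.Agent.H337R2 Pool.Agent.W165.OZ Pool.Agent.W165.OZ.PAx

namespace Pool.Agent.Y926.LZ

noncomputable section

lemma Nm_mono {T : ℕ} {ρ ρ' : ℚ} (hρ : 0 ≤ ρ) (h : ρ ≤ ρ') (f : PowerSeries ℚ) :
    Nm T ρ f ≤ Nm T ρ' f := by
  unfold Nm
  apply Finset.sum_le_sum
  intro j _
  exact mul_le_mul_of_nonneg_left (pow_le_pow_left₀ hρ h j) (abs_nonneg _)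

variable {n b h T : ℕ} {c c' : ℚ}

/-- the centre `c` and the size `c'` are decoupled -/
lemma Nm_fac2 (hn : 1 ≤ n) (hc' : 2 * (n : ℚ) ≤ c') (hc1 : -(n : ℚ) ≤ c) (hc2 : c ≤ c') {x : ℚ}
    (hx1 : -(n : ℚ) ≤ x) (hx2 : x ≤ c') :
    Nm T 1 (TS c ((X - C (yq n x)).comp (yp n))) ≤ 6 * c' ^ 2 := by
  have hn' : (1 : ℚ) ≤ n := by exact_mod_cast hn
  rw [lin_comp, map_mul, TS_lin, TS_lin]
  have h1 := Nm_linX (T := T) (ρ := 1) zero_le_one (c + -x)
  have h2 := Nm_linX (T := T) (ρ := 1) zero_le_one (c + (x + ((n : ℚ) - 1)))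
  refine (Nm_mul_le zero_le_one h1 h2).trans ?_
  have h3 : |c + -x| ≤ c' + n := by rw [abs_le]; constructor <;> linarith
  have h4 : |c + (x + ((n : ℚ) - 1))| ≤ 2 * c' + n - 1 := by rw [abs_le]; constructor <;> linarith
  have h5 := abs_nonneg (c + -x)
  have h6 := abs_nonneg (c + (x + ((n : ℚ) - 1)))
  calc (|c + -x| + 1) * (|c + (x + ((n : ℚ) - 1))| + 1) ≤ (2 * c') * (3 * c') := by
        apply mul_le_mul (by linarith) (by linarith) (by linarith) (by linarith)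
    _ = _ := by ring

lemma Nm_YB2 (hn : 1 ≤ n) (hc' : 2 * (n : ℚ) ≤ c') (hc1 : -(n : ℚ) ≤ c) (hc2 : c ≤ c') {x : ℚ}
    {m : ℕ} (hx1 : -(n : ℚ) ≤ x) (hx2 : x + m ≤ c' + 1) :
    Nm T 1 (TS c ((YB n x m).comp (yp n))) ≤ (6 * c' ^ 2) ^ m := by
  unfold YB
  rw [Polynomial.prod_comp, map_prod]
  have h1 := Nm_prod (T := T) (ρ := 1) zero_le_one (Finset.range m) (fun _ => 6 * c' ^ 2)
    (fun j => TS c ((X - C (yq n (x + j))).comp (yp n))) fun j hj => by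
      rw [Finset.mem_range] at hj
      have h2 : (j : ℚ) + 1 ≤ m := by exact_mod_cast hj
      have h3 : (0 : ℚ) ≤ j := by positivity
      exact Nm_fac2 hn hc' hc1 hc2 (by linarith) (by linarith)
  rwa [Finset.prod_const, Finset.card_range] at h1

lemma Nm_NB2 (hn : 1 ≤ n) (hc' : 2 * (n : ℚ) ≤ c') (hc1 : -(n : ℚ) ≤ c) (hc2 : c ≤ c') {x : ℚ}
    {m d : ℕ} (hx1 : -(n : ℚ) ≤ x) (hx2 : x + m ≤ c' + 1) :
    Nm T 1 (TS c ((NB n d x m).comp (yp n))) ≤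
      (((d : ℚ) ^ (2 * m) / m.factorial) ^ 2) * (6 * c' ^ 2) ^ m := by
  unfold NB
  rw [Polynomial.mul_comp, Polynomial.C_comp, map_mul, TS_C]
  refine Nm_mul_le zero_le_one ?_ (Nm_YB2 hn hc' hc1 hc2 hx1 hx2)
  rw [Nm_C, abs_of_nonneg (by positivity)]

lemma Phi_le2 {B R : ℕ} (hn : 1 ≤ n) (hB : 1 ≤ B) (hc' : 2 * (n : ℚ) ≤ c') (hc1 : -(n : ℚ) ≤ c)
    (hc2 : c ≤ c') (hR : ((R : ℚ) - 1) * n ≤ c') :
    Nm T 1 (TS c ((Phi n b B R).comp (yp n))) ≤
      (54 * (B : ℚ) ^ 4 * (c' / n) ^ 2) ^ (n * ((b + 1) * (B ^ 2 * R))) := by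
  have hn' : (1 : ℚ) ≤ n := by exact_mod_cast hn
  have hB' : (1 : ℚ) ≤ (B : ℚ) ^ 4 := one_le_pow₀ (by exact_mod_cast hB)
  have hτ : 2 ≤ c' / n := by rw [le_div_iff₀ (by linarith)]; linarith
  have hbase : (1 : ℚ) ≤ 54 * (B : ℚ) ^ 4 * (c' / n) ^ 2 := by nlinarith
  have h0 : Nm T 1 (TS c ((Phi n b B R).comp (yp n))) ≤
      ∏ q ∈ Ix B R, ((((q.1 : ℚ) ^ (2 * n) / n.factorial) ^ 2) * (6 * c' ^ 2) ^ n) ^ (b + 1) := by
    unfold Phi
    rw [Polynomial.prod_comp, map_prod]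
    refine Nm_prod (T := T) (ρ := 1) zero_le_one _ _ _ fun q hq => ?_
    rw [Polynomial.pow_comp, map_pow]
    rw [mem_Ix] at hq
    apply Nm_pow zero_le_one
    have hd : (1 : ℚ) ≤ ((q.1 : ℕ) : ℚ) := by exact_mod_cast hq.1.1
    have hl : (((q.2.1 : ℕ) : ℚ)) / ((q.1 : ℕ) : ℚ) ≤ 1 := by
      rw [div_le_one (by linarith)]
      exact_mod_cast hq.2.1.le
    have hl0 : 0 ≤ (((q.2.1 : ℕ) : ℚ)) / ((q.1 : ℕ) : ℚ) := by positivity
    have hcc : (((q.2.2 : ℕ) : ℚ)) + 1 ≤ R := by exact_mod_cast hq.2.2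
    have hc0 : (0 : ℚ) ≤ ((q.2.2 : ℕ) : ℚ) := by positivity
    apply Nm_NB2 hn hc' hc1 hc2
    · unfold stq
      nlinarith
    · unfold stq
      nlinarith
  refine h0.trans ?_
  have h1 : ∏ q ∈ Ix B R, ((((q.1 : ℚ) ^ (2 * n) / n.factorial) ^ 2) * (6 * c' ^ 2) ^ n) ^ (b + 1) ≤
      ∏ _q ∈ Ix B R, ((54 * (B : ℚ) ^ 4 * (c' / n) ^ 2) ^ n) ^ (b + 1) := by
    apply Finset.prod_le_prod
    · intro q _
      positivity
    · intro q hq
      rw [mem_Ix] at hq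
      exact pow_le_pow_left₀ (by positivity) (pow_base hn hq.1.2) _
  refine h1.trans ?_
  rw [Finset.prod_const, ← pow_mul, ← pow_mul]
  apply pow_le_pow_right₀ hbase
  have := card_Ix_le B R
  exact Nat.mul_le_mul_left _ (Nat.mul_le_mul_left _ this)

lemma Gb_le2 {B m : ℕ} (hn : 1 ≤ n) (hB : 1 ≤ B) (hc' : 2 * (n : ℚ) ≤ c') (hc1 : -(n : ℚ) ≤ c)
    (hc2 : c ≤ c') :
    Nm T 1 (TS c ((Gb n m).comp (yp n))) ≤
      (54 * (B : ℚ) ^ 4 * (c' / n) ^ 2) ^ (n * (m / n + 1)) := by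
  have hn' : (1 : ℚ) ≤ n := by exact_mod_cast hn
  have hB' : (1 : ℚ) ≤ (B : ℚ) ^ 4 := one_le_pow₀ (by exact_mod_cast hB)
  have hτ : 2 ≤ c' / n := by rw [le_div_iff₀ (by linarith)]; linarith
  have hbase : (1 : ℚ) ≤ 54 * (B : ℚ) ^ 4 * (c' / n) ^ 2 := by nlinarith
  have hf : (0 : ℚ) < (n.factorial : ℚ) := by exact_mod_cast n.factorial_pos
  unfold Gb
  rw [Polynomial.mul_comp, Polynomial.pow_comp, map_mul, map_pow]
  have h1 := Nm_NB2 (n := n) (T := T) (c := c) (c' := c') (x := 0) (m := n) (d := 1) hn hc' hc1 hc2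
    (by linarith) (by linarith)
  have hm' : m % n < n := Nat.mod_lt _ hn
  have hm'' : ((m % n : ℕ) : ℚ) ≤ n := by exact_mod_cast hm'.le
  have h2 := Nm_NB2 (n := n) (T := T) (c := c) (c' := c') (x := 0) (m := m % n) (d := 1) hn hc' hc1
    hc2 (by linarith) (by linarith)
  have h3 := h1.trans (pow_base (c := c') hn hB)
  have h4 : (((((1 : ℕ) : ℚ)) ^ (2 * (m % n)) / (m % n).factorial) ^ 2) * (6 * c' ^ 2) ^ (m % n) ≤
      (54 * (B : ℚ) ^ 4 * (c' / n) ^ 2) ^ n := by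
    refine le_trans ?_ (pow_base (c := c') hn hB)
    have hg : (0 : ℚ) < ((m % n).factorial : ℚ) := by exact_mod_cast (m % n).factorial_pos
    have h5 : (n.factorial : ℚ) ≤ ((m % n).factorial : ℚ) * (n : ℚ) ^ (n - m % n) := by
      have h6 := Nat.factorial_mul_descFactorial (n := n) (k := n - m % n) (by omega)
      have h7 : n - (n - m % n) = m % n := by omega
      rw [h7] at h6
      have h8 := Nat.descFactorial_le_pow n (n - m % n)
      have h9 : n.factorial ≤ (m % n).factorial * n ^ (n - m % n) := by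
        rw [← h6]
        exact Nat.mul_le_mul_left _ h8
      exact_mod_cast h9
    have h10 : (1 : ℚ) / (m % n).factorial ≤ (n : ℚ) ^ (n - m % n) / n.factorial := by
      rw [div_le_div_iff₀ hg hf]
      linarith
    push_cast
    rw [one_pow, one_pow]
    calc (1 / ((m % n).factorial : ℚ)) ^ 2 * (6 * c' ^ 2) ^ (m % n)
        ≤ ((n : ℚ) ^ (n - m % n) / n.factorial) ^ 2 * (6 * c' ^ 2) ^ (m % n) := by
          gcongr
      _ = (1 / (n.factorial : ℚ)) ^ 2 * ((n : ℚ) ^ 2) ^ (n - m % n) * (6 * c' ^ 2) ^ (m % n) := by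
          rw [← pow_mul, mul_comm 2 (n - m % n), pow_mul]
          ring
      _ ≤ (1 / (n.factorial : ℚ)) ^ 2 * (6 * c' ^ 2) ^ (n - m % n) * (6 * c' ^ 2) ^ (m % n) := by
          have : (n : ℚ) ^ 2 ≤ 6 * c' ^ 2 := by nlinarith
          gcongr
      _ = _ := by
          rw [mul_assoc, ← pow_add]
          congr 2
          omega
  have h5 := Nm_mul_le zero_le_one (Nm_pow (T := T) zero_le_one h3 (m / n)) (h2.trans h4)
  refine h5.trans (le_of_eq ?_)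
  rw [← pow_mul, ← pow_add]
  congr 1

/-! ### Ratios -/

lemma YB_ratio2 {m D B : ℕ} (hn : 1 ≤ n) (hnm : n ≤ m) (hD : 1 ≤ D) (hDB : D ≤ B ^ 2)
    (hc' : 2 * (n : ℚ) ≤ c') (hc1 : -(n : ℚ) ≤ c) (hc2 : c ≤ c') {x x' : ℚ}
    (hx1 : -(n : ℚ) ≤ x') (hx2 : x' + m ≤ c' + 1)
    (hξ : ∃ a : ℤ, x' - x = a / D)
    (hne : ∀ j < m, x' - x + j ≠ 0) (hpos : ∀ j < m, (n : ℚ) ≤ x + (x' + j) + ((n : ℚ) - 1)) :
    Nm T 1 (TS c ((YB n x' m).comp (yp n))) ≤
      |(YB n x' m).eval (yq n x)| * (54 * (B : ℚ) ^ 4 * (c' / n) ^ 2) ^ m := by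
  refine (Nm_YB2 hn hc' hc1 hc2 hx1 hx2).trans ?_
  refine (run_ratio hn hnm hD hDB).trans ?_
  exact mul_le_mul_of_nonneg_right (YB_lb hD hξ hne hpos) (by positivity)

lemma NB_ratio2 {D B d : ℕ} (hn : 1 ≤ n) (hD : 1 ≤ D) (hDB : D ≤ B ^ 2)
    (hc' : 2 * (n : ℚ) ≤ c') (hc1 : -(n : ℚ) ≤ c) (hc2 : c ≤ c') {x x' : ℚ}
    (hx1 : -(n : ℚ) ≤ x') (hx2 : x' + n ≤ c' + 1)
    (hξ : ∃ a : ℤ, x' - x = a / D)
    (hne : ∀ j < n, x' - x + j ≠ 0) (hpos : ∀ j < n, (n : ℚ) ≤ x + (x' + j) + ((n : ℚ) - 1)) :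
    Nm T 1 (TS c ((NB n d x' n).comp (yp n))) ≤
      |(NB n d x' n).eval (yq n x)| * (54 * (B : ℚ) ^ 4 * (c' / n) ^ 2) ^ n := by
  unfold NB
  rw [Polynomial.mul_comp, Polynomial.C_comp, map_mul, TS_C, Polynomial.eval_mul,
    Polynomial.eval_C, abs_mul, mul_assoc]
  refine Nm_mul_le zero_le_one ?_ (YB_ratio2 hn le_rfl hD hDB hc' hc1 hc2 hx1 hx2 hξ hne hpos)
  rw [Nm_C]

lemma Phi_ratio2 {B r d0 : ℕ} (hn : 1 ≤ n) (hr : 2 ≤ r) (hd0 : 1 ≤ d0) (hd0B : d0 ≤ B)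
    (hc1 : -(n : ℚ) ≤ c) (hc2 : c ≤ c') (hcr : (r : ℚ) * n ≤ c') :
    Nm T 1 (TS c ((Phi n b B (r + 1)).comp (yp n))) ≤
      |(Phi n b B (r + 1)).eval (yq n (x0q r n d0))| *
        (54 * (B : ℚ) ^ 4 * (c' / n) ^ 2) ^ (n * ((b + 1) * (B ^ 2 * (r + 1)))) := by
  have hn' : (1 : ℚ) ≤ n := by exact_mod_cast hn
  have hr' : (2 : ℚ) ≤ r := by exact_mod_cast hr
  have hc : 2 * (n : ℚ) ≤ c' := by nlinarith
  have hB4 : (1 : ℚ) ≤ (B : ℚ) ^ 4 := one_le_pow₀ (by exact_mod_cast hd0.trans hd0B)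
  have hτ : 2 ≤ c' / n := by rw [le_div_iff₀ (by linarith)]; linarith
  have hbase : (1 : ℚ) ≤ 54 * (B : ℚ) ^ 4 * (c' / n) ^ 2 := by nlinarith
  have hd0' : (0 : ℚ) < d0 := by exact_mod_cast hd0
  have h1 : Nm T 1 (TS c ((Phi n b B (r + 1)).comp (yp n))) ≤ ∏ q ∈ Ix B (r + 1),
      (|(NB n q.1 (stq n q) n).eval (yq n (x0q r n d0))| *
        (54 * (B : ℚ) ^ 4 * (c' / n) ^ 2) ^ n) ^ (b + 1) := by
    unfold Phi
    rw [Polynomial.prod_comp, map_prod]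
    refine Nm_prod (T := T) (ρ := 1) zero_le_one _ _ _ fun q hq => ?_
    rw [Polynomial.pow_comp, map_pow]
    have hq' := hq
    rw [mem_Ix] at hq
    apply Nm_pow zero_le_one
    have hd : (1 : ℚ) ≤ ((q.1 : ℕ) : ℚ) := by exact_mod_cast hq.1.1
    have hl : (((q.2.1 : ℕ) : ℚ)) / ((q.1 : ℕ) : ℚ) < 1 := by
      rw [div_lt_one (by linarith)]
      exact_mod_cast hq.2.1
    have hl0 : 0 ≤ (((q.2.1 : ℕ) : ℚ)) / ((q.1 : ℕ) : ℚ) := by positivity
    have hcc : (((q.2.2 : ℕ) : ℚ)) ≤ r := by exact_mod_cast Nat.lt_succ_iff.1 hq.2.2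
    have hc0 : (0 : ℚ) ≤ ((q.2.2 : ℕ) : ℚ) := by positivity
    have he1 := e0_lt hd0
    have he0 := e0_nonneg (d0 := d0)
    refine NB_ratio2 (D := q.1 * d0) hn ?_ ?_ hc hc1 hc2 ?_ ?_ ?_ ?_ ?_
    · exact Nat.mul_pos hq.1.1 hd0
    · rw [pow_two]
      exact Nat.mul_le_mul hq.1.2 hd0B
    · unfold stq
      nlinarith
    · unfold stq
      nlinarith
    · obtain ⟨e, he⟩ : ∃ e : ℕ, e = 1 % d0 := ⟨_, rfl⟩
      refine ⟨(((q.2.2 : ℤ) - 1) * n - r * n) * (q.1 * d0) + q.2.1 * d0 - e * q.1, ?_⟩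
      unfold stq x0q
      rw [← he]
      have : (q.1 : ℚ) ≠ 0 := by linarith
      push_cast
      field_simp
      ring
    · intro j hj
      have hj' : (j : ℚ) + 1 ≤ n := by exact_mod_cast hj
      unfold stq x0q
      apply ne_of_lt
      nlinarith
    · intro j hj
      have hj' : (0 : ℚ) ≤ j := by positivity
      unfold stq x0q
      nlinarith
  refine h1.trans ?_
  have h2 : ∏ q ∈ Ix B (r + 1), (|(NB n q.1 (stq n q) n).eval (yq n (x0q r n d0))| *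
        (54 * (B : ℚ) ^ 4 * (c' / n) ^ 2) ^ n) ^ (b + 1) =
      |(Phi n b B (r + 1)).eval (yq n (x0q r n d0))| *
        (54 * (B : ℚ) ^ 4 * (c' / n) ^ 2) ^ (n * ((b + 1) * (Ix B (r + 1)).card)) := by
    unfold Phi
    rw [Polynomial.eval_prod, Finset.abs_prod]
    have h3 : ∀ q ∈ Ix B (r + 1), (|(NB n q.1 (stq n q) n).eval (yq n (x0q r n d0))| *
        (54 * (B : ℚ) ^ 4 * (c' / n) ^ 2) ^ n) ^ (b + 1) =
        |((NB n q.1 (stq n q) n) ^ (b + 1)).eval (yq n (x0q r n d0))| *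
        ((54 * (B : ℚ) ^ 4 * (c' / n) ^ 2) ^ n) ^ (b + 1) := by
      intro q _
      rw [Polynomial.eval_pow, abs_pow, mul_pow]
    rw [Finset.prod_congr rfl h3, Finset.prod_mul_distrib, Finset.prod_const, ← pow_mul, ← pow_mul,
      mul_assoc]
  rw [h2]
  apply mul_le_mul_of_nonneg_left _ (abs_nonneg _)
  apply pow_le_pow_right₀ hbase
  exact Nat.mul_le_mul_left _ (Nat.mul_le_mul_left _ (card_Ix_le B (r + 1)))

lemma Th_ratio2 {B r M d0 : ℕ} (hn : 1 ≤ n) (hr : 2 ≤ r) (hM : n ≤ M) (hd0 : 1 ≤ d0) (hd0B : d0 ≤ B)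
    (hc1 : -(n : ℚ) ≤ c) (hc2 : c ≤ c') (hcr : (r : ℚ) * n + M ≤ c') :
    Nm T 1 (TS c (((X - C (yq n (x0q r n d0))) ^ b * Th n b r M d0).comp (yp n))) ≤
      |(Th n b r M d0).eval (yq n (x0q r n d0))| * ((M : ℚ) * n) ^ (b + 1) *
        (54 * (B : ℚ) ^ 4 * (c' / n) ^ 2) ^ ((b + 1) * (M * B ^ 2)) := by
  have hn' : (1 : ℚ) ≤ n := by exact_mod_cast hn
  have hr' : (2 : ℚ) ≤ r := by exact_mod_cast hr
  have hM' : (n : ℚ) ≤ M := by exact_mod_cast hM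
  have hc : 2 * (n : ℚ) ≤ c' := by nlinarith
  have hB4 : (1 : ℚ) ≤ (B : ℚ) ^ 4 := one_le_pow₀ (by exact_mod_cast hd0.trans hd0B)
  have hτ : 2 ≤ c' / n := by rw [le_div_iff₀ (by linarith)]; linarith
  have hbase : (1 : ℚ) ≤ 54 * (B : ℚ) ^ 4 * (c' / n) ^ 2 := by nlinarith
  have hd0' : (0 : ℚ) < d0 := by exact_mod_cast hd0
  have he1 := e0_lt hd0
  have he0 := e0_nonneg (d0 := d0)
  have h6 : (1 : ℚ) ≤ 6 * c' ^ 2 := by nlinarith
  set XX : ℚ := 54 * (B : ℚ) ^ 4 * (c' / n) ^ 2 with hXX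
  -- the exceptional line
  have h1 : Nm T 1 (TS c ((X - C (yq n (x0q r n d0))).comp (yp n))) ≤ 6 * c' ^ 2 := by
    apply Nm_fac2 hn hc hc1 hc2
    · unfold x0q; nlinarith
    · unfold x0q; nlinarith
  have hM1 : ((M - 1 : ℕ) : ℚ) + 1 = M := by
    have : M - 1 + 1 = M := by omega
    exact_mod_cast this
  have h2 : Nm T 1 (TS c ((YB n (x0q r n d0 + 1) (M - 1)).comp (yp n))) ≤
      (6 * c' ^ 2) ^ (M - 1) := by
    apply Nm_YB2 hn hc hc1 hc2
    · unfold x0q; nlinarith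
    · unfold x0q; nlinarith
  have h3 : (6 * c' ^ 2) ^ M ≤ |(YB n (x0q r n d0 + 1) (M - 1)).eval (yq n (x0q r n d0))| *
      ((M : ℚ) * n) * XX ^ M := by
    have h4 := run_ratio (c := c') (n := n) (m := M) (D := 1) (B := B) hn hM le_rfl
      (Nat.one_le_pow _ _ (hd0.trans hd0B))
    have h5 := YB_lb (n := n) (m := M - 1) (D := 1) (x := x0q r n d0) (x' := x0q r n d0 + 1) le_rfl
      ⟨1, by push_cast; ring⟩ (fun j _ => by
        have : (0 : ℚ) ≤ j := by positivity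
        apply ne_of_gt
        linarith) (fun j _ => by
        have : (0 : ℚ) ≤ j := by positivity
        unfold x0q
        nlinarith)
    rw [Nat.cast_one, one_pow, div_one] at h4 h5
    have h7 : (M.factorial : ℚ) * (n : ℚ) ^ M =
        (((M - 1).factorial : ℚ) * (n : ℚ) ^ (M - 1)) * ((M : ℚ) * n) := by
      have e1 : M.factorial = M * (M - 1).factorial := by
        rw [Nat.mul_factorial_pred (by omega)]
      have e2 : (n : ℚ) ^ M = (n : ℚ) ^ (M - 1) * n := by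
        rw [← pow_succ]; congr 1; omega
      rw [e1, e2]
      push_cast
      ring
    rw [h7] at h4
    refine h4.trans ?_
    gcongr
  have h4 : Nm T 1 (TS c (((X - C (yq n (x0q r n d0))) ^ b *
      YB n (x0q r n d0 + 1) (M - 1) ^ (b + 1)).comp (yp n))) ≤
      (|(YB n (x0q r n d0 + 1) (M - 1)).eval (yq n (x0q r n d0))| *
      ((M : ℚ) * n) * XX ^ M) ^ (b + 1) := by
    rw [Polynomial.mul_comp, Polynomial.pow_comp, Polynomial.pow_comp, map_mul, map_pow, map_pow]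
    refine (Nm_mul_le zero_le_one (Nm_pow zero_le_one h1 b)
      (Nm_pow zero_le_one h2 (b + 1))).trans ?_
    refine le_trans ?_ (pow_le_pow_left₀ (by positivity) h3 (b + 1))
    rw [← pow_mul, ← pow_mul, ← pow_add]
    apply pow_le_pow_right₀ h6
    have e1 : M = (M - 1) + 1 := by omega
    have e2 : M * (b + 1) = (M - 1) * (b + 1) + (b + 1) := by
      conv_lhs => rw [e1]
      ring
    omega
  -- the other lines
  have h5 : Nm T 1 (TS c ((∏ q ∈ (JJ d0).erase ⟨d0, 1 % d0⟩,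
      YB n ((r : ℚ) * n + (q.2 : ℚ) / (q.1 : ℕ)) M ^ (b + 1)).comp (yp n))) ≤
      ∏ q ∈ (JJ d0).erase ⟨d0, 1 % d0⟩,
      (|(YB n ((r : ℚ) * n + (q.2 : ℚ) / (q.1 : ℕ)) M).eval (yq n (x0q r n d0))| * XX ^ M) ^ (b + 1) := by
    rw [Polynomial.prod_comp, map_prod]
    refine Nm_prod (T := T) (ρ := 1) zero_le_one _ _ _ fun q hq => ?_
    rw [Polynomial.pow_comp, map_pow]
    have hq' := hq
    rw [Finset.mem_erase, mem_JJ] at hq
    apply Nm_pow zero_le_one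
    have hd : (1 : ℚ) ≤ ((q.1 : ℕ) : ℚ) := by exact_mod_cast hq.2.1.1
    have hl : (((q.2 : ℕ) : ℚ)) / ((q.1 : ℕ) : ℚ) < 1 := by
      rw [div_lt_one (by linarith)]
      exact_mod_cast hq.2.2
    have hl0 : 0 ≤ (((q.2 : ℕ) : ℚ)) / ((q.1 : ℕ) : ℚ) := by positivity
    refine YB_ratio2 (D := q.1 * d0) hn hM ?_ ?_ hc hc1 hc2 ?_ ?_ ?_ ?_ ?_
    · exact Nat.mul_pos hq.2.1.1 hd0
    · rw [pow_two]
      exact Nat.mul_le_mul (hq.2.1.2.trans hd0B) hd0B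
    · nlinarith
    · linarith
    · obtain ⟨e, he⟩ : ∃ e : ℕ, e = 1 % d0 := ⟨_, rfl⟩
      refine ⟨q.2 * d0 - e * q.1, ?_⟩
      unfold x0q
      rw [← he]
      have : (q.1 : ℚ) ≠ 0 := by linarith
      push_cast
      field_simp
      ring
    · intro j _
      have h8 := line_ne hd0 hq' j
      unfold x0q
      intro h9
      apply h8
      linarith
    · intro j _
      have hj' : (0 : ℚ) ≤ j := by positivity
      unfold x0q
      nlinarith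
  have h7 := Nm_mul_le (T := T) zero_le_one h4 h5
  rw [← map_mul, ← Polynomial.mul_comp] at h7
  have h8 : (X - C (yq n (x0q r n d0))) ^ b * YB n (x0q r n d0 + 1) (M - 1) ^ (b + 1) *
      ∏ q ∈ (JJ d0).erase ⟨d0, 1 % d0⟩, YB n ((r : ℚ) * n + (q.2 : ℚ) / (q.1 : ℕ)) M ^ (b + 1) =
      (X - C (yq n (x0q r n d0))) ^ b * Th n b r M d0 := by
    unfold Th
    rw [mul_assoc]
  rw [h8] at h7
  refine h7.trans ?_
  have h9 : (∏ q ∈ (JJ d0).erase ⟨d0, 1 % d0⟩,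
      (|(YB n ((r : ℚ) * n + (q.2 : ℚ) / (q.1 : ℕ)) M).eval (yq n (x0q r n d0))| * XX ^ M) ^ (b + 1)) =
      |(∏ q ∈ (JJ d0).erase ⟨d0, 1 % d0⟩,
        YB n ((r : ℚ) * n + (q.2 : ℚ) / (q.1 : ℕ)) M ^ (b + 1)).eval (yq n (x0q r n d0))| *
      (XX ^ (M * (b + 1))) ^ ((JJ d0).card - 1) := by
    rw [Polynomial.eval_prod, Finset.abs_prod, ← Finset.card_erase_of_mem (q0_mem hd0),
      ← Finset.prod_const, ← Finset.prod_mul_distrib]
    refine Finset.prod_congr rfl fun q _ => ?_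
    rw [Polynomial.eval_pow, abs_pow, mul_pow, ← pow_mul]
  rw [h9]
  have h10 : |(Th n b r M d0).eval (yq n (x0q r n d0))| =
      |(YB n (x0q r n d0 + 1) (M - 1)).eval (yq n (x0q r n d0))| ^ (b + 1) *
      |(∏ q ∈ (JJ d0).erase ⟨d0, 1 % d0⟩,
        YB n ((r : ℚ) * n + (q.2 : ℚ) / (q.1 : ℕ)) M ^ (b + 1)).eval (yq n (x0q r n d0))| := by
    unfold Th
    rw [Polynomial.eval_mul, Polynomial.eval_pow, abs_mul, abs_pow]
  rw [h10]
  have h11 : (XX ^ M) ^ (b + 1) * (XX ^ (M * (b + 1))) ^ ((JJ d0).card - 1) ≤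
      XX ^ ((b + 1) * (M * B ^ 2)) := by
    rw [← pow_mul, ← pow_mul, ← pow_add]
    apply pow_le_pow_right₀ hbase
    have e1 : 1 ≤ (JJ d0).card := Finset.card_pos.2 ⟨_, q0_mem hd0⟩
    have e2 : (JJ d0).card ≤ B ^ 2 := (card_JJ_le d0).trans (Nat.pow_le_pow_left hd0B 2)
    calc M * (b + 1) + M * (b + 1) * ((JJ d0).card - 1) = M * (b + 1) * (JJ d0).card := by
          conv_rhs => rw [show (JJ d0).card = 1 + ((JJ d0).card - 1) by omega]
          ring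
      _ ≤ M * (b + 1) * B ^ 2 := Nat.mul_le_mul_left _ e2
      _ = _ := by ring
  calc (|(YB n (x0q r n d0 + 1) (M - 1)).eval (yq n (x0q r n d0))| *
      ((M : ℚ) * n) * XX ^ M) ^ (b + 1) *
      (|(∏ q ∈ (JJ d0).erase ⟨d0, 1 % d0⟩,
        YB n ((r : ℚ) * n + (q.2 : ℚ) / (q.1 : ℕ)) M ^ (b + 1)).eval (yq n (x0q r n d0))| *
      (XX ^ (M * (b + 1))) ^ ((JJ d0).card - 1))
      = |(YB n (x0q r n d0 + 1) (M - 1)).eval (yq n (x0q r n d0))| ^ (b + 1) *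
      |(∏ q ∈ (JJ d0).erase ⟨d0, 1 % d0⟩,
        YB n ((r : ℚ) * n + (q.2 : ℚ) / (q.1 : ℕ)) M ^ (b + 1)).eval (yq n (x0q r n d0))| *
      ((M : ℚ) * n) ^ (b + 1) * ((XX ^ M) ^ (b + 1) * (XX ^ (M * (b + 1))) ^ ((JJ d0).card - 1)) := by
        ring
    _ ≤ _ := by gcongr

/-! ### The products of the differences of the poles -/

/-- the product of the distances of the poles -/
lemma abs_prod_erase {n k : ℕ} (hk : k < n) :
    ∏ k' ∈ (Finset.range n).erase k, |-(k : ℚ) + k'| = ((k.factorial * (n - 1 - k).factorial : ℕ) : ℚ) := by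
  have e1 : (Finset.range n).erase k = Finset.Ico 0 k ∪ Finset.Ico (k + 1) n := by
    ext x
    simp only [Finset.mem_erase, Finset.mem_Ico, Finset.mem_union, Finset.mem_range]
    omega
  have e2 : Disjoint (Finset.Ico 0 k) (Finset.Ico (k + 1) n) := by
    rw [Finset.disjoint_left]
    intro x hx hx'
    rw [Finset.mem_Ico] at hx hx'
    omega
  rw [e1, Finset.prod_union e2, Nat.cast_mul]
  congr 1
  · rw [← Finset.prod_range_add_one_eq_factorial, Nat.cast_prod]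
    refine Finset.prod_nbij' (fun x => k - 1 - x) (fun x => k - 1 - x) ?_ ?_ ?_ ?_ ?_
    · intro x hx
      simp only [Finset.mem_Ico, Finset.mem_range] at *
      omega
    · intro x hx
      simp only [Finset.mem_Ico, Finset.mem_range] at *
      omega
    · intro x hx
      simp only [Finset.mem_Ico] at *
      omega
    · intro x hx
      simp only [Finset.mem_range] at *
      omega
    · intro x hx
      simp only [Finset.mem_Ico] at *
      have h3 : -(k : ℚ) + x = -((k - 1 - x + 1 : ℕ) : ℚ) := by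
        have h4 : k - 1 - x + 1 = k - x := by omega
        rw [h4, Nat.cast_sub hx.2.le]
        ring
      rw [h3, abs_neg, abs_of_nonneg (by positivity)]
  · rw [← Finset.prod_range_add_one_eq_factorial, Nat.cast_prod]
    refine Finset.prod_nbij' (fun x => x - (k + 1)) (fun x => x + (k + 1)) ?_ ?_ ?_ ?_ ?_
    · intro x hx
      simp only [Finset.mem_Ico, Finset.mem_range] at *
      omega
    · intro x hx
      simp only [Finset.mem_Ico, Finset.mem_range] at *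
      omega
    · intro x hx
      simp only [Finset.mem_Ico] at *
      omega
    · intro x hx
      simp only [Finset.mem_range] at *
      omega
    · intro x hx
      simp only [Finset.mem_Ico] at *
      have h3 : -(k : ℚ) + x = ((x - (k + 1) + 1 : ℕ) : ℚ) := by
        have h4 : x - (k + 1) + 1 = x - k := by omega
        rw [h4, Nat.cast_sub (by omega)]
        ring
      rw [h3, abs_of_nonneg (by positivity)]

/-- `n! ∏ 2 / |k - k'| ≤ n 4^n` -/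
lemma fact_prod {n k : ℕ} (hk : k < n) :
    (n.factorial : ℚ) * ∏ k' ∈ (Finset.range n).erase k, (2 / |-(k : ℚ) + k'|) ≤ n * 4 ^ n := by
  rw [Finset.prod_div_distrib, abs_prod_erase hk, Finset.prod_const,
    Finset.card_erase_of_mem (Finset.mem_range.2 hk), Finset.card_range]
  obtain ⟨a, ha⟩ : ∃ a, n - 1 - k = a := ⟨_, rfl⟩
  have hn : n = k + a + 1 := by omega
  have hn1 : n - 1 = k + a := by omega
  rw [ha, hn1]
  have h1 : (n.factorial : ℚ) = (n : ℚ) * ((k + a).choose a : ℚ) * ((k.factorial * a.factorial : ℕ) : ℚ) := by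
    rw [hn, Nat.factorial_succ, ← Nat.add_choose_mul_factorial_mul_factorial k a]
    push_cast
    ring
  have hpos : (0 : ℚ) < ((k.factorial * a.factorial : ℕ) : ℚ) := by
    have := Nat.mul_pos k.factorial_pos a.factorial_pos
    exact_mod_cast this
  rw [h1, mul_assoc, mul_div_cancel₀ _ hpos.ne', mul_assoc]
  apply mul_le_mul_of_nonneg_left _ (by positivity)
  have h2 : ((k + a).choose a : ℚ) ≤ 2 ^ (k + a) := by exact_mod_cast Nat.choose_le_two_pow _ _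
  calc ((k + a).choose a : ℚ) * 2 ^ (k + a) ≤ 2 ^ (k + a) * 2 ^ (k + a) := by gcongr
    _ = 4 ^ (k + a) := by rw [← mul_pow]; norm_num
    _ ≤ 4 ^ n := pow_le_pow_right₀ (by norm_num) (by omega)

lemma Nm_VV2 {k : ℕ} :
    Nm T (1 / 2) (VV ((sP n).erase k) (mP h) (-(k : ℚ))) ≤
      (∏ k' ∈ (Finset.range n).erase k, (2 / |-(k : ℚ) + k'|)) ^ (2 * h) := by
  unfold VV
  rw [← Finset.prod_pow]
  refine Nm_prod (T := T) (by norm_num) _ _ _ fun k' hk' => ?_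
  rw [Finset.mem_erase, Finset.mem_range] at hk'
  apply Nm_pow (by norm_num)
  have h1 : (1 : ℚ) ≤ |-(k : ℚ) + k'| := by
    have h2 : (1 : ℤ) ≤ |-(k : ℤ) + k'| := by
      apply Int.one_le_abs
      intro h0
      apply hk'.1
      omega
    exact_mod_cast h2
  refine (Nm_iv (by norm_num) (by linarith)).trans ?_
  rw [div_le_div_iff₀ (by linarith) (by linarith)]
  linarith

/-- the bound of the partial fraction coefficients -/
lemma pa_le {k i : ℕ} (hk : k < n) (hi : i ≤ 2 * h) (hc' : 2 * (n : ℚ) ≤ c') {Q : ℚ[X]} {M : ℚ}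
    (hQ : Nm (2 * h) 1 (TS (-(k : ℚ)) (Q.comp (yp n))) ≤ M) :
    |pa (sP n) (mP h) (KP n h Q) k i| ≤ 4 ^ h * ((n.factorial : ℚ) ^ (2 * h) * (4 * c' * M) *
      (∏ k' ∈ (Finset.range n).erase k, (2 / |-(k : ℚ) + k'|)) ^ (2 * h)) := by
  have hn : 1 ≤ n := by omega
  have hn' : (1 : ℚ) ≤ n := by exact_mod_cast hn
  have hk' : (k : ℚ) + 1 ≤ n := by exact_mod_cast hk
  have hk0 : (0 : ℚ) ≤ k := by positivity
  have hM : 0 ≤ M := (Nm_nonneg zero_le_one _).trans hQ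
  have h1 : Nm (2 * h) (1 / 2) (TS (-(k : ℚ)) (KP n h Q) * VV ((sP n).erase k) (mP h) (-(k : ℚ))) ≤
      (n.factorial : ℚ) ^ (2 * h) * (4 * c' * M) *
      (∏ k' ∈ (Finset.range n).erase k, (2 / |-(k : ℚ) + k'|)) ^ (2 * h) := by
    refine Nm_mul_le (by norm_num) ?_ Nm_VV2
    refine (Nm_mono (by norm_num) (by norm_num : (1 / 2 : ℚ) ≤ 1) _).trans ?_
    unfold KP num
    rw [map_mul, map_mul, TS_C]
    refine Nm_mul_le zero_le_one ?_ (Nm_mul_le zero_le_one ?_ hQ)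
    · rw [Nm_C, abs_of_nonneg (by positivity)]
    · rw [map_add, map_mul, TS_C, TS_C, TS_X]
      refine (Nm_add zero_le_one _ _).trans ?_
      have h2 := Nm_linX (T := 2 * h) (ρ := 1) zero_le_one (-(k : ℚ))
      have h3 : Nm (2 * h) 1 (PowerSeries.C (2 : ℚ) * (PowerSeries.X + PowerSeries.C (-(k : ℚ)))) ≤
          2 * (|-(k : ℚ)| + 1) := by
        refine Nm_mul_le zero_le_one ?_ h2
        rw [Nm_C]
        norm_num
      rw [abs_neg, abs_of_nonneg hk0] at h3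
      rw [Nm_C, abs_of_nonneg (by linarith)]
      linarith
  unfold pa
  rw [if_pos hi]
  unfold pfc
  have h2 := coeff_le_Nm (T := 2 * h) (ρ := 1 / 2) (by norm_num)
    (TS (-(k : ℚ)) (KP n h Q) * VV ((sP n).erase k) (mP h) (-(k : ℚ))) (j := 2 * h - i) (by omega)
  have h3 : (1 / 4 : ℚ) ^ h ≤ (1 / 2) ^ (2 * h - i) := by
    have : (1 / 4 : ℚ) ^ h = (1 / 2) ^ (2 * h) := by
      rw [pow_mul]; norm_num
    rw [this]
    exact pow_le_pow_of_le_one (by norm_num) (by norm_num) (by omega)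
  have h4 : |PowerSeries.coeff (2 * h - i) (TS (-(k : ℚ)) (KP n h Q) *
      VV ((sP n).erase k) (mP h) (-(k : ℚ)))| * (1 / 4) ^ h ≤ _ :=
    (mul_le_mul_of_nonneg_left h3 (abs_nonneg _)).trans (h2.trans h1)
  have h5 : (4 : ℚ) ^ h * (1 / 4) ^ h = 1 := by rw [← mul_pow]; norm_num
  calc |PowerSeries.coeff (2 * h - i) (TS (-(k : ℚ)) (KP n h Q) *
      VV ((sP n).erase k) (mP h) (-(k : ℚ)))|
      = 4 ^ h * (|PowerSeries.coeff (2 * h - i) (TS (-(k : ℚ)) (KP n h Q) *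
      VV ((sP n).erase k) (mP h) (-(k : ℚ)))| * (1 / 4) ^ h) := by
        rw [mul_comm |_| _, ← mul_assoc, h5, one_mul]
    _ ≤ _ := mul_le_mul_of_nonneg_left h4 (by positivity)

end

end Pool.Agent.Y926.LZ
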