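import Pool.Agent.Y926.LZ.NonX
import Pool.Agent.W165.OZ.WE
import Pool.Agent.W165.OZ.DL

/-!
# The final argument
-/

open Polynomial Pool.Agent.H337R2 Pool.Agent.W165.OZ Pool.Agent.W165.OZ.PAx Filter Topology

namespace Pool.Agent.Y926.LZ

noncomputable section

lemma pow_split {r : ℚ} (hr : 1 ≤ r) {n h E : ℕ} (hh : 2 * (n * E) + 3 ≤ 2 * h * n) :
    1 / r ^ (2 * h * n - (2 * (n * E) + 1) - 2) = r ^ 3 * (r ^ (2 * E) / r ^ (2 * h)) ^ n := by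
  have hr0 : r ≠ 0 := by linarith
  obtain ⟨e, he⟩ : ∃ e, 2 * h * n = 2 * (n * E) + 3 + e := ⟨2 * h * n - (2 * (n * E) + 3), by omega⟩
  have h1 : 2 * h * n - (2 * (n * E) + 1) - 2 = e := by omega
  rw [h1, div_pow, ← pow_mul, ← pow_mul, he]
  have h2 : 2 * E * n = 2 * (n * E) := by ring
  rw [h2, pow_add, pow_add]
  field_simp

lemma M6_eq {n h B r E : ℕ} (hr : 1 ≤ r) (hh : 2 * (n * E) + 3 ≤ 2 * h * n) :
    M6 n h B r E = (4 ^ (h + 1) * (r : ℚ) ^ 3 * (B : ℚ) ^ 2) * ((n : ℚ) ^ 3 *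
      ((54 * (B : ℚ) ^ 4) ^ E * (r : ℚ) ^ (2 * E) / (r : ℚ) ^ (2 * h)) ^ n) := by
  have hr' : (1 : ℚ) ≤ r := by exact_mod_cast hr
  have h1 := pow_split hr' hh
  unfold M6
  rw [div_eq_mul_one_div _ ((r : ℚ) ^ (2 * h * n - (2 * (n * E) + 1) - 2)), h1,
    mul_comm n E, pow_mul _ E n, mul_div_assoc, mul_pow ((54 * (B : ℚ) ^ 4) ^ E)]
  ring

lemma M7_eq {n h b B r r1 : ℕ} (hr : 1 ≤ r)
    (hh : 2 * (n * ((b + 1) * (B ^ 2 * (r + 1 + r1)))) + 3 ≤ 2 * h * n) :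
    M7 n h b B r r1 = (4 ^ (h + 1) * (r1 : ℚ) ^ (b + 1) * ((r : ℚ) + r1) ^ 3 * (B : ℚ) ^ 2) *
      ((n : ℚ) ^ (2 * (b + 1) + 3) * ((54 * (B : ℚ) ^ 4) ^ ((b + 1) * (B ^ 2 * (r + 1 + r1))) *
        ((r : ℚ) + 1) ^ (2 * h) * (((r : ℚ) + r1) ^ (2 * ((b + 1) * (B ^ 2 * (r + 1 + r1)))) /
        ((r : ℚ) + r1) ^ (2 * h))) ^ n) := by
  have hr' : (1 : ℚ) ≤ (r : ℚ) + r1 := by
    have h1 : (1 : ℚ) ≤ r := by exact_mod_cast hr
    have h2 : (0 : ℚ) ≤ r1 := by positivity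
    linarith
  have h1 := pow_split hr' hh
  unfold M7
  obtain ⟨E, hE⟩ : ∃ E, E = (b + 1) * (B ^ 2 * (r + 1 + r1)) := ⟨_, rfl⟩
  rw [← hE] at h1 ⊢
  rw [div_eq_mul_one_div _ (((r : ℚ) + r1) ^ (2 * h * n - (2 * (n * E) + 1) - 2)), h1,
    mul_comm n E, pow_mul _ E n, pow_mul _ (2 * h) n,
    mul_pow ((54 * (B : ℚ) ^ 4) ^ E * ((r : ℚ) + 1) ^ (2 * h)), mul_pow ((54 * (B : ℚ) ^ 4) ^ E)]
  push_cast
  ring

lemma base_le {B L : ℕ} (hL : B ≤ 2 ^ L) : (54 : ℝ) * (B : ℝ) ^ 4 ≤ 2 ^ (6 + 4 * L) := by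
  have h1 : (B : ℝ) ≤ 2 ^ L := by exact_mod_cast hL
  have h2 : (B : ℝ) ^ 4 ≤ (2 ^ L) ^ 4 := pow_le_pow_left₀ (by positivity) h1 4
  rw [← pow_mul, mul_comm L 4] at h2
  rw [pow_add]
  have h3 : (0 : ℝ) < 2 ^ (4 * L) := by positivity
  have h4 : (0 : ℝ) ≤ (B : ℝ) ^ 4 := by positivity
  norm_num
  nlinarith

lemma qA_lt {B L h b E : ℕ} (hL : B ≤ 2 ^ L) (hh : 8 * h + 4 * b + (22 + 4 * L) * E < 16 * h) :
    (16 : ℝ) ^ (2 * h + b) * ((54 * (B : ℝ) ^ 4) ^ E * (256 : ℝ) ^ (2 * E) / (256 : ℝ) ^ (2 * h)) < 1 := by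
  have h1 := base_le hL
  have h2 : (54 * (B : ℝ) ^ 4) ^ E ≤ (2 : ℝ) ^ ((6 + 4 * L) * E) := by
    rw [pow_mul]
    exact pow_le_pow_left₀ (by positivity) h1 E
  have h3 : (16 : ℝ) ^ (2 * h + b) = 2 ^ (8 * h + 4 * b) := by
    rw [show (16 : ℝ) = 2 ^ 4 by norm_num, ← pow_mul]
    congr 1
    ring
  have h4 : (256 : ℝ) ^ (2 * E) = 2 ^ (16 * E) := by
    rw [show (256 : ℝ) = 2 ^ 8 by norm_num, ← pow_mul]
    congr 1
    ring
  have h5 : (256 : ℝ) ^ (2 * h) = 2 ^ (16 * h) := by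
    rw [show (256 : ℝ) = 2 ^ 8 by norm_num, ← pow_mul]
    congr 1
    ring
  rw [h3, h4, h5, mul_div_assoc', div_lt_one (by positivity)]
  calc (2 : ℝ) ^ (8 * h + 4 * b) * ((54 * (B : ℝ) ^ 4) ^ E * 2 ^ (16 * E))
      ≤ (2 : ℝ) ^ (8 * h + 4 * b) * (2 ^ ((6 + 4 * L) * E) * 2 ^ (16 * E)) := by gcongr
    _ = 2 ^ (8 * h + 4 * b + (22 + 4 * L) * E) := by
        rw [← pow_add, ← pow_add]
        congr 1
        ring
    _ < 2 ^ (16 * h) := pow_lt_pow_right₀ (by norm_num) hh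

lemma qB_lt {B L h E : ℕ} (hL : B ≤ 2 ^ L) (hh : (28 + 4 * L) * E < 4 * h) :
    (54 * (B : ℝ) ^ 4) ^ E * ((256 : ℝ) + 1) ^ (2 * h) *
      (((256 : ℝ) + 776) ^ (2 * E) / ((256 : ℝ) + 776) ^ (2 * h)) < 1 := by
  have h1 := base_le hL
  have h2 : (54 * (B : ℝ) ^ 4) ^ E ≤ (2 : ℝ) ^ ((6 + 4 * L) * E) := by
    rw [pow_mul]
    exact pow_le_pow_left₀ (by positivity) h1 E
  have h3 : ((256 : ℝ) + 776) ^ (2 * E) ≤ 2 ^ (22 * E) := by
    rw [pow_mul, pow_mul 2 22 E]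
    apply pow_le_pow_left₀ (by norm_num)
    norm_num
  have h4 : ((256 : ℝ) + 1) ^ (2 * h) * 2 ^ (4 * h) ≤ ((256 : ℝ) + 776) ^ (2 * h) := by
    have : (2 : ℝ) ^ (4 * h) = 4 ^ (2 * h) := by
      rw [show (4 : ℝ) = 2 ^ 2 by norm_num, ← pow_mul]
      congr 1
      ring
    rw [this, ← mul_pow]
    apply pow_le_pow_left₀ (by norm_num)
    norm_num
  rw [mul_div_assoc', div_lt_one (by positivity)]
  calc (54 * (B : ℝ) ^ 4) ^ E * ((256 : ℝ) + 1) ^ (2 * h) * ((256 : ℝ) + 776) ^ (2 * E)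
      ≤ (2 : ℝ) ^ ((6 + 4 * L) * E) * ((256 : ℝ) + 1) ^ (2 * h) * 2 ^ (22 * E) := by gcongr
    _ = ((256 : ℝ) + 1) ^ (2 * h) * 2 ^ ((28 + 4 * L) * E) := by
        rw [mul_right_comm, ← pow_add, mul_comm]
        congr 2
        ring
    _ < ((256 : ℝ) + 1) ^ (2 * h) * 2 ^ (4 * h) := by
        apply mul_lt_mul_of_pos_left _ (by positivity)
        exact pow_lt_pow_right₀ (by norm_num) hh
    _ ≤ _ := h4

/-- the size of the common denominator -/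
lemma Dl_le : ∀ᶠ n : ℕ in atTop, (Dl n 1 : ℝ) ≤ 16 ^ n := by
  have h1 : (fun x : ℝ => Real.log x) =o[atTop] fun x : ℝ => x ^ ((1 : ℝ) / 2) :=
    isLittleO_log_rpow_atTop (by norm_num)
  have h2 := (h1.def (c := Real.log 4) (Real.log_pos (by norm_num))).natCast_atTop
  filter_upwards [h2, eventually_ge_atTop 1] with n hn hn1
  have hn' : (1 : ℝ) ≤ n := by exact_mod_cast hn1
  have h3 := t_dl n 1 hn1 le_rfl
  rw [Nat.cast_one, one_mul] at h3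
  have h4 : (0 : ℝ) < (Dl n 1 : ℝ) := by exact_mod_cast PRaux.Dl_pos n 1
  rw [← Real.log_le_log_iff h4 (by positivity), Real.log_pow]
  have h5 : Real.log (16 : ℝ) = 2 * Real.log 4 := by
    rw [show (16 : ℝ) = 4 ^ 2 by norm_num, Real.log_pow]
    norm_num
  rw [h5]
  have h6 : Real.sqrt n * Real.log n ≤ n * Real.log 4 := by
    rw [Real.norm_of_nonneg (Real.log_nonneg hn'), Real.norm_of_nonneg (by positivity),
      ← Real.sqrt_eq_rpow] at hn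
    calc Real.sqrt n * Real.log n ≤ Real.sqrt n * (Real.log 4 * Real.sqrt n) := by gcongr
      _ = (Real.sqrt n * Real.sqrt n) * Real.log 4 := by ring
      _ = _ := by rw [Real.mul_self_sqrt (by positivity)]
  linarith

lemma eventually_small {q : ℝ} (hq0 : 0 ≤ q) (hq : q < 1) (c : ℝ) (k : ℕ) :
    ∀ᶠ n : ℕ in atTop, c * ((n : ℝ) ^ k * q ^ n) < 1 := by
  have h1 := tendsto_pow_const_mul_const_pow_of_abs_lt_one k (r := q) (by rwa [abs_of_nonneg hq0])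
  have h2 := h1.const_mul c
  rw [mul_zero] at h2
  exact h2.eventually (gt_mem_nhds one_pos)

/-- the parameter `h` -/
def hh0 (b B L : ℕ) : ℕ := 1250 * ((b + 1) * B ^ 2 * (6 + L))

/-- **The main theorem**, for even `b`. -/
theorem core {b B L : ℕ} (hb : Even b) (hb2 : 1 ≤ b) (hL : B ≤ 2 ^ L) (I : Finset ℕ)
    (hI : ∀ j, Odd j → b < j → j ≤ 2 * hh0 b B L + b → j ∉ I → ∃ q : ℚ, zr j = q) :
    B ≤ I.card := by
  by_contra hlt
  rw [not_le] at hlt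
  have hB : 1 ≤ B := by omega
  obtain ⟨w, ⟨d1, hd1, hwd1⟩, hw⟩ := t_we B I hlt
  -- the largest line
  obtain ⟨d0, hd0, hmax⟩ : ∃ d0 ∈ (Finset.Icc 1 B).filter (fun d => w d ≠ 0),
      ∀ d ∈ (Finset.Icc 1 B).filter (fun d => w d ≠ 0), d ≤ d0 := by
    have hne : ((Finset.Icc 1 B).filter (fun d => w d ≠ 0)).Nonempty :=
      ⟨d1, Finset.mem_filter.2 ⟨hd1, hwd1⟩⟩
    exact ⟨_, Finset.max'_mem _ hne, fun d hd => Finset.le_max' _ d hd⟩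
  rw [Finset.mem_filter, Finset.mem_Icc] at hd0
  have hw' : ∀ d, d0 < d → d ≤ B → w d = 0 := by
    intro d hd hdB
    by_contra h0
    have := hmax d (Finset.mem_filter.2 ⟨Finset.mem_Icc.2 ⟨by omega, hdB⟩, h0⟩)
    omega
  obtain ⟨h, hh⟩ : ∃ h, h = hh0 b B L := ⟨_, rfl⟩
  rw [← hh] at hI
  obtain ⟨A, hA⟩ : ∃ A, A = (b + 1) * B ^ 2 := ⟨_, rfl⟩
  have hA1 : b + 1 ≤ A := by
    rw [hA]
    exact Nat.le_mul_of_pos_right _ (by positivity)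
  have hhA : h = 1250 * (A * (6 + L)) := by rw [hh, hA]; rfl
  -- the rational values
  have hz : ∃ (E0 : ℕ) (z : ℕ → ℤ), 0 < E0 ∧ ∀ j, Odd j → b < j → j ≤ 2 * h + b → j ∉ I →
      (E0 : ℝ) * zr j = z j := by
    have h1 : ∀ j, ∃ q : ℚ, (Odd j → b < j → j ≤ 2 * h + b → j ∉ I → zr j = q) := by
      intro j
      by_cases hc : Odd j ∧ b < j ∧ j ≤ 2 * h + b ∧ j ∉ I
      · obtain ⟨q, hq⟩ := hI j hc.1 hc.2.1 hc.2.2.1 hc.2.2.2
        exact ⟨q, fun _ _ _ _ => hq⟩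
      · exact ⟨0, fun h1 h2 h3 h4 => absurd ⟨h1, h2, h3, h4⟩ hc⟩
    choose q hq using h1
    refine ⟨∏ j ∈ Finset.range (2 * h + b + 1), (q j).den,
      fun j => ((∏ j ∈ Finset.range (2 * h + b + 1), (q j).den : ℕ) * q j).num, ?_, ?_⟩
    · exact Finset.prod_pos fun j _ => (q j).den_pos
    · intro j hj1 hj2 hj3 hj4
      rw [hq j hj1 hj2 hj3 hj4]
      have h2 : (q j).den ∣ ∏ j ∈ Finset.range (2 * h + b + 1), (q j).den :=
        Finset.dvd_prod_of_mem _ (Finset.mem_range.2 (by omega))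
      obtain ⟨c, hc⟩ := h2
      have h3 : ((∏ j ∈ Finset.range (2 * h + b + 1), (q j).den : ℕ) : ℚ) * q j =
          ((c * (q j).num : ℤ) : ℚ) := by
        rw [hc]
        push_cast
        have := Rat.mul_den_eq_num (q j)
        linear_combination (c : ℚ) * this
      have h4 : ((((∏ j ∈ Finset.range (2 * h + b + 1), (q j).den : ℕ) * q j).num : ℤ) : ℚ) =
          ((∏ j ∈ Finset.range (2 * h + b + 1), (q j).den : ℕ) : ℚ) * q j := by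
        rw [h3, Rat.num_intCast]
      have h5 := congrArg (fun x : ℚ => (x : ℝ)) h4
      simp only [Rat.cast_intCast, Rat.cast_mul, Rat.cast_natCast] at h5
      exact h5.symm
  obtain ⟨E0, z, hE0, hz⟩ := hz
  obtain ⟨W, hW⟩ : ∃ W : ℝ, W = ∑ d ∈ Finset.Icc 1 B, |(w d : ℝ)| := ⟨_, rfl⟩
  have hW0 : 0 ≤ W := by rw [hW]; exact Finset.sum_nonneg fun _ _ => abs_nonneg _
  -- the exponents
  obtain ⟨E, hE⟩ : ∃ E, E = 1033 * A + 1 := ⟨_, rfl⟩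
  have hLA : A * (6 + L) = 6 * A + L * A := by ring
  have hEh : E + 2 ≤ h := by
    rw [hhA, hLA, hE]
    omega
  have hcA : 8 * h + 4 * b + (22 + 4 * L) * E < 16 * h := by
    have h1 : (22 + 4 * L) * E = 22 + 22 * 1033 * A + 4 * 1033 * (L * A) + 4 * L := by
      rw [hE]; ring
    have h2 : L ≤ L * A := Nat.le_mul_of_pos_right _ (by omega)
    rw [h1, hhA, hLA]
    omega
  have hcB : (28 + 4 * L) * ((b + 1) * (B ^ 2 * (256 + 1 + 776))) < 4 * h := by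
    have h1 : (28 + 4 * L) * ((b + 1) * (B ^ 2 * (256 + 1 + 776))) =
        28 * 1033 * A + 4 * 1033 * (L * A) := by
      rw [hA]; ring
    rw [h1, hhA, hLA]
    omega
  have hqA := qA_lt (B := B) (L := L) (h := h) (b := b) (E := E) hL hcA
  have hqB := qB_lt (B := B) (L := L) (h := h) (E := (b + 1) * (B ^ 2 * (256 + 1 + 776))) hL hcB
  -- the choice of `n`
  obtain ⟨n, hn1, hnD, hnA, hnB⟩ := ((eventually_ge_atTop 1).and (Dl_le.and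
    ((eventually_small (q := (16 : ℝ) ^ (2 * h + b) *
      ((54 * (B : ℝ) ^ 4) ^ E * (256 : ℝ) ^ (2 * E) / (256 : ℝ) ^ (2 * h))) (by positivity) hqA
      ((E0 : ℝ) * W * 2 * (4 ^ (h + 1) * (256 : ℝ) ^ 3 * (B : ℝ) ^ 2)) 3).and
    (eventually_small (q := (54 * (B : ℝ) ^ 4) ^ ((b + 1) * (B ^ 2 * (256 + 1 + 776))) *
      ((256 : ℝ) + 1) ^ (2 * h) *
      (((256 : ℝ) + 776) ^ (2 * ((b + 1) * (B ^ 2 * (256 + 1 + 776)))) /
        ((256 : ℝ) + 776) ^ (2 * h))) (by positivity) hqB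
      (W * 2 * (4 ^ (h + 1) * (776 : ℝ) ^ (b + 1) * ((256 : ℝ) + 776) ^ 3 * (B : ℝ) ^ 2))
      (2 * (b + 1) + 3))))).exists
  have hhE : 2 * (n * E) + 3 ≤ 2 * h * n := by
    calc 2 * (n * E) + 3 ≤ 2 * (n * E) + 4 * n := by omega
      _ = 2 * (E + 2) * n := by ring
      _ ≤ 2 * h * n := Nat.mul_le_mul_right _ (Nat.mul_le_mul_left _ hEh)
  have hE7 : (b + 1) * (B ^ 2 * (256 + 1 + 776)) + 1 = E := by rw [hE, hA]; ring
  have hh7 : 2 * (n * ((b + 1) * (B ^ 2 * (256 + 1 + 776)))) + 3 ≤ 2 * h * n := by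
    refine le_trans ?_ hhE
    have : n * ((b + 1) * (B ^ 2 * (256 + 1 + 776))) ≤ n * E :=
      Nat.mul_le_mul_left _ (by omega)
    omega
  have hsmall : (∑ d ∈ Finset.Icc 1 B, |(w d : ℝ)|) * (2 * (M7 n h b B 256 776 : ℝ)) < 1 := by
    rw [M7_eq (by norm_num) hh7, ← hW]
    push_cast
    push_cast at hnB
    refine lt_of_eq_of_lt ?_ hnB
    ring
  obtain ⟨m, hm, hne⟩ := exists_ne (n := n) (h := h) (b := b) (B := B) (r := 256) (r1 := 776)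
    (d0 := d0) hn1 (by norm_num) (by norm_num) hd0.1.1 hd0.1.2 hb hb2 w hd0.2 hw' hh7 hsmall
  have hmn : m / n ≤ (b + 1) * (B ^ 2 * 776) := by
    rw [Nat.div_le_iff_le_mul_add_pred hn1]
    omega
  have hle := Lam_le (n := n) (b := b) (h := h) (B := B) (r := 256) (m := m) (E := E) hn1
    (by norm_num) w (by
      rw [← hE7]
      have : (b + 1) * (B ^ 2 * (256 + 1 + 776)) =
        (b + 1) * (B ^ 2 * (256 + 1)) + (b + 1) * (B ^ 2 * 776) := by ring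
      omega) hhE
  have hdegm : 2 * (Phi n b B (256 + 1) * Gb n m).natDegree + 3 ≤ n * (2 * h) := by
    have h1 := Polynomial.natDegree_mul_le (p := Phi n b B (256 + 1)) (q := Gb n m)
    have h2 := Phi_natDegree n b B (256 + 1)
    rw [(Gb_spec n m).2] at h1
    have h3 : n * ((b + 1) * (B ^ 2 * (256 + 1))) + n * ((b + 1) * (B ^ 2 * 776)) =
        n * ((b + 1) * (B ^ 2 * (256 + 1 + 776))) := by ring
    have h4 : n * (2 * h) = 2 * h * n := by ring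
    omega
  obtain ⟨Mz, hMz⟩ := Lam_int (n := n) (h := h) (b := b) (B := B) (R := 256 + 1) hn1 (by norm_num)
    hb hb2 w m hdegm E0 z (by
      intro j hj1 hj2 hj3
      by_cases hjI : j ∈ I
      · exact Or.inl (hw j hjI)
      · exact Or.inr (hz j hj1 hj2 hj3 hjI))
  have hD0 : (0 : ℝ) < (Dl n 1 : ℝ) := by exact_mod_cast PRaux.Dl_pos n 1
  have hE0' : (0 : ℝ) < (E0 : ℝ) := by exact_mod_cast hE0
  have hMne : Mz ≠ 0 := by
    rintro rfl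
    rw [Int.cast_zero] at hMz
    exact mul_ne_zero (by positivity) hne hMz
  have h1 : (1 : ℝ) ≤ |(Mz : ℝ)| := by
    have : 1 ≤ |Mz| := Int.one_le_abs hMne
    exact_mod_cast this
  rw [← hMz, abs_mul, abs_of_pos (by positivity : (0 : ℝ) < (E0 : ℝ) * (Dl n 1 : ℝ) ^ (2 * h + b))]
    at h1
  have h2 : (Dl n 1 : ℝ) ^ (2 * h + b) ≤ ((16 : ℝ) ^ (2 * h + b)) ^ n := by
    rw [← pow_mul, mul_comm (2 * h + b) n, pow_mul]
    exact pow_le_pow_left₀ hD0.le hnD _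
  have hM6 : (0 : ℝ) ≤ (M6 n h B 256 E : ℝ) := by
    have : 0 ≤ M6 n h B 256 E := by unfold M6; positivity
    exact_mod_cast this
  have h3 : (E0 : ℝ) * (Dl n 1 : ℝ) ^ (2 * h + b) *
      |Lam n h b B w (KP n h (Phi n b B (256 + 1) * Gb n m))| ≤
      (E0 : ℝ) * ((16 : ℝ) ^ (2 * h + b)) ^ n * (W * (2 * (M6 n h B 256 E : ℝ))) := by
    rw [hW]
    have h4 := hle
    have hW0' : (0 : ℝ) ≤ ∑ d ∈ Finset.Icc 1 B, |(w d : ℝ)| := by rw [← hW]; exact hW0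
    gcongr
  rw [M6_eq (by norm_num) hhE] at h3
  have h5 : (E0 : ℝ) * ((16 : ℝ) ^ (2 * h + b)) ^ n * (W * (2 *
      (((4 ^ (h + 1) * ((256 : ℕ) : ℚ) ^ 3 * (B : ℚ) ^ 2) * ((n : ℚ) ^ 3 *
      ((54 * (B : ℚ) ^ 4) ^ E * ((256 : ℕ) : ℚ) ^ (2 * E) / ((256 : ℕ) : ℚ) ^ (2 * h)) ^ n) : ℚ) : ℝ))) =
      ((E0 : ℝ) * W * 2 * (4 ^ (h + 1) * (256 : ℝ) ^ 3 * (B : ℝ) ^ 2)) * ((n : ℝ) ^ 3 *
      ((16 : ℝ) ^ (2 * h + b) *
      ((54 * (B : ℝ) ^ 4) ^ E * (256 : ℝ) ^ (2 * E) / (256 : ℝ) ^ (2 * h))) ^ n) := by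
    push_cast
    rw [mul_pow ((16 : ℝ) ^ (2 * h + b))]
    ring
  rw [h5] at h3
  linarith

end

end Pool.Agent.Y926.LZ
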