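import Pool.Agent.Y926.LZ.Fin

/-!
# Many irrational odd zeta values in every window `(b, s]`
-/

open Pool.Agent.H337R2 Pool.Agent.W165.OZ

namespace Pool.Agent.Y926.LZ

/-- the even number above `b` -/
lemma exists_even (b : ℕ) : ∃ b', Even b' ∧ b < b' ∧ b' ≤ b + 2 := by
  rcases Nat.even_or_odd b with h | h
  · exact ⟨b + 2, h.add (by decide), by omega, by omega⟩
  · exact ⟨b + 1, h.add_one, by omega, by omega⟩

/-- the parameters fit -/
lemma clog_le {B : ℕ} (hB : 1 ≤ B) : (Nat.clog 2 B : ℝ) ≤ 1 + 3 / 2 * Real.log (B + 1) := by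
  have h2 : (0.6931471803 : ℝ) < Real.log 2 := Real.log_two_gt_d9
  have hB' : (1 : ℝ) ≤ B := by exact_mod_cast hB
  rcases Nat.lt_or_ge 1 B with h | h
  · have h1 : 2 ^ (Nat.clog 2 B - 1) < B := Nat.pow_pred_clog_lt_self (by norm_num) h
    have h3 : 1 ≤ Nat.clog 2 B := Nat.clog_pos (by norm_num) h
    have h4 : ((Nat.clog 2 B - 1 : ℕ) : ℝ) * Real.log 2 ≤ Real.log (B + 1) := by
      rw [← Real.log_pow]
      apply Real.log_le_log (by positivity)
      have : ((2 ^ (Nat.clog 2 B - 1) : ℕ) : ℝ) ≤ (B : ℝ) := by exact_mod_cast h1.le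
      push_cast at this
      linarith
    rw [Nat.cast_sub h3] at h4
    push_cast at h4
    have h5 : 0 ≤ (Nat.clog 2 B : ℝ) - 1 := by
      have : (1 : ℝ) ≤ (Nat.clog 2 B : ℝ) := by exact_mod_cast h3
      linarith
    nlinarith
  · have h1 : B = 1 := by omega
    subst h1
    simp
    positivity

lemma log_lb {B : ℕ} (hB : 1 ≤ B) : (69 / 100 : ℝ) ≤ Real.log (B + 1) := by
  have h2 : (0.6931471803 : ℝ) < Real.log 2 := Real.log_two_gt_d9
  have hB' : (1 : ℝ) ≤ B := by exact_mod_cast hB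
  have h3 : Real.log 2 ≤ Real.log (B + 1) := Real.log_le_log (by norm_num) (by linarith)
  linarith

/-- **Many irrational odd zeta values in windows.** -/
theorem window_many : ∀ b B s : ℕ, 1 ≤ B →
    (100000 : ℝ) * (b + 1) * B ^ 2 * Real.log (B + 1) ≤ s →
    B ≤ Set.ncard {j : ℕ | b < j ∧ j ≤ s ∧ Odd j ∧ Irrational (∑' n : ℕ, 1 / ((n : ℝ) + 1) ^ j)} := by
  classical
  intro b B s hB hs
  obtain ⟨b', hb', hb1, hb2⟩ := exists_even b
  have hL : B ≤ 2 ^ Nat.clog 2 B := Nat.le_pow_clog (by norm_num) B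
  -- the parameters
  have hB' : (1 : ℝ) ≤ B := by exact_mod_cast hB
  have hcl := clog_le hB
  have hlb := log_lb hB
  have hb2' : (b' : ℝ) ≤ b + 2 := by exact_mod_cast hb2
  have hb0 : (0 : ℝ) ≤ b := by positivity
  have hpar : 2 * hh0 b' B (Nat.clog 2 B) + b' ≤ s := by
    have h1 : ((2 * hh0 b' B (Nat.clog 2 B) + b' : ℕ) : ℝ) ≤ s := by
      refine le_trans ?_ hs
      unfold hh0
      push_cast
      have h3 : (6 + (Nat.clog 2 B : ℝ)) ≤ 12 * Real.log (B + 1) := by linarith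
      have h4 : (b' : ℝ) + 1 ≤ 3 * (b + 1) := by linarith
      have h5 : ((b' : ℝ) + 1) * (B : ℝ) ^ 2 * (6 + (Nat.clog 2 B : ℝ)) ≤
          (3 * (b + 1)) * (B : ℝ) ^ 2 * (12 * Real.log (B + 1)) := by gcongr
      have h6 : (b' : ℝ) ≤ 4 * ((b + 1) * (B : ℝ) ^ 2 * Real.log (B + 1)) := by
        have h7 : (1 : ℝ) ≤ (B : ℝ) ^ 2 := one_le_pow₀ hB'
        have h8 : ((b : ℝ) + 1) * 1 ≤ (b + 1) * (B : ℝ) ^ 2 := by gcongr
        have h9 : ((b : ℝ) + 1) * 1 * (69 / 100) ≤ (b + 1) * (B : ℝ) ^ 2 * Real.log (B + 1) := by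
          gcongr
        linarith
      linarith
    exact_mod_cast h1
  -- the irrational values
  obtain ⟨I, hI⟩ : ∃ I : Finset ℕ, ∀ j, j ∈ I ↔ (b < j ∧ j ≤ s ∧ Odd j ∧
      Irrational (∑' n : ℕ, 1 / ((n : ℝ) + 1) ^ j)) := by
    refine ⟨(Finset.range (s + 1)).filter (fun j => b < j ∧ j ≤ s ∧ Odd j ∧
      Irrational (∑' n : ℕ, 1 / ((n : ℝ) + 1) ^ j)), fun j => ?_⟩
    rw [Finset.mem_filter, Finset.mem_range]
    constructor
    · exact fun h => h.2
    · exact fun h => ⟨by omega, h⟩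
  have hset : {j : ℕ | b < j ∧ j ≤ s ∧ Odd j ∧ Irrational (∑' n : ℕ, 1 / ((n : ℝ) + 1) ^ j)} =
      (I : Set ℕ) := by
    ext j
    rw [Finset.mem_coe, hI]
    rfl
  rw [hset, Set.ncard_coe_finset]
  refine core hb' (by omega) hL I ?_
  intro j hj1 hj2 hj3 hj4
  have h1 : ¬ Irrational (∑' n : ℕ, 1 / ((n : ℝ) + 1) ^ j) := by
    intro h
    exact hj4 ((hI j).2 ⟨by omega, by omega, hj1, h⟩)
  unfold Irrational at h1
  rw [not_not] at h1
  obtain ⟨q, hq⟩ := h1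
  exact ⟨q, hq.symm⟩

end Pool.Agent.Y926.LZ
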