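import Pool.Agent.Y926.LZ.Fsz

/-!
# Archimedean bounds
-/

open Polynomial Pool.Agent.H337R2 Pool.Agent.W165.OZ Pool.Agent.W165.OZ.PAx

namespace Pool.Agent.Y926.LZ

noncomputable section

lemma fact_lb (n : ℕ) : ((n : ℚ)) ^ n ≤ 3 ^ n * (n.factorial : ℚ) := by
  have h1 : ((n : ℝ)) ^ n / (n.factorial : ℝ) ≤ Real.exp n :=
    Real.pow_div_factorial_le_exp (x := (n : ℝ)) (by positivity) n
  have h2 : Real.exp n ≤ 3 ^ n := by
    have h3 : Real.exp n = Real.exp 1 ^ n := by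
      rw [← Real.exp_nat_mul, mul_one]
    rw [h3]
    apply pow_le_pow_left₀ (Real.exp_pos 1).le
    have := Real.exp_one_lt_d9
    linarith
  have hf : (0 : ℝ) < (n.factorial : ℝ) := by exact_mod_cast n.factorial_pos
  have h4 : ((n : ℝ)) ^ n ≤ 3 ^ n * (n.factorial : ℝ) := by
    rw [div_le_iff₀ hf] at h1
    exact h1.trans (mul_le_mul_of_nonneg_right h2 hf.le)
  exact_mod_cast h4

variable {n b h : ℕ} {c : ℚ}

lemma Nm_fac (hn : 1 ≤ n) (hc : 2 * (n : ℚ) ≤ c) {x : ℚ} (hx1 : -(n : ℚ) ≤ x) (hx2 : x ≤ c) :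
    Nm b 1 (TS c ((X - C (yq n x)).comp (yp n))) ≤ 6 * c ^ 2 := by
  have hn' : (1 : ℚ) ≤ n := by exact_mod_cast hn
  rw [lin_comp, map_mul, TS_lin, TS_lin]
  have h1 := Nm_linX (T := b) (ρ := 1) zero_le_one (c + -x)
  have h2 := Nm_linX (T := b) (ρ := 1) zero_le_one (c + (x + ((n : ℚ) - 1)))
  refine (Nm_mul_le zero_le_one h1 h2).trans ?_
  rw [abs_of_nonneg (by linarith), abs_of_nonneg (by linarith)]
  calc (c + -x + 1) * (c + (x + ((n : ℚ) - 1)) + 1) ≤ (2 * c) * (3 * c) := by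
        apply mul_le_mul (by linarith) (by linarith) (by linarith) (by linarith)
    _ = _ := by ring

lemma Nm_YB (hn : 1 ≤ n) (hc : 2 * (n : ℚ) ≤ c) {x : ℚ} {m : ℕ} (hx1 : -(n : ℚ) ≤ x)
    (hx2 : x + m ≤ c + 1) :
    Nm b 1 (TS c ((YB n x m).comp (yp n))) ≤ (6 * c ^ 2) ^ m := by
  unfold YB
  rw [Polynomial.prod_comp, map_prod]
  have h1 := Nm_prod (T := b) (ρ := 1) zero_le_one (Finset.range m) (fun _ => 6 * c ^ 2)
    (fun j => TS c ((X - C (yq n (x + j))).comp (yp n))) fun j hj => by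
      rw [Finset.mem_range] at hj
      have h2 : (j : ℚ) + 1 ≤ m := by exact_mod_cast hj
      have h3 : (0 : ℚ) ≤ j := by positivity
      exact Nm_fac hn hc (by linarith) (by linarith)
  rwa [Finset.prod_const, Finset.card_range] at h1

lemma Nm_NB (hn : 1 ≤ n) (hc : 2 * (n : ℚ) ≤ c) {x : ℚ} {m d : ℕ} (hx1 : -(n : ℚ) ≤ x)
    (hx2 : x + m ≤ c + 1) :
    Nm b 1 (TS c ((NB n d x m).comp (yp n))) ≤
      (((d : ℚ) ^ (2 * m) / m.factorial) ^ 2) * (6 * c ^ 2) ^ m := by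
  unfold NB
  rw [Polynomial.mul_comp, Polynomial.C_comp, map_mul, TS_C]
  refine Nm_mul_le zero_le_one ?_ (Nm_YB hn hc hx1 hx2)
  rw [Nm_C, abs_of_nonneg (by positivity)]

lemma prod_inv_le (hc : 0 < c) (n : ℕ) :
    ∏ k ∈ Finset.range n, (if k = 0 then 2 / c else 1 / c) ≤ 2 / c ^ n := by
  rcases n with _ | n
  · simp
  · rw [Finset.prod_range_succ']
    simp only [if_true, Nat.succ_ne_zero, if_false, Finset.prod_const, Finset.card_range]
    rw [one_div, inv_pow, pow_succ]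
    have : c ≠ 0 := hc.ne'
    apply le_of_eq
    field_simp

lemma Nm_VV (hc : 2 ≤ c) :
    Nm b 1 (VV (sP n) (mP h) c) ≤ (2 / c ^ n) ^ (2 * h) := by
  have hc0 : 0 < c := by linarith
  unfold VV
  have h1 := Nm_prod (T := b) (ρ := 1) zero_le_one (sP n)
    (fun k => (if k = 0 then 2 / c else 1 / c) ^ (2 * h))
    (fun k => iv (c + k) ^ (mP h k)) fun k _ => by
      apply Nm_pow zero_le_one
      have hk0 : (0 : ℚ) ≤ k := by positivity
      refine (Nm_iv zero_le_one (a := c + k) (by rw [abs_of_nonneg (by linarith)]; linarith)).trans ?_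
      rw [abs_of_nonneg (by linarith)]
      split_ifs with h0
      · rw [h0, Nat.cast_zero, add_zero, div_le_div_iff₀ (by linarith) hc0]
        linarith
      · have hk1 : (1 : ℚ) ≤ k := by exact_mod_cast Nat.one_le_iff_ne_zero.2 h0
        apply one_div_le_one_div_of_le hc0
        linarith
  refine h1.trans ?_
  rw [Finset.prod_pow]
  apply pow_le_pow_left₀ _ (prod_inv_le hc0 n)
  apply Finset.prod_nonneg
  intro k _
  split_ifs <;> positivity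

/-- the archimedean bound of a term -/
lemma RS_le (hn : 1 ≤ n) (hc : 2 * (n : ℚ) ≤ c) {Q : ℚ[X]} {M : ℚ}
    (hQ : Nm b 1 (TS c (Q.comp (yp n))) ≤ M) :
    |PowerSeries.coeff b (RS (sP n) (mP h) (KP n h Q) c)| ≤
      (n.factorial : ℚ) ^ (2 * h) * (4 * c * M) * (2 / c ^ n) ^ (2 * h) := by
  have hn' : (1 : ℚ) ≤ n := by exact_mod_cast hn
  have h1 := coeff_le_Nm (T := b) (ρ := 1) zero_le_one (RS (sP n) (mP h) (KP n h Q) c) le_rfl
  rw [one_pow, mul_one] at h1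
  refine h1.trans ?_
  unfold RS KP num
  rw [map_mul, map_mul, TS_C]
  refine Nm_mul_le zero_le_one (Nm_mul_le zero_le_one ?_ (Nm_mul_le zero_le_one ?_ hQ))
    (Nm_VV (by linarith))
  · rw [Nm_C, abs_of_nonneg (by positivity)]
  · rw [map_add, map_mul, TS_C, TS_C, TS_X]
    refine (Nm_add zero_le_one _ _).trans ?_
    have h2 := Nm_linX (T := b) (ρ := 1) zero_le_one c
    have h3 : Nm b 1 (PowerSeries.C (2 : ℚ) * (PowerSeries.X + PowerSeries.C c)) ≤ 2 * (|c| + 1) := by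
      refine Nm_mul_le zero_le_one ?_ h2
      rw [Nm_C]
      norm_num
    rw [abs_of_nonneg (by linarith)] at h3
    rw [Nm_C, abs_of_nonneg (by linarith)]
    linarith

lemma Nm_Phi {B R : ℕ} (hn : 1 ≤ n) (hc : 2 * (n : ℚ) ≤ c) (hR : ((R : ℚ) - 1) * n ≤ c) :
    Nm b 1 (TS c ((Phi n b B R).comp (yp n))) ≤
      ∏ q ∈ Ix B R, ((((q.1 : ℚ) ^ (2 * n) / n.factorial) ^ 2) * (6 * c ^ 2) ^ n) ^ (b + 1) := by
  have hn' : (1 : ℚ) ≤ n := by exact_mod_cast hn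
  unfold Phi
  rw [Polynomial.prod_comp, map_prod]
  refine Nm_prod (T := b) (ρ := 1) zero_le_one _ _ _ fun q hq => ?_
  rw [Polynomial.pow_comp, map_pow]
  rw [mem_Ix] at hq
  apply Nm_pow zero_le_one
  have hd : (1 : ℚ) ≤ ((q.1 : ℕ) : ℚ) := by exact_mod_cast hq.1.1
  have hl : (((q.2.1 : ℕ) : ℚ)) / ((q.1 : ℕ) : ℚ) ≤ 1 := by
    rw [div_le_one (by linarith)]
    exact_mod_cast hq.2.1.le
  have hl0 : 0 ≤ (((q.2.1 : ℕ) : ℚ)) / ((q.1 : ℕ) : ℚ) := by positivity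
  have hc2 : (((q.2.2 : ℕ) : ℚ)) + 1 ≤ R := by exact_mod_cast hq.2.2
  have hc0 : (0 : ℚ) ≤ ((q.2.2 : ℕ) : ℚ) := by positivity
  apply Nm_NB hn hc
  · unfold stq
    nlinarith
  · unfold stq
    nlinarith

lemma pow_base {B d : ℕ} (hn : 1 ≤ n) (hd : d ≤ B) :
    (((d : ℚ) ^ (2 * n) / n.factorial) ^ 2) * (6 * c ^ 2) ^ n ≤
      (54 * (B : ℚ) ^ 4 * (c / n) ^ 2) ^ n := by
  have hn' : (1 : ℚ) ≤ n := by exact_mod_cast hn
  have hf : (0 : ℚ) < (n.factorial : ℚ) := by exact_mod_cast n.factorial_pos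
  have h1 := fact_lb n
  have h2 : (1 : ℚ) / n.factorial ≤ 3 ^ n / (n : ℚ) ^ n := by
    rw [div_le_div_iff₀ hf (by positivity)]
    linarith
  have h3 : ((d : ℚ) ^ (2 * n)) ≤ (B : ℚ) ^ (2 * n) :=
    pow_le_pow_left₀ (by positivity) (by exact_mod_cast hd) _
  calc (((d : ℚ) ^ (2 * n) / n.factorial) ^ 2) * (6 * c ^ 2) ^ n
      = (((d : ℚ) ^ (2 * n)) * (1 / n.factorial)) ^ 2 * (6 * c ^ 2) ^ n := by
        rw [mul_one_div]
    _ ≤ (((B : ℚ) ^ (2 * n)) * (3 ^ n / (n : ℚ) ^ n)) ^ 2 * (6 * c ^ 2) ^ n := by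
        have : (0 : ℚ) ≤ 1 / n.factorial := by positivity
        gcongr
    _ = (54 * (B : ℚ) ^ 4 * (c / n) ^ 2) ^ n := by
        rw [← div_pow, pow_mul, ← mul_pow, ← pow_mul, mul_comm n 2, pow_mul _ 2 n, ← mul_pow]
        congr 1
        field_simp
        ring

lemma Phi_le {B R : ℕ} (hn : 1 ≤ n) (hB : 1 ≤ B) (hc : 2 * (n : ℚ) ≤ c)
    (hR : ((R : ℚ) - 1) * n ≤ c) :
    Nm b 1 (TS c ((Phi n b B R).comp (yp n))) ≤
      (54 * (B : ℚ) ^ 4 * (c / n) ^ 2) ^ (n * ((b + 1) * (B ^ 2 * R))) := by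
  have hn' : (1 : ℚ) ≤ n := by exact_mod_cast hn
  have hB' : (1 : ℚ) ≤ (B : ℚ) ^ 4 := one_le_pow₀ (by exact_mod_cast hB)
  have hτ : 2 ≤ c / n := by rw [le_div_iff₀ (by linarith)]; linarith
  have hbase : (1 : ℚ) ≤ 54 * (B : ℚ) ^ 4 * (c / n) ^ 2 := by nlinarith
  refine (Nm_Phi hn hc hR).trans ?_
  have h1 : ∏ q ∈ Ix B R, ((((q.1 : ℚ) ^ (2 * n) / n.factorial) ^ 2) * (6 * c ^ 2) ^ n) ^ (b + 1) ≤
      ∏ _q ∈ Ix B R, ((54 * (B : ℚ) ^ 4 * (c / n) ^ 2) ^ n) ^ (b + 1) := by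
    apply Finset.prod_le_prod
    · intro q _
      positivity
    · intro q hq
      rw [mem_Ix] at hq
      exact pow_le_pow_left₀ (by positivity) (pow_base hn hq.1.2) _
  refine h1.trans ?_
  rw [Finset.prod_const, ← pow_mul, ← pow_mul]
  apply pow_le_pow_right₀ hbase
  have := card_Ix_le B R
  exact Nat.mul_le_mul_left _ (Nat.mul_le_mul_left _ this)

lemma Gb_le {B m : ℕ} (hn : 1 ≤ n) (hB : 1 ≤ B) (hc : 2 * (n : ℚ) ≤ c) :
    Nm b 1 (TS c ((Gb n m).comp (yp n))) ≤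
      (54 * (B : ℚ) ^ 4 * (c / n) ^ 2) ^ (n * (m / n + 1)) := by
  have hn' : (1 : ℚ) ≤ n := by exact_mod_cast hn
  have hB' : (1 : ℚ) ≤ (B : ℚ) ^ 4 := one_le_pow₀ (by exact_mod_cast hB)
  have hτ : 2 ≤ c / n := by rw [le_div_iff₀ (by linarith)]; linarith
  have hbase : (1 : ℚ) ≤ 54 * (B : ℚ) ^ 4 * (c / n) ^ 2 := by nlinarith
  have hf : (0 : ℚ) < (n.factorial : ℚ) := by exact_mod_cast n.factorial_pos
  unfold Gb
  rw [Polynomial.mul_comp, Polynomial.pow_comp, map_mul, map_pow]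
  have h1 := Nm_NB (n := n) (b := b) (c := c) (x := 0) (m := n) (d := 1) hn hc (by linarith)
    (by linarith)
  have hm' : m % n < n := Nat.mod_lt _ hn
  have hm'' : ((m % n : ℕ) : ℚ) ≤ n := by exact_mod_cast hm'.le
  have h2 := Nm_NB (n := n) (b := b) (c := c) (x := 0) (m := m % n) (d := 1) hn hc (by linarith)
    (by linarith)
  have h3 := h1.trans (pow_base (c := c) hn hB)
  have h4 : (((((1 : ℕ) : ℚ)) ^ (2 * (m % n)) / (m % n).factorial) ^ 2) * (6 * c ^ 2) ^ (m % n) ≤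
      (54 * (B : ℚ) ^ 4 * (c / n) ^ 2) ^ n := by
    refine le_trans ?_ (pow_base (c := c) hn hB)
    have hg : (0 : ℚ) < ((m % n).factorial : ℚ) := by exact_mod_cast (m % n).factorial_pos
    have h5 : (n.factorial : ℚ) ≤ ((m % n).factorial : ℚ) * (n : ℚ) ^ (n - m % n) := by
      have h6 := Nat.factorial_mul_descFactorial (n := n) (k := n - m % n) (by omega)
      have h7 : n - (n - m % n) = m % n := by omega
      rw [h7] at h6
      have h8 := Nat.descFactorial_le_pow n (n - m % n)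
      have h9 : n.factorial ≤ (m % n).factorial * n ^ (n - m % n) := by
        rw [← h6]
        exact Nat.mul_le_mul_left _ h8
      exact_mod_cast h9
    have h10 : (1 : ℚ) / (m % n).factorial ≤ (n : ℚ) ^ (n - m % n) / n.factorial := by
      rw [div_le_div_iff₀ hg hf]
      linarith
    push_cast
    rw [one_pow, one_pow]
    calc (1 / ((m % n).factorial : ℚ)) ^ 2 * (6 * c ^ 2) ^ (m % n)
        ≤ ((n : ℚ) ^ (n - m % n) / n.factorial) ^ 2 * (6 * c ^ 2) ^ (m % n) := by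
          gcongr
      _ = (1 / (n.factorial : ℚ)) ^ 2 * ((n : ℚ) ^ 2) ^ (n - m % n) * (6 * c ^ 2) ^ (m % n) := by
          rw [← pow_mul, mul_comm 2 (n - m % n), pow_mul]
          ring
      _ ≤ (1 / (n.factorial : ℚ)) ^ 2 * (6 * c ^ 2) ^ (n - m % n) * (6 * c ^ 2) ^ (m % n) := by
          have : (n : ℚ) ^ 2 ≤ 6 * c ^ 2 := by nlinarith
          gcongr
      _ = _ := by
          rw [mul_assoc, ← pow_add]
          congr 2
          omega
  have h5 := Nm_mul_le zero_le_one (Nm_pow (T := b) zero_le_one h3 (m / n)) (h2.trans h4)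
  refine h5.trans (le_of_eq ?_)
  rw [← pow_mul, ← pow_add]
  congr 1

lemma fact_ratio (hc : 0 < c) (hn : 1 ≤ n) (h : ℕ) :
    (n.factorial : ℚ) ^ (2 * h) * (2 / c ^ n) ^ (2 * h) ≤ 4 ^ h / (c / n) ^ (2 * h * n) := by
  have hn' : (1 : ℚ) ≤ n := by exact_mod_cast hn
  have h1 : (n.factorial : ℚ) ≤ (n : ℚ) ^ n := by exact_mod_cast Nat.factorial_le_pow n
  calc (n.factorial : ℚ) ^ (2 * h) * (2 / c ^ n) ^ (2 * h)
      ≤ ((n : ℚ) ^ n) ^ (2 * h) * (2 / c ^ n) ^ (2 * h) := by gcongr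
    _ = 4 ^ h / (c / n) ^ (2 * h * n) := by
        have h4 : (4 : ℚ) ^ h = 2 ^ (2 * h) := by rw [pow_mul]; norm_num
        rw [h4, div_pow 2, div_pow c, div_div_eq_mul_div, ← pow_mul, ← pow_mul,
          mul_comm n (2 * h)]
        ring

end

end Pool.Agent.Y926.LZ
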