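import Pool.Agent.Y926.LZ.Ker

/-!
# The linear forms
-/

open Polynomial Pool.Agent.H337R2 Pool.Agent.W165.OZ Pool.Agent.W165.OZ.PAx

namespace Pool.Agent.Y926.LZ

noncomputable section

/-- binomial coefficient of the derivative -/
def Cb (b i : ℕ) : ℚ := ((i - 1 + b).choose (i - 1) : ℚ)

lemma sum_pfc_eq_rat (s : Finset ℕ) (μ : ℕ → ℕ) (P : ℚ[X]) (r : ℕ) (k : ℕ) (hr : μ k ≤ r)
    (F : ℚ → ℕ → ℚ) (hF : ∀ i, F 0 i = 0) :
    ∑ j ∈ Finset.range (μ k), F (pfc s μ P k j) (μ k - j) = ∑ i ∈ Finset.Icc 1 r, F (pa s μ P k i) i := by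
  have h1 : ∑ i ∈ Finset.Icc 1 r, F (pa s μ P k i) i = ∑ i ∈ Finset.Icc 1 (μ k), F (pa s μ P k i) i := by
    symm
    apply Finset.sum_subset
    · intro i hi
      rw [Finset.mem_Icc] at *
      omega
    · intro i hi hi2
      rw [Finset.mem_Icc] at *
      have : ¬ i ≤ μ k := by omega
      simp [pa, this, hF]
  rw [h1]
  have h2 : Finset.Icc 1 (μ k) = Finset.Ico 1 (μ k + 1) := by
    ext; simp
  rw [h2, Finset.sum_Ico_eq_sum_range]
  rw [← Finset.sum_range_reflect]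
  apply Finset.sum_congr (by simp)
  intro j hj
  rw [Finset.mem_range] at hj
  have h3 : 1 + j ≤ μ k := by omega
  simp only [pa, h3, if_true]
  congr 2 <;> omega

/-- the local contribution of the pole `-k` at the point `x` -/
def Gk (n h b : ℕ) (P : ℚ[X]) (x : ℚ) (k : ℕ) : ℚ :=
  ∑ i ∈ Finset.Icc 1 (2 * h), pa (sP n) (mP h) P k i * Cb b i / (x + k) ^ (i + b)

lemma coeff_RS' {n h b : ℕ} (hb : Even b) (P : ℚ[X])
    (hdeg : P.degree < (QQ (sP n) (mP h)).degree) (x : ℚ)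
    (hx : ∀ m ∈ sP n, x + (m : ℚ) ≠ 0) :
    PowerSeries.coeff b (RS (sP n) (mP h) P x) = ∑ k ∈ sP n, Gk n h b P x k := by
  rw [coeff_RS _ _ _ hdeg x hx b]
  apply Finset.sum_congr rfl
  intro k _
  unfold Gk
  rw [← sum_pfc_eq_rat (sP n) (mP h) P (2 * h) k le_rfl
    (fun a i => a * Cb b i / (x + k) ^ (i + b)) (by intro i; simp)]
  apply Finset.sum_congr rfl
  intro j _
  simp only [Cb]
  rw [hb.neg_one_pow, one_mul, mul_div_assoc]

/-- the rational part of the linear form of the line `d` -/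
def bet (n h b d : ℕ) (P : ℚ[X]) : ℚ :=
  ∑ k ∈ sP n, ∑ i ∈ Finset.Icc 1 (2 * h), pa (sP n) (mP h) P k i * Cb b i *
    ((d : ℚ) ^ (i + b) * hs (i + b) (d * k))

lemma hs_eq {d e k : ℕ} (hd : 1 ≤ d) : (d : ℚ) ^ e * hs e (d * k) =
    ∑ v ∈ Finset.range (d * k), 1 / (-(v : ℚ) / d + k) ^ e := by
  have hd0 : (d : ℚ) ≠ 0 := by exact_mod_cast (by omega : d ≠ 0)
  unfold hs
  rw [← Finset.sum_range_reflect, Finset.mul_sum]
  apply Finset.sum_congr rfl
  intro v hv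
  rw [Finset.mem_range] at hv
  have h1 : ((d * k - 1 - v : ℕ) : ℚ) + 1 = (d : ℚ) * (-(v : ℚ) / d + k) := by
    have h2 : d * k - 1 - v + 1 = d * k - v := by omega
    have h3 : ((d * k - 1 - v : ℕ) : ℚ) + 1 = ((d * k - v : ℕ) : ℚ) := by
      rw [← h2]; push_cast; ring
    rw [h3, Nat.cast_sub hv.le]
    push_cast
    field_simp
    ring
  rw [h1, mul_pow]
  have h4 : (d : ℚ) ^ e ≠ 0 := pow_ne_zero _ hd0
  rw [mul_one_div, mul_comm ((d : ℚ) ^ e) _, div_mul_eq_div_div_swap, div_self h4]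

lemma bet_eq {n h b d : ℕ} (hd : 1 ≤ d) (P : ℚ[X]) : bet n h b d P =
    ∑ v ∈ Finset.range (d * n), ∑ k ∈ (sP n).filter (fun k => v < d * k),
      Gk n h b P (-(v : ℚ) / d) k := by
  have h1 : bet n h b d P = ∑ k ∈ sP n, ∑ v ∈ Finset.range (d * n),
      if v < d * k then Gk n h b P (-(v : ℚ) / d) k else 0 := by
    unfold bet
    apply Finset.sum_congr rfl
    intro k hk
    rw [Finset.mem_range] at hk
    rw [← Finset.sum_filter]
    have h2 : (Finset.range (d * n)).filter (fun v => v < d * k) = Finset.range (d * k) := by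
      ext v
      rw [Finset.mem_filter, Finset.mem_range, Finset.mem_range]
      constructor
      · exact fun h => h.2
      · intro h
        exact ⟨h.trans_le (Nat.mul_le_mul_left _ hk.le), h⟩
    rw [h2]
    unfold Gk
    rw [Finset.sum_comm]
    apply Finset.sum_congr rfl
    intro i _
    rw [hs_eq hd, Finset.mul_sum]
    apply Finset.sum_congr rfl
    intro v _
    rw [mul_one_div]
  rw [h1, Finset.sum_comm]
  apply Finset.sum_congr rfl
  intro v _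
  rw [Finset.sum_filter]

/-- vanishing at a zero of order `b + 1` -/
lemma RS_zero {n h b : ℕ} {P : ℚ[X]} {x : ℚ} (hx : (X - C x) ^ (b + 1) ∣ P) :
    PowerSeries.coeff b (RS (sP n) (mP h) P x) = 0 := by
  obtain ⟨P', hP'⟩ := hx
  have h1 : TS x (X - C x) = PowerSeries.X := by
    rw [map_sub, TS_X, TS_C, add_sub_cancel_right]
  unfold RS
  rw [hP', RingHom.map_mul, RingHom.map_pow, h1, mul_assoc, PowerSeries.coeff_X_pow_mul',
    if_neg (by omega)]

lemma YB_dvd (n : ℕ) (x0 : ℚ) {m j : ℕ} (hj : j < m) :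
    (X - C (x0 + j)) ∣ (YB n x0 m).comp (yp n) := by
  rw [YB_comp]
  have h1 : (X - C (x0 + (j : ℚ))) ∣
      ((X + C (-(x0 + (j : ℚ)))) * (X + C (x0 + (j : ℚ) + ((n : ℚ) - 1)))) := by
    rw [map_neg, ← sub_eq_add_neg]
    exact dvd_mul_right _ _
  exact h1.trans (Finset.dvd_prod_of_mem
    (fun j : ℕ => ((X + C (-(x0 + (j : ℚ)))) * (X + C (x0 + (j : ℚ) + ((n : ℚ) - 1)))))
    (Finset.mem_range.2 hj))

lemma NB_dvd (n d : ℕ) (x0 : ℚ) {m j : ℕ} (hj : j < m) :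
    (X - C (x0 + j)) ∣ (NB n d x0 m).comp (yp n) := by
  unfold NB
  rw [Polynomial.mul_comp]
  exact (YB_dvd n x0 hj).trans (Dvd.intro_left _ rfl)

/-- `Φ` vanishes to order `b + 1` at the points `a / d - n` -/
lemma Phi_dvd {n b B R d a : ℕ} (hn : 1 ≤ n) (hd : 1 ≤ d) (hdB : d ≤ B) (ha : a < R * (d * n)) :
    (X - C ((a : ℚ) / d - n)) ^ (b + 1) ∣ (Phi n b B R).comp (yp n) := by
  have hd0 : (d : ℚ) ≠ 0 := by exact_mod_cast (by omega : d ≠ 0)
  have h1 : a / d < R * n := by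
    rw [Nat.div_lt_iff_lt_mul (by omega)]
    calc a < R * (d * n) := ha
      _ = R * n * d := by ring
  have h2 : a / d / n < R := by
    rw [Nat.div_lt_iff_lt_mul (by omega)]
    exact h1
  have hq : (⟨d, (a % d, a / d / n)⟩ : Σ _ : ℕ, ℕ × ℕ) ∈ Ix B R := by
    rw [mem_Ix]
    exact ⟨⟨hd, hdB⟩, Nat.mod_lt _ (by omega), h2⟩
  have h3 : (a : ℚ) / d - n = stq n ⟨d, (a % d, a / d / n)⟩ + ((a / d % n : ℕ) : ℚ) := by
    unfold stq
    have e1 : (a : ℚ) = (d : ℚ) * ((a / d : ℕ) : ℚ) + ((a % d : ℕ) : ℚ) := by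
      exact_mod_cast (Nat.div_add_mod a d).symm
    have e2 : ((a / d : ℕ) : ℚ) = (n : ℚ) * ((a / d / n : ℕ) : ℚ) + ((a / d % n : ℕ) : ℚ) := by
      exact_mod_cast (Nat.div_add_mod (a / d) n).symm
    have e3 : (a : ℚ) / d = ((a / d : ℕ) : ℚ) + ((a % d : ℕ) : ℚ) / d := by
      conv_lhs => rw [e1]
      rw [add_div, mul_div_cancel_left₀ _ hd0]
    rw [e3]
    simp only
    rw [e2]
    push_cast
    ring
  unfold Phi
  rw [Polynomial.prod_comp, h3]
  refine Dvd.dvd.trans ?_ (Finset.dvd_prod_of_mem _ hq)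
  rw [Polynomial.pow_comp]
  exact pow_dvd_pow_of_dvd (NB_dvd n d _ (Nat.mod_lt _ (by omega))) _

lemma KP_dvd {n h : ℕ} {Q Q' D : ℚ[X]} (hD : D ∣ Q.comp (yp n)) : D ∣ KP n h (Q * Q') := by
  unfold KP num
  rw [Polynomial.mul_comp]
  refine Dvd.dvd.mul_left (Dvd.dvd.mul_left (Dvd.dvd.mul_right hD _) _) _

lemma natDegree_QQ (n h : ℕ) : (QQ (sP n) (mP h)).natDegree = n * (2 * h) := by
  rw [QQ_natDegree, Finset.sum_const, Finset.card_range, smul_eq_mul]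

lemma natDegree_KP (n h : ℕ) (Q : ℚ[X]) : (KP n h Q).natDegree ≤ 1 + 2 * Q.natDegree := by
  unfold KP num
  refine (Polynomial.natDegree_C_mul_le _ _).trans ?_
  refine Polynomial.natDegree_mul_le.trans ?_
  have h1 : (C (2 : ℚ) * X + C ((n : ℚ) - 1)).natDegree ≤ 1 := Polynomial.natDegree_linear_le
  have h2 : (Q.comp (yp n)).natDegree ≤ Q.natDegree * 2 := by
    refine Polynomial.natDegree_comp_le.trans ?_
    apply Nat.mul_le_mul_left
    unfold yp
    refine Polynomial.natDegree_mul_le.trans ?_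
    rw [Polynomial.natDegree_X, Polynomial.natDegree_X_add_C]
  omega

lemma degree_KP_lt {n h : ℕ} {Q : ℚ[X]} (hQ : 2 * Q.natDegree + 3 ≤ n * (2 * h)) :
    (KP n h Q).degree < (QQ (sP n) (mP h)).degree := by
  rw [Polynomial.degree_eq_natDegree (QQ_monic _ _).ne_zero, natDegree_QQ]
  refine lt_of_le_of_lt Polynomial.degree_le_natDegree ?_
  have := natDegree_KP n h Q
  exact_mod_cast (by omega)

lemma KP_eq (n h : ℕ) (Q : ℚ[X]) : KP n h Q = num n (C ((n.factorial : ℚ) ^ (2 * h)) * Q) := by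
  unfold KP num
  rw [Polynomial.mul_comp, Polynomial.C_comp]
  ring

lemma rho_one {n h : ℕ} {Q : ℚ[X]} (hQ : 2 * Q.natDegree + 3 ≤ n * (2 * h)) :
    rhoP n h (KP n h Q) 1 = 0 := by
  unfold rhoP
  apply residue_sum
  rw [natDegree_QQ]
  have := natDegree_KP n h Q
  omega

lemma rho_even {n h : ℕ} (hn : 1 ≤ n) (Q : ℚ[X]) {i : ℕ} (hi : Even i) (hi1 : 1 ≤ i) :
    rhoP n h (KP n h Q) i = 0 := by
  rw [KP_eq]
  exact t_ev n h _ i hn hi hi1

/-- the sum over the line `d` -/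
lemma hasSum_S {n h b d : ℕ} (hb : Even b) (hb1 : 1 ≤ b) (hd : 1 ≤ d) (P : ℚ[X])
    (hdeg : P.degree < (QQ (sP n) (mP h)).degree) :
    HasSum (fun t : ℕ => ((PowerSeries.coeff b (RS (sP n) (mP h) P (((t : ℚ) + 1) / d)) : ℚ) : ℝ))
      (∑ i ∈ Finset.Icc 1 (2 * h), ((Cb b i * rhoP n h P i * (d : ℚ) ^ (i + b) : ℚ) : ℝ) * zr (i + b) -
        (bet n h b d P : ℝ)) := by
  have hd0 : (d : ℚ) ≠ 0 := by exact_mod_cast (by omega : d ≠ 0)
  have hd0' : (d : ℝ) ≠ 0 := by exact_mod_cast (by omega : d ≠ 0)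
  have h1 : HasSum (fun t : ℕ => ∑ k ∈ sP n, ∑ i ∈ Finset.Icc 1 (2 * h),
      ((pa (sP n) (mP h) P k i * Cb b i * (d : ℚ) ^ (i + b) : ℚ) : ℝ) *
        (1 / ((t : ℝ) + (((d * k : ℕ) : ℝ) + 1)) ^ (i + b)))
      (∑ k ∈ sP n, ∑ i ∈ Finset.Icc 1 (2 * h),
      ((pa (sP n) (mP h) P k i * Cb b i * (d : ℚ) ^ (i + b) : ℚ) : ℝ) *
        (zr (i + b) - (hs (i + b) (d * k) : ℚ))) := by
    apply hasSum_sum
    intro k _
    apply hasSum_sum
    intro i hi
    rw [Finset.mem_Icc] at hi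
    exact (hasSum_tail (by omega) _).mul_left _
  have h2 : (∑ k ∈ sP n, ∑ i ∈ Finset.Icc 1 (2 * h),
      ((pa (sP n) (mP h) P k i * Cb b i * (d : ℚ) ^ (i + b) : ℚ) : ℝ) *
        (zr (i + b) - (hs (i + b) (d * k) : ℚ))) =
      (∑ i ∈ Finset.Icc 1 (2 * h), ((Cb b i * rhoP n h P i * (d : ℚ) ^ (i + b) : ℚ) : ℝ) * zr (i + b) -
        (bet n h b d P : ℝ)) := by
    have h3 : (bet n h b d P : ℝ) = ∑ k ∈ sP n, ∑ i ∈ Finset.Icc 1 (2 * h),
        ((pa (sP n) (mP h) P k i * Cb b i * (d : ℚ) ^ (i + b) : ℚ) : ℝ) *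
        ((hs (i + b) (d * k) : ℚ) : ℝ) := by
      unfold bet
      push_cast
      refine Finset.sum_congr rfl fun k _ => Finset.sum_congr rfl fun i _ => ?_
      ring
    have h4 : (∑ i ∈ Finset.Icc 1 (2 * h), ((Cb b i * rhoP n h P i * (d : ℚ) ^ (i + b) : ℚ) : ℝ) *
        zr (i + b)) = ∑ k ∈ sP n, ∑ i ∈ Finset.Icc 1 (2 * h),
        ((pa (sP n) (mP h) P k i * Cb b i * (d : ℚ) ^ (i + b) : ℚ) : ℝ) * zr (i + b) := by
      rw [Finset.sum_comm]
      refine Finset.sum_congr rfl fun i _ => ?_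
      rw [← Finset.sum_mul]
      congr 1
      unfold rhoP
      push_cast
      rw [Finset.mul_sum, Finset.sum_mul]
      refine Finset.sum_congr rfl fun k _ => ?_
      ring
    rw [h3, h4, ← Finset.sum_sub_distrib]
    refine Finset.sum_congr rfl fun k _ => ?_
    rw [← Finset.sum_sub_distrib]
    refine Finset.sum_congr rfl fun i _ => ?_
    ring
  rw [← h2]
  refine h1.congr_fun ?_
  intro t
  have hne : ∀ m ∈ sP n, ((t : ℚ) + 1) / d + (m : ℚ) ≠ 0 := by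
    intro m _
    have h5 : (0 : ℚ) < ((t : ℚ) + 1) / d := by
      apply div_pos (by positivity)
      exact_mod_cast (by omega : 0 < d)
    positivity
  rw [coeff_RS' hb P hdeg _ hne]
  unfold Gk
  push_cast
  refine Finset.sum_congr rfl fun k _ => Finset.sum_congr rfl fun i _ => ?_
  have h6 : (((t : ℝ) + 1) / d + k) = (t + ((d : ℝ) * k + 1)) / d := by
    field_simp
    ring
  rw [h6, div_pow]
  have h7 : (d : ℝ) ^ (i + b) ≠ 0 := pow_ne_zero _ hd0'
  have h8 : (t + ((d : ℝ) * k + 1)) ^ (i + b) ≠ 0 := by positivity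
  field_simp

end

end Pool.Agent.Y926.LZ
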