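import Pool.Agent.Y926.LZ.Form
import Pool.Agent.W165.OZ.PR

/-!
# p-adic bounds of the rational parts, integrality
-/

open Polynomial Pool.Agent.H337R2 Pool.Agent.W165.OZ Pool.Agent.W165.OZ.PAx

namespace Pool.Agent.Y926.LZ

noncomputable section

section
variable {p : ℕ} [hp : Fact p.Prime]

lemma pn_Cb (b i : ℕ) : padicNorm p (Cb b i) ≤ 1 := by
  unfold Cb
  exact padicNorm.of_nat _

/-- bound of the local contribution -/
lemma Gk_bound {n h b : ℕ} {P : ℚ[X]} {x : ℚ} {k : ℕ}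
    (hP : ∀ i : ℕ, i ≤ 2 * h → padicNorm p (pa (sP n) (mP h) P k i) ≤
      ((p : ℚ) ^ Nat.log p n) ^ (2 * h - i))
    (hx0 : x + k ≠ 0) (hx : (padicNorm p (x + k))⁻¹ ≤ (p : ℚ) ^ Nat.log p n) :
    padicNorm p (Gk n h b P x k) ≤ ((p : ℚ) ^ Nat.log p n) ^ (2 * h + b) := by
  have hρ : (1 : ℚ) ≤ (p : ℚ) ^ Nat.log p n := rho_ge n
  have hρ0 : (0 : ℚ) ≤ (p : ℚ) ^ Nat.log p n := by linarith
  unfold Gk
  apply padicNorm.sum_le' _ (by positivity)
  intro i hi
  rw [Finset.mem_Icc] at hi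
  rw [padicNorm.div, padicNorm.mul, pn_pow, div_eq_mul_inv, ← inv_pow]
  have h1 := hP i hi.2
  have h2 := pn_Cb (p := p) b i
  have h3 : 0 ≤ (padicNorm p (x + k))⁻¹ := inv_nonneg.2 (padicNorm.nonneg _)
  generalize (p : ℚ) ^ Nat.log p n = ρ at *
  calc padicNorm p (pa (sP n) (mP h) P k i) * padicNorm p (Cb b i) * (padicNorm p (x + k))⁻¹ ^ (i + b)
      ≤ ρ ^ (2 * h - i) * 1 * ρ ^ (i + b) := by
        refine mul_le_mul (mul_le_mul h1 h2 (padicNorm.nonneg _) (by positivity))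
          (pow_le_pow_left₀ h3 hx _) (by positivity) (by positivity)
    _ = ρ ^ (2 * h + b) := by
        rw [mul_one, ← pow_add]
        congr 1
        omega

/-- at most one pole is `p`-adically close to `x` -/
lemma close_unique {n k k' : ℕ} {x : ℚ} (hk : k < n) (hk' : k' < n)
    (h1 : ¬ (padicNorm p (x + k))⁻¹ ≤ (p : ℚ) ^ Nat.log p n)
    (h2 : ¬ (padicNorm p (x + k'))⁻¹ ≤ (p : ℚ) ^ Nat.log p n) : k = k' := by
  by_contra hne
  have hρ := rho_pos (p := p) n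
  have h3 := inv_le (p := p) hk hk' (Ne.symm hne)
  have h4 : -(k : ℚ) + k' = -(x + k) + (x + k') := by ring
  have key : ∀ y : ℚ, ¬ (padicNorm p y)⁻¹ ≤ (p : ℚ) ^ Nat.log p n →
      padicNorm p y < ((p : ℚ) ^ Nat.log p n)⁻¹ := by
    intro y hy
    have hy := not_le.1 hy
    have hy0 : 0 < padicNorm p y := by
      by_contra h0
      have h0' : padicNorm p y = 0 := le_antisymm (not_lt.1 h0) (padicNorm.nonneg _)
      rw [h0', inv_zero] at hy
      linarith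
    rwa [lt_inv_comm₀ hy0 hρ]
  have h5 := key _ h1
  have h6 := key _ h2
  have h7 : padicNorm p (-(k : ℚ) + k') < ((p : ℚ) ^ Nat.log p n)⁻¹ := by
    rw [h4]
    refine lt_of_le_of_lt padicNorm.nonarchimedean (max_lt ?_ h6)
    rwa [padicNorm.neg]
  have h8 : 0 < padicNorm p (-(k : ℚ) + k') := pn_pos (ne0 (Ne.symm hne))
  rw [lt_inv_comm₀ h8 hρ] at h7
  linarith

/-- the bound of the rational part -/
lemma bet_bound {n h b d : ℕ} (hb : Even b) (hd : 1 ≤ d) {P : ℚ[X]}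
    (hdeg : P.degree < (QQ (sP n) (mP h)).degree)
    (hP : ∀ k < n, ∀ i : ℕ, i ≤ 2 * h → padicNorm p (pa (sP n) (mP h) P k i) ≤
      ((p : ℚ) ^ Nat.log p n) ^ (2 * h - i))
    (hz : ∀ v < d * n, ¬ d ∣ v → PowerSeries.coeff b (RS (sP n) (mP h) P (-(v : ℚ) / d)) = 0) :
    padicNorm p (bet n h b d P) ≤ ((p : ℚ) ^ Nat.log p n) ^ (2 * h + b) := by
  have hρ : (1 : ℚ) ≤ (p : ℚ) ^ Nat.log p n := rho_ge n
  have hρ0 : (0 : ℚ) ≤ (p : ℚ) ^ Nat.log p n := by linarith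
  have hd0 : (d : ℚ) ≠ 0 := by exact_mod_cast (by omega : d ≠ 0)
  rw [bet_eq hd]
  apply padicNorm.sum_le' _ (by positivity)
  intro v hv
  rw [Finset.mem_range] at hv
  by_cases hdv : d ∣ v
  · obtain ⟨c, rfl⟩ := hdv
    apply padicNorm.sum_le' _ (by positivity)
    intro k hk
    rw [Finset.mem_filter, Finset.mem_range] at hk
    have h1 : c < k := Nat.lt_of_mul_lt_mul_left hk.2
    have h2 : -(((d * c : ℕ)) : ℚ) / d + k = -(c : ℚ) + k := by
      push_cast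
      rw [← mul_neg, mul_div_cancel_left₀ _ hd0]
    refine Gk_bound (hP k hk.1) ?_ ?_
    · rw [h2]
      exact ne0 (by omega)
    · rw [h2]
      exact inv_le (by omega) hk.1 (by omega)
  · -- the point is not an integer
    have hne : ∀ m ∈ sP n, -(v : ℚ) / d + (m : ℚ) ≠ 0 := by
      intro m _ h0
      apply hdv
      have h1 : (v : ℚ) = (d : ℚ) * m := by
        field_simp at h0
        linarith
      exact ⟨m, by exact_mod_cast h1⟩
    have h0 := hz v hv hdv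
    rw [coeff_RS' hb P hdeg _ hne] at h0
    have key : ∀ T : Finset ℕ, T ⊆ sP n →
        (∀ k ∈ T, (padicNorm p (-(v : ℚ) / d + k))⁻¹ ≤ (p : ℚ) ^ Nat.log p n) →
        padicNorm p (∑ k ∈ T, Gk n h b P (-(v : ℚ) / d) k) ≤
          ((p : ℚ) ^ Nat.log p n) ^ (2 * h + b) := by
      intro T hT hc
      apply padicNorm.sum_le' _ (by positivity)
      intro k hk
      exact Gk_bound (hP k (Finset.mem_range.1 (hT hk))) (hne k (hT hk)) (hc k hk)
    by_cases hex : ∀ k ∈ (sP n).filter (fun k => v < d * k),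
        (padicNorm p (-(v : ℚ) / d + k))⁻¹ ≤ (p : ℚ) ^ Nat.log p n
    · exact key _ (Finset.filter_subset _ _) hex
    · push Not at hex
      obtain ⟨k0, hk0, hk0'⟩ := hex
      have h1 : ∑ k ∈ (sP n).filter (fun k => v < d * k), Gk n h b P (-(v : ℚ) / d) k =
          -∑ k ∈ (sP n).filter (fun k => ¬ v < d * k), Gk n h b P (-(v : ℚ) / d) k := by
        rw [eq_neg_iff_add_eq_zero, Finset.sum_filter_add_sum_filter_not, h0]
      rw [h1, padicNorm.neg]
      refine key _ (Finset.filter_subset _ _) fun k hk => ?_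
      by_contra hk'
      have h2 := close_unique (p := p) (Finset.mem_range.1 (Finset.mem_filter.1 hk0).1)
        (Finset.mem_range.1 (Finset.mem_filter.1 hk).1) (not_le.2 hk0') hk'
      rw [← h2] at hk
      exact (Finset.mem_filter.1 hk).2 (Finset.mem_filter.1 hk0).2

lemma rho_bound {n h i : ℕ} {P : ℚ[X]} (hi : i ≤ 2 * h)
    (hP : ∀ k < n, ∀ i : ℕ, i ≤ 2 * h → padicNorm p (pa (sP n) (mP h) P k i) ≤
      ((p : ℚ) ^ Nat.log p n) ^ (2 * h - i)) :
    padicNorm p (rhoP n h P i) ≤ ((p : ℚ) ^ Nat.log p n) ^ (2 * h) := by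
  have hρ : (1 : ℚ) ≤ (p : ℚ) ^ Nat.log p n := rho_ge n
  have hρ0 : (0 : ℚ) ≤ (p : ℚ) ^ Nat.log p n := by linarith
  unfold rhoP
  apply padicNorm.sum_le' _ (by positivity)
  intro k hk
  exact (hP k (Finset.mem_range.1 hk) i hi).trans (pow_le_pow_right₀ hρ (by omega))

end

/-- the zeros of `Φ` on the negative side -/
lemma Phi_zero {n h b B R d : ℕ} (hn : 1 ≤ n) (hR : 1 ≤ R) (hd : 1 ≤ d) (hdB : d ≤ B) (Q : ℚ[X])
    {v : ℕ} (hv : v < d * n) (hdv : ¬ d ∣ v) :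
    PowerSeries.coeff b (RS (sP n) (mP h) (KP n h (Phi n b B R * Q)) (-(v : ℚ) / d)) = 0 := by
  have hd0 : (d : ℚ) ≠ 0 := by exact_mod_cast (by omega : d ≠ 0)
  have hv0 : v ≠ 0 := by
    rintro rfl
    exact hdv (dvd_zero d)
  apply RS_zero
  have h1 : -(v : ℚ) / d = ((d * n - v : ℕ) : ℚ) / d - n := by
    rw [Nat.cast_sub hv.le]
    push_cast
    field_simp
    ring
  rw [h1]
  apply KP_dvd
  apply Phi_dvd hn hd hdB
  calc d * n - v < d * n := by omega
    _ ≤ R * (d * n) := Nat.le_mul_of_pos_left _ hR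

/-- the sum over one line -/
def Sd (n h b d : ℕ) (P : ℚ[X]) : ℝ :=
  ∑' t : ℕ, ((PowerSeries.coeff b (RS (sP n) (mP h) P (((t : ℚ) + 1) / d)) : ℚ) : ℝ)

/-- the linear form -/
def Lam (n h b B : ℕ) (w : ℕ → ℤ) (P : ℚ[X]) : ℝ :=
  ∑ d ∈ Finset.Icc 1 B, (w d : ℝ) * Sd n h b d P

lemma Lam_eq {n h b B : ℕ} (hb : Even b) (hb1 : 1 ≤ b) (w : ℕ → ℤ) (P : ℚ[X])
    (hdeg : P.degree < (QQ (sP n) (mP h)).degree) :
    Lam n h b B w P = ∑ i ∈ Finset.Icc 1 (2 * h),
      ((Cb b i * rhoP n h P i * (WW B w (i + b) : ℚ) : ℚ) : ℝ) * zr (i + b) -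
      ((∑ d ∈ Finset.Icc 1 B, (w d : ℚ) * bet n h b d P : ℚ) : ℝ) := by
  have h1 : ∀ d ∈ Finset.Icc 1 B, (w d : ℝ) * Sd n h b d P =
      ∑ i ∈ Finset.Icc 1 (2 * h), (w d : ℝ) *
        (((Cb b i * rhoP n h P i * (d : ℚ) ^ (i + b) : ℚ) : ℝ) * zr (i + b)) -
        (w d : ℝ) * (bet n h b d P : ℝ) := by
    intro d hd
    rw [Finset.mem_Icc] at hd
    unfold Sd
    rw [(hasSum_S hb hb1 hd.1 P hdeg).tsum_eq, mul_sub, Finset.mul_sum]
  unfold Lam
  rw [Finset.sum_congr rfl h1, Finset.sum_sub_distrib, Finset.sum_comm]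
  congr 1
  · refine Finset.sum_congr rfl fun i _ => ?_
    unfold WW
    push_cast
    rw [Finset.mul_sum, Finset.sum_mul]
    refine Finset.sum_congr rfl fun d _ => ?_
    ring
  · push_cast
    rfl

/-- **Integrality.** -/
theorem Lam_int {n h b B R : ℕ} (hn : 1 ≤ n) (hR : 1 ≤ R) (hb : Even b) (hb1 : 1 ≤ b) (w : ℕ → ℤ)
    (m : ℕ) (hdeg : 2 * (Phi n b B R * Gb n m).natDegree + 3 ≤ n * (2 * h)) (E : ℕ) (z : ℕ → ℤ)
    (hz : ∀ j, Odd j → b < j → j ≤ 2 * h + b → WW B w j = 0 ∨ (E : ℝ) * zr j = z j) :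
    ∃ M : ℤ, (E : ℝ) * (Dl n 1 : ℝ) ^ (2 * h + b) *
      Lam n h b B w (KP n h (Phi n b B R * Gb n m)) = M := by
  have hdeg' := degree_KP_lt hdeg
  rw [Lam_eq hb hb1 w _ hdeg']
  set P := KP n h (Phi n b B R * Gb n m) with hP
  -- the rational number
  obtain ⟨x, hx⟩ : ∃ x : ℚ, x = (Dl n 1 : ℚ) ^ (2 * h + b) *
      (∑ i ∈ Finset.Icc 1 (2 * h), Cb b i * rhoP n h P i * (WW B w (i + b) : ℚ) * (z (i + b) : ℚ) -
        (E : ℚ) * ∑ d ∈ Finset.Icc 1 B, (w d : ℚ) * bet n h b d P) := ⟨_, rfl⟩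
  have h1 : (E : ℝ) * (Dl n 1 : ℝ) ^ (2 * h + b) *
      (∑ i ∈ Finset.Icc 1 (2 * h),
      ((Cb b i * rhoP n h P i * (WW B w (i + b) : ℚ) : ℚ) : ℝ) * zr (i + b) -
      ((∑ d ∈ Finset.Icc 1 B, (w d : ℚ) * bet n h b d P : ℚ) : ℝ)) = (x : ℝ) := by
    rw [hx]
    have h2 : ∀ i ∈ Finset.Icc 1 (2 * h),
        (E : ℝ) * (((Cb b i * rhoP n h P i * (WW B w (i + b) : ℚ) : ℚ) : ℝ) * zr (i + b)) =
        ((Cb b i * rhoP n h P i * (WW B w (i + b) : ℚ) * (z (i + b) : ℚ) : ℚ) : ℝ) := by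
      intro i hi
      rw [Finset.mem_Icc] at hi
      rcases Nat.even_or_odd i with hi2 | hi2
      · rw [hP, rho_even hn _ hi2 hi.1]
        simp
      · rcases hz (i + b) (hi2.add_even hb) (by omega) (by omega) with h3 | h3
        · rw [h3]; simp
        · push_cast
          rw [← h3]
          ring
    have h4 : (E : ℝ) * ∑ i ∈ Finset.Icc 1 (2 * h),
        ((Cb b i * rhoP n h P i * (WW B w (i + b) : ℚ) : ℚ) : ℝ) * zr (i + b) =
        ((∑ i ∈ Finset.Icc 1 (2 * h),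
          Cb b i * rhoP n h P i * (WW B w (i + b) : ℚ) * (z (i + b) : ℚ) : ℚ) : ℝ) := by
      rw [Finset.mul_sum, Finset.sum_congr rfl h2]
      push_cast
      rfl
    rw [mul_right_comm, mul_sub, h4]
    push_cast
    ring
  rw [h1]
  have h5 : x.den = 1 := by
    apply PRaux.int_of_padicNorm
    intro p hp
    have hρ : (1 : ℚ) ≤ (p : ℚ) ^ Nat.log p n := rho_ge n
    have hρ0 : (0 : ℚ) < (p : ℚ) ^ Nat.log p n := by linarith
    have hD : padicNorm p (Dl n 1 : ℚ) ≤ ((p : ℚ) ^ Nat.log p n)⁻¹ := by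
      by_cases hpn : p ≤ n
      · rw [pn_Dl hpn, one_mul]
      · rw [Nat.log_of_lt (by omega), pow_zero, inv_one]
        exact padicNorm.of_nat _
    have hPa : ∀ k < n, ∀ i : ℕ, i ≤ 2 * h → padicNorm p (pa (sP n) (mP h) P k i) ≤
        ((p : ℚ) ^ Nat.log p n) ^ (2 * h - i) := by
      intro k hk i hi
      exact pa_bound hk _ hi (PB_PG hn)
    have h6 : padicNorm p (∑ i ∈ Finset.Icc 1 (2 * h), Cb b i * rhoP n h P i *
        (WW B w (i + b) : ℚ) * (z (i + b) : ℚ) -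
        (E : ℚ) * ∑ d ∈ Finset.Icc 1 B, (w d : ℚ) * bet n h b d P) ≤
        ((p : ℚ) ^ Nat.log p n) ^ (2 * h + b) := by
      refine padicNorm.sub.trans (max_le ?_ ?_)
      · apply padicNorm.sum_le' _ (by positivity)
        intro i hi
        rw [Finset.mem_Icc] at hi
        rw [padicNorm.mul, padicNorm.mul, padicNorm.mul]
        have a1 := pn_Cb (p := p) b i
        have a2 := rho_bound (p := p) hi.2 hPa
        have a3 := padicNorm.of_int (p := p) (WW B w (i + b))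
        have a4 := padicNorm.of_int (p := p) (z (i + b))
        have a5 : ((p : ℚ) ^ Nat.log p n) ^ (2 * h) ≤ ((p : ℚ) ^ Nat.log p n) ^ (2 * h + b) :=
          pow_le_pow_right₀ hρ (by omega)
        calc _ ≤ 1 * ((p : ℚ) ^ Nat.log p n) ^ (2 * h) * 1 * 1 := by
              refine mul_le_mul (mul_le_mul (mul_le_mul a1 a2 (padicNorm.nonneg _) zero_le_one) a3
                (padicNorm.nonneg _) (by positivity)) a4 (padicNorm.nonneg _) (by positivity)
          _ ≤ _ := by rw [one_mul, mul_one, mul_one]; exact a5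
      · rw [padicNorm.mul]
        have a1 := padicNorm.of_nat (p := p) E
        have a2 : padicNorm p (∑ d ∈ Finset.Icc 1 B, (w d : ℚ) * bet n h b d P) ≤
            ((p : ℚ) ^ Nat.log p n) ^ (2 * h + b) := by
          apply padicNorm.sum_le' _ (by positivity)
          intro d hd
          rw [Finset.mem_Icc] at hd
          rw [padicNorm.mul]
          have a3 := padicNorm.of_int (p := p) (w d)
          have a4 := bet_bound (p := p) (n := n) (h := h) (b := b) (d := d) hb hd.1 hdeg' hPa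
            fun v hv hdv => Phi_zero hn hR hd.1 hd.2 _ hv hdv
          calc _ ≤ 1 * ((p : ℚ) ^ Nat.log p n) ^ (2 * h + b) :=
                mul_le_mul a3 a4 (padicNorm.nonneg _) zero_le_one
            _ = _ := one_mul _
        calc _ ≤ 1 * ((p : ℚ) ^ Nat.log p n) ^ (2 * h + b) :=
              mul_le_mul a1 a2 (padicNorm.nonneg _) zero_le_one
          _ = _ := one_mul _
    rw [hx, padicNorm.mul, pn_pow]
    have h7 : (padicNorm p (Dl n 1 : ℚ)) ^ (2 * h + b) ≤ (((p : ℚ) ^ Nat.log p n)⁻¹) ^ (2 * h + b) :=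
      pow_le_pow_left₀ (padicNorm.nonneg _) hD _
    calc _ ≤ (((p : ℚ) ^ Nat.log p n)⁻¹) ^ (2 * h + b) * ((p : ℚ) ^ Nat.log p n) ^ (2 * h + b) :=
          mul_le_mul h7 h6 (padicNorm.nonneg _) (by positivity)
      _ = 1 := by rw [← mul_pow, inv_mul_cancel₀ hρ0.ne', one_pow]
  refine ⟨x.num, ?_⟩
  have h8 : (x : ℚ) = (x.num : ℚ) := by
    have := Rat.mul_den_eq_num x
    rw [h5] at this
    simpa using this
  conv_lhs => rw [h8]
  push_cast
  rfl

end

end Pool.Agent.Y926.LZ
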