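import Pool.Agent.H337R2.PAdic

/-!
# Truncated absolute norms of power series
-/

open Polynomial Pool.Agent.H337R2

namespace Pool.Agent.Y926.LZ

noncomputable section

/-- `∑_{j ≤ T} |f_j| ρ^j` -/
def Nm (T : ℕ) (ρ : ℚ) (f : PowerSeries ℚ) : ℚ :=
  ∑ j ∈ Finset.range (T + 1), |PowerSeries.coeff j f| * ρ ^ j

variable {T : ℕ} {ρ : ℚ}

lemma Nm_nonneg (hρ : 0 ≤ ρ) (f : PowerSeries ℚ) : 0 ≤ Nm T ρ f :=
  Finset.sum_nonneg fun _ _ => by positivity

lemma coeff_le_Nm (hρ : 0 ≤ ρ) (f : PowerSeries ℚ) {j : ℕ} (hj : j ≤ T) :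
    |PowerSeries.coeff j f| * ρ ^ j ≤ Nm T ρ f :=
  Finset.single_le_sum (f := fun j => |PowerSeries.coeff j f| * ρ ^ j)
    (fun _ _ => by positivity) (Finset.mem_range.2 (by omega))

lemma Nm_mul (hρ : 0 ≤ ρ) (f g : PowerSeries ℚ) : Nm T ρ (f * g) ≤ Nm T ρ f * Nm T ρ g := by
  unfold Nm
  rw [Finset.sum_mul_sum, ← Finset.sum_product']
  have h1 : ∀ j ∈ Finset.range (T + 1), |PowerSeries.coeff j (f * g)| * ρ ^ j ≤
      ∑ x ∈ Finset.HasAntidiagonal.antidiagonal j, (|PowerSeries.coeff x.1 f| * ρ ^ x.1) *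
        (|PowerSeries.coeff x.2 g| * ρ ^ x.2) := by
    intro j _
    rw [PowerSeries.coeff_mul]
    calc |∑ x ∈ Finset.HasAntidiagonal.antidiagonal j, PowerSeries.coeff x.1 f * PowerSeries.coeff x.2 g| * ρ ^ j
        ≤ (∑ x ∈ Finset.HasAntidiagonal.antidiagonal j, |PowerSeries.coeff x.1 f * PowerSeries.coeff x.2 g|) * ρ ^ j :=
          mul_le_mul_of_nonneg_right (Finset.abs_sum_le_sum_abs _ _) (by positivity)
      _ = _ := by
          rw [Finset.sum_mul]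
          apply Finset.sum_congr rfl
          intro x hx
          rw [Finset.HasAntidiagonal.mem_antidiagonal] at hx
          rw [abs_mul, ← hx, pow_add]
          ring
  refine (Finset.sum_le_sum h1).trans ?_
  rw [Finset.sum_sigma']
  have h2 : ∀ x : (Σ _ : ℕ, ℕ × ℕ), x ∈ (Finset.range (T + 1)).sigma (fun j => Finset.HasAntidiagonal.antidiagonal j) →
      x.2 ∈ Finset.range (T + 1) ×ˢ Finset.range (T + 1) := by
    intro x hx
    rw [Finset.mem_sigma, Finset.mem_range, Finset.HasAntidiagonal.mem_antidiagonal] at hx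
    rw [Finset.mem_product, Finset.mem_range, Finset.mem_range]
    omega
  have h3 : Set.InjOn (fun x : (Σ _ : ℕ, ℕ × ℕ) => x.2)
      ((Finset.range (T + 1)).sigma (fun j => Finset.HasAntidiagonal.antidiagonal j) : Set (Σ _ : ℕ, ℕ × ℕ)) := by
    rintro ⟨j, x⟩ hx ⟨j', x'⟩ hx' h
    simp only [Finset.coe_sigma, Set.mem_sigma_iff, Finset.mem_coe, Finset.HasAntidiagonal.mem_antidiagonal] at hx hx' h
    subst h
    have : j = j' := by omega
    subst this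
    rfl
  have h4 : ∑ x ∈ (Finset.range (T + 1)).sigma (fun j => Finset.HasAntidiagonal.antidiagonal j),
      (|PowerSeries.coeff x.2.1 f| * ρ ^ x.2.1) * (|PowerSeries.coeff x.2.2 g| * ρ ^ x.2.2) =
      ∑ y ∈ ((Finset.range (T + 1)).sigma (fun j => Finset.HasAntidiagonal.antidiagonal j)).image
        (fun x : (Σ _ : ℕ, ℕ × ℕ) => x.2),
      (|PowerSeries.coeff y.1 f| * ρ ^ y.1) * (|PowerSeries.coeff y.2 g| * ρ ^ y.2) :=
    (Finset.sum_image (f := fun y : ℕ × ℕ => (|PowerSeries.coeff y.1 f| * ρ ^ y.1) *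
      (|PowerSeries.coeff y.2 g| * ρ ^ y.2)) h3).symm
  rw [h4]
  refine Finset.sum_le_sum_of_subset_of_nonneg ?_ fun _ _ _ => by positivity
  intro y hy
  rw [Finset.mem_image] at hy
  obtain ⟨x, hx, rfl⟩ := hy
  exact h2 x hx

lemma Nm_C (a : ℚ) : Nm T ρ (PowerSeries.C a) = |a| := by
  unfold Nm
  rw [Finset.sum_eq_single 0]
  · simp
  · intro j _ hj
    rw [PowerSeries.coeff_C, if_neg hj]
    simp
  · intro h
    exact absurd (Finset.mem_range.2 (Nat.succ_pos T)) h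

lemma Nm_one : Nm T ρ 1 = 1 := by
  have := Nm_C (T := T) (ρ := ρ) 1
  simpa using this

lemma Nm_add (hρ : 0 ≤ ρ) (f g : PowerSeries ℚ) : Nm T ρ (f + g) ≤ Nm T ρ f + Nm T ρ g := by
  unfold Nm
  rw [← Finset.sum_add_distrib]
  refine Finset.sum_le_sum fun j _ => ?_
  rw [map_add, ← add_mul]
  exact mul_le_mul_of_nonneg_right (abs_add_le _ _) (by positivity)

lemma Nm_X (hρ : 0 ≤ ρ) : Nm T ρ PowerSeries.X ≤ ρ := by
  unfold Nm
  have h : ∀ j ∈ Finset.range (T + 1), |PowerSeries.coeff j (PowerSeries.X : PowerSeries ℚ)| * ρ ^ j =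
      if j = 1 then ρ else 0 := by
    intro j _
    rw [PowerSeries.coeff_X]
    split_ifs with h
    · rw [h]; simp
    · simp
  rw [Finset.sum_congr rfl h, Finset.sum_ite_eq']
  split_ifs <;> simp [hρ]

lemma Nm_linX (hρ : 0 ≤ ρ) (a : ℚ) : Nm T ρ (PowerSeries.X + PowerSeries.C a) ≤ |a| + ρ := by
  refine (Nm_add hρ _ _).trans ?_
  rw [Nm_C, add_comm]
  exact add_le_add le_rfl (Nm_X hρ)

lemma Nm_iv (hρ : 0 ≤ ρ) {a : ℚ} (ha : ρ < |a|) : Nm T ρ (iv a) ≤ 1 / (|a| - ρ) := by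
  unfold Nm
  have ha0 : 0 < |a| := hρ.trans_lt ha
  have h : ∀ j ∈ Finset.range (T + 1), |PowerSeries.coeff j (iv a)| * ρ ^ j =
      (1 / |a|) * (ρ / |a|) ^ j := by
    intro j _
    simp only [iv, PowerSeries.coeff_mk]
    rw [abs_div, abs_pow, abs_pow, abs_neg, abs_one, one_pow, div_pow, pow_succ]
    field_simp
  rw [Finset.sum_congr rfl h, ← Finset.mul_sum]
  have hq : ρ / |a| < 1 := (div_lt_one ha0).2 ha
  have hq0 : 0 ≤ ρ / |a| := by positivity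
  have h2 : ∑ j ∈ Finset.range (T + 1), (ρ / |a|) ^ j ≤ 1 / (1 - ρ / |a|) := by
    rw [geom_sum_eq hq.ne]
    have h3 : (0 : ℚ) < 1 - ρ / |a| := by linarith
    rw [show ((ρ / |a|) ^ (T + 1) - 1) / (ρ / |a| - 1) = (1 - (ρ / |a|) ^ (T + 1)) / (1 - ρ / |a|) by
      rw [← neg_sub, ← neg_sub (1 : ℚ) (ρ / |a|), neg_div_neg_eq]]
    apply div_le_div_of_nonneg_right _ h3.le
    have : 0 ≤ (ρ / |a|) ^ (T + 1) := by positivity
    linarith
  calc 1 / |a| * ∑ j ∈ Finset.range (T + 1), (ρ / |a|) ^ j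
      ≤ 1 / |a| * (1 / (1 - ρ / |a|)) := mul_le_mul_of_nonneg_left h2 (by positivity)
    _ = 1 / (|a| - ρ) := by
        have : |a| - ρ ≠ 0 := by linarith
        field_simp

lemma Nm_prod {ι : Type*} (hρ : 0 ≤ ρ) (s : Finset ι) (A : ι → ℚ) (f : ι → PowerSeries ℚ)
    (hf : ∀ i ∈ s, Nm T ρ (f i) ≤ A i) : Nm T ρ (∏ i ∈ s, f i) ≤ ∏ i ∈ s, A i := by
  classical
  induction s using Finset.induction_on with
  | empty => simp [Nm_one]
  | insert a s ha ih =>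
    rw [Finset.prod_insert ha, Finset.prod_insert ha]
    refine (Nm_mul hρ _ _).trans ?_
    have h1 := hf a (Finset.mem_insert_self _ _)
    have h2 := ih fun i hi => hf i (Finset.mem_insert_of_mem hi)
    exact mul_le_mul h1 h2 (Nm_nonneg hρ _) ((Nm_nonneg hρ _).trans h1)

lemma Nm_pow (hρ : 0 ≤ ρ) {A : ℚ} {f : PowerSeries ℚ} (hf : Nm T ρ f ≤ A) (m : ℕ) :
    Nm T ρ (f ^ m) ≤ A ^ m := by
  have := Nm_prod (T := T) hρ (Finset.range m) (fun _ => A) (fun _ => f) fun _ _ => hf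
  simpa using this

lemma Nm_mul_le (hρ : 0 ≤ ρ) {A B : ℚ} {f g : PowerSeries ℚ} (hf : Nm T ρ f ≤ A) (hg : Nm T ρ g ≤ B) :
    Nm T ρ (f * g) ≤ A * B :=
  (Nm_mul hρ f g).trans (mul_le_mul hf hg (Nm_nonneg hρ _) ((Nm_nonneg hρ _).trans hf))

end

end Pool.Agent.Y926.LZ
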