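import Pool.Agent.Y926.LZ.Tame
import Pool.Agent.Y926.LZ.Nm
import Pool.Agent.W165.OZ.EV

/-!
# The kernels
-/

open Polynomial Pool.Agent.H337R2 Pool.Agent.W165.OZ Pool.Agent.W165.OZ.PAx

namespace Pool.Agent.Y926.LZ

noncomputable section

/-- `y(x)` for rational `x` -/
def yq (n : ℕ) (x : ℚ) : ℚ := x * (x + ((n : ℚ) - 1))

/-- `∏_{j < m} (y - y(x₀ + j))` -/
def YB (n : ℕ) (x0 : ℚ) (m : ℕ) : ℚ[X] := ∏ j ∈ Finset.range m, (X - C (yq n (x0 + j)))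

lemma lin_comp (n : ℕ) (x : ℚ) :
    (X - C (yq n x) : ℚ[X]).comp (yp n) = (X + C (-x)) * (X + C (x + ((n : ℚ) - 1))) := by
  rw [Polynomial.sub_comp, Polynomial.X_comp, Polynomial.C_comp]
  unfold yp yq
  simp only [map_add, map_mul, map_neg, map_sub]
  ring

lemma YB_comp (n : ℕ) (x0 : ℚ) (m : ℕ) : (YB n x0 m).comp (yp n) =
    ∏ j ∈ Finset.range m, ((X + C (-(x0 + j))) * (X + C (x0 + j + ((n : ℚ) - 1)))) := by
  unfold YB
  rw [Polynomial.prod_comp]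
  exact Finset.prod_congr rfl fun j _ => lin_comp n _

lemma YB_monic (n : ℕ) (x0 : ℚ) (m : ℕ) : (YB n x0 m).Monic :=
  Polynomial.monic_prod_of_monic _ _ fun _ _ => Polynomial.monic_X_sub_C _

lemma YB_natDegree (n : ℕ) (x0 : ℚ) (m : ℕ) : (YB n x0 m).natDegree = m := by
  unfold YB
  rw [Polynomial.natDegree_prod_of_monic _ _ fun _ _ => Polynomial.monic_X_sub_C _]
  simp

lemma TS_YB (n k : ℕ) (x0 : ℚ) (m : ℕ) :
    TS (-(k : ℚ)) ((YB n x0 m).comp (yp n)) =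
      Poch m (-(k : ℚ) - x0 - (m - 1)) * Poch m (-(k : ℚ) + x0 + (n - 1)) := by
  rw [YB_comp, map_prod, Finset.prod_congr rfl fun j _ => by rw [map_mul, TS_lin, TS_lin],
    Finset.prod_mul_distrib]
  congr 1
  · unfold Poch
    rw [← Finset.prod_range_reflect]
    apply Finset.prod_congr rfl
    intro j hj
    rw [Finset.mem_range] at hj
    congr 2
    rw [Nat.cast_sub (by omega), Nat.cast_sub (by omega)]
    push_cast
    ring
  · unfold Poch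
    apply Finset.prod_congr rfl
    intro j _
    congr 2
    ring

/-- normalised block at `x₀ ∈ (1/d) ℤ` -/
def NB (n d : ℕ) (x0 : ℚ) (m : ℕ) : ℚ[X] :=
  C (((d : ℚ) ^ (2 * m) / m.factorial) ^ 2) * YB n x0 m

section
variable {p : ℕ} [hp : Fact p.Prime]

lemma PB_NB {ρ : ℚ} (hρ : 1 ≤ ρ) {N : ℕ}
    (hN : ∀ i : ℕ, 1 ≤ i → i ≤ N → (padicNorm p (i : ℚ))⁻¹ ≤ ρ) {n d m k : ℕ} (hm : m ≤ N)
    (hd : 1 ≤ d) {x0 : ℚ} (hx : ∃ a : ℤ, x0 = a / d) :
    PB p ρ 1 (TS (-(k : ℚ)) ((NB n d x0 m).comp (yp n))) := by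
  have hρ0 : (0 : ℚ) ≤ ρ := by linarith
  have hd0 : (d : ℚ) ≠ 0 := by exact_mod_cast (by omega : d ≠ 0)
  obtain ⟨a, ha⟩ := hx
  unfold NB
  rw [Polynomial.mul_comp, Polynomial.C_comp, map_mul, TS_YB, TS_C]
  have h1 := PB_Poch_gen (p := p) hρ hN hm hd (ξ := -(k : ℚ) - x0 - (m - 1))
    ⟨-(k : ℤ) * d - a - (m - 1) * d, by rw [ha]; push_cast; field_simp⟩
  have h2 := PB_Poch_gen (p := p) hρ hN hm hd (ξ := -(k : ℚ) + x0 + (n - 1))
    ⟨-(k : ℤ) * d + a + (n - 1) * d, by rw [ha]; push_cast; field_simp⟩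
  have h3 := PB.mul hρ0 zero_le_one zero_le_one h1 h2
  rw [one_mul] at h3
  have h4 : PowerSeries.C (((d : ℚ) ^ (2 * m) / m.factorial) ^ 2) *
      (Poch m (-(k : ℚ) - x0 - (m - 1)) * Poch m (-(k : ℚ) + x0 + (n - 1))) =
      PowerSeries.C ((d : ℚ) ^ (2 * m) / m.factorial) * Poch m (-(k : ℚ) - x0 - (m - 1)) *
      (PowerSeries.C ((d : ℚ) ^ (2 * m) / m.factorial) * Poch m (-(k : ℚ) + x0 + (n - 1))) := by
    rw [pow_two, map_mul]; ring
  rw [h4]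
  exact h3

end

/-- the index set of the lines and blocks -/
def Ix (B R : ℕ) : Finset (Σ _ : ℕ, ℕ × ℕ) :=
  (Finset.Icc 1 B).sigma fun d => Finset.range d ×ˢ Finset.range R

lemma mem_Ix {B R : ℕ} {q : Σ _ : ℕ, ℕ × ℕ} :
    q ∈ Ix B R ↔ (1 ≤ q.1 ∧ q.1 ≤ B) ∧ q.2.1 < q.1 ∧ q.2.2 < R := by
  unfold Ix
  rw [Finset.mem_sigma, Finset.mem_Icc, Finset.mem_product, Finset.mem_range, Finset.mem_range]

lemma card_Ix_le (B R : ℕ) : (Ix B R).card ≤ B ^ 2 * R := by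
  unfold Ix
  rw [Finset.card_sigma]
  calc ∑ d ∈ Finset.Icc 1 B, (Finset.range d ×ˢ Finset.range R).card
      ≤ ∑ d ∈ Finset.Icc 1 B, B * R := by
        apply Finset.sum_le_sum
        intro d hd
        rw [Finset.mem_Icc] at hd
        rw [Finset.card_product, Finset.card_range, Finset.card_range]
        exact Nat.mul_le_mul_right _ hd.2
    _ = _ := by rw [Finset.sum_const, Nat.card_Icc, smul_eq_mul]; simp; ring

/-- the starting point of a block -/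
def stq (n : ℕ) (q : Σ _ : ℕ, ℕ × ℕ) : ℚ := ((q.2.2 : ℚ) - 1) * n + (q.2.1 : ℚ) / q.1

lemma stq_mem (n : ℕ) {B R : ℕ} {q : Σ _ : ℕ, ℕ × ℕ} (hq : q ∈ Ix B R) :
    ∃ a : ℤ, stq n q = a / (q.1 : ℕ) := by
  rw [mem_Ix] at hq
  have hd0 : ((q.1 : ℕ) : ℚ) ≠ 0 := by exact_mod_cast (by omega : q.1 ≠ 0)
  refine ⟨((q.2.2 : ℤ) - 1) * n * q.1 + q.2.1, ?_⟩
  unfold stq
  push_cast
  field_simp

/-- the fixed part of the numerator -/
def Phi (n b B R : ℕ) : ℚ[X] := ∏ q ∈ Ix B R, NB n q.1 (stq n q) n ^ (b + 1)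

/-- the basis of the free part -/
def Gb (n m : ℕ) : ℚ[X] := NB n 1 0 n ^ (m / n) * NB n 1 0 (m % n)

/-- the scaled numerators -/
def KP (n h : ℕ) (Q : ℚ[X]) : ℚ[X] := C (((n.factorial : ℚ)) ^ (2 * h)) * num n Q

section
variable {p : ℕ} [hp : Fact p.Prime]

lemma rho_N {n : ℕ} : ∀ i : ℕ, 1 ≤ i → i ≤ n → (padicNorm p (i : ℚ))⁻¹ ≤ (p : ℚ) ^ Nat.log p n :=
  fun i h1 h2 => pn_nat_inv_le (by omega) h2

lemma PB_PG {n b B R m k : ℕ} (hn : 1 ≤ n) :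
    PB p ((p : ℚ) ^ Nat.log p n) 1 (TS (-(k : ℚ)) ((Phi n b B R * Gb n m).comp (yp n))) := by
  have hρ : (1 : ℚ) ≤ (p : ℚ) ^ Nat.log p n := rho_ge n
  have hρ0 : (0 : ℚ) ≤ (p : ℚ) ^ Nat.log p n := by linarith
  rw [Polynomial.mul_comp, map_mul]
  have h1 : PB p ((p : ℚ) ^ Nat.log p n) 1 (TS (-(k : ℚ)) ((Phi n b B R).comp (yp n))) := by
    unfold Phi
    rw [Polynomial.prod_comp, map_prod]
    have := PB.prod (p := p) (Ix B R) (fun _ => (1 : ℚ)) (fun q =>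
      TS (-(k : ℚ)) ((NB n q.1 (stq n q) n ^ (b + 1)).comp (yp n))) hρ0
      (fun _ _ => zero_le_one) fun q hq => by
        rw [Polynomial.pow_comp, map_pow]
        have h2 := PB_NB (p := p) (n := n) (k := k) hρ (rho_N (n := n)) le_rfl
          ((mem_Ix.1 hq).1.1) (stq_mem n hq)
        have h3 := PB.pow hρ0 zero_le_one h2 (b + 1)
        rwa [one_pow] at h3
    rwa [Finset.prod_const_one] at this
  have h2 : PB p ((p : ℚ) ^ Nat.log p n) 1 (TS (-(k : ℚ)) ((Gb n m).comp (yp n))) := by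
    unfold Gb
    rw [Polynomial.mul_comp, map_mul, Polynomial.pow_comp, map_pow]
    have h3 := PB_NB (p := p) (n := n) (k := k) (m := n) hρ (rho_N (n := n)) le_rfl
      (le_refl 1) (x0 := 0) ⟨0, by simp⟩
    have h4 := PB_NB (p := p) (n := n) (k := k) (m := m % n) hρ (rho_N (n := n))
      (Nat.mod_lt m hn).le (le_refl 1) (x0 := 0) ⟨0, by simp⟩
    have h5 := PB.pow hρ0 zero_le_one h3 (m / n)
    rw [one_pow] at h5
    have h6 := PB.mul hρ0 zero_le_one zero_le_one h5 h4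
    rwa [one_mul] at h6
  have h3 := PB.mul hρ0 zero_le_one zero_le_one h1 h2
  rwa [one_mul] at h3

lemma pa_bound {n h k i : ℕ} (hk : k < n) (Q : ℚ[X]) (hi : i ≤ 2 * h)
    (hQ : PB p ((p : ℚ) ^ Nat.log p n) 1 (TS (-(k : ℚ)) (Q.comp (yp n)))) :
    padicNorm p (pa (sP n) (mP h) (KP n h Q) k i) ≤ ((p : ℚ) ^ Nat.log p n) ^ (2 * h - i) := by
  have hρ : (1 : ℚ) ≤ (p : ℚ) ^ Nat.log p n := rho_ge n
  have hρ0 : (0 : ℚ) ≤ (p : ℚ) ^ Nat.log p n := by linarith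
  have hf : 0 < padicNorm p (n.factorial : ℚ) :=
    pn_pos (by exact_mod_cast (Nat.factorial_pos n).ne')
  unfold pa
  rw [if_pos hi]
  unfold pfc
  have h1 : VV ((sP n).erase k) (mP h) (-(k : ℚ)) =
      ∏ k' ∈ (Finset.range n).erase k, iv (-(k : ℚ) + k') ^ (2 * h) := rfl
  have h2 := PB_iv (p := p) (N := n) (n := n) (k := k) (E := 2 * h) le_rfl hk
  have h3 : PB p ((p : ℚ) ^ Nat.log p n) (padicNorm p (n.factorial : ℚ) ^ (2 * h))
      (TS (-(k : ℚ)) (KP n h Q)) := by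
    unfold KP num
    rw [map_mul, map_mul, TS_C]
    have h4 : PB p ((p : ℚ) ^ Nat.log p n) (padicNorm p (n.factorial : ℚ) ^ (2 * h))
        (PowerSeries.C ((n.factorial : ℚ) ^ (2 * h))) :=
      PB.C hρ0 (by positivity) (by rw [pn_pow])
    have h5 : PB p ((p : ℚ) ^ Nat.log p n) 1 (TS (-(k : ℚ)) (C 2 * X + C ((n : ℚ) - 1))) := by
      have h6 : TS (-(k : ℚ)) (C 2 * X + C ((n : ℚ) - 1)) =
          PowerSeries.C 2 * PowerSeries.X + PowerSeries.C (((n : ℤ) - 1 - 2 * k : ℤ) : ℚ) := by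
        rw [map_add, map_mul, TS_C, TS_X, TS_C, mul_add, add_assoc, ← map_mul, ← map_add]
        congr 2
        push_cast; ring
      rw [h6]
      refine PB.lin hρ0 zero_le_one (padicNorm.of_int _) ?_
      rw [one_mul]
      have : padicNorm p (2 : ℚ) ≤ 1 := by
        have := padicNorm.of_nat (p := p) 2
        exact_mod_cast this
      exact this.trans hρ
    have h7 := PB.mul hρ0 (by positivity) (by norm_num)
      h4 (PB.mul hρ0 zero_le_one zero_le_one h5 hQ)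
    rwa [one_mul, mul_one] at h7
  rw [h1]
  have h8 := PB.mul hρ0 (by positivity) (pow_nonneg (inv_nonneg.2 hf.le) _) h3 h2
  have h9 := h8 (2 * h - i)
  rw [← mul_pow, mul_inv_cancel₀ hf.ne', one_pow, one_mul] at h9
  exact h9

end

end

end Pool.Agent.Y926.LZ
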