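import Pool.Agent.Y926.LZ.Coef

/-!
# The linear forms at perturbed values
-/

open Polynomial Pool.Agent.H337R2 Pool.Agent.W165.OZ Pool.Agent.W165.OZ.PAx

namespace Pool.Agent.Y926.LZ

noncomputable section

/-- bound of the coefficients of the basic forms -/
def Ra (n h B r E : ℕ) : ℚ :=
  n * (4 ^ (h + 1) * r * n * (54 * (B : ℚ) ^ 4 * (r : ℚ) ^ 2) ^ (n * E) * (n * 4 ^ n) ^ (2 * h))

/-- bound of the coefficients of the dominating form -/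
def Rb (n h b B r r1 : ℕ) : ℚ :=
  n * (4 ^ (h + 1) * ((r : ℚ) + r1) * n * (((r1 * n : ℕ) : ℚ) * n) ^ (b + 1) *
    (54 * (B : ℚ) ^ 4 * ((r : ℚ) + r1) ^ 2) ^ (n * ((b + 1) * (B ^ 2 * (r + 1 + r1)))) *
    (((r : ℚ) + 1) ^ n * (n * 12 ^ n)) ^ (2 * h))

lemma abs_rhoP_le {n h i : ℕ} {P : ℚ[X]} {A : ℚ}
    (hA : ∀ k < n, |pa (sP n) (mP h) P k i| ≤ A) : |rhoP n h P i| ≤ n * A := by
  unfold rhoP
  refine (Finset.abs_sum_le_sum_abs _ _).trans ?_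
  refine (Finset.sum_le_sum fun k hk => hA k (Finset.mem_range.1 hk)).trans ?_
  rw [Finset.sum_const, Finset.card_range, nsmul_eq_mul]

lemma rho_le_a {n h b B r m E i : ℕ} (hn : 1 ≤ n) (hB : 1 ≤ B) (hr : 2 ≤ r) (hi : i ≤ 2 * h)
    (hE : (b + 1) * (B ^ 2 * (r + 1)) + (m / n + 1) ≤ E) :
    |rhoP n h (KP n h (Phi n b B (r + 1) * Gb n m)) i| ≤ Ra n h B r E := by
  have hn' : (1 : ℚ) ≤ n := by exact_mod_cast hn
  have hr' : (2 : ℚ) ≤ r := by exact_mod_cast hr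
  have hB4 : (1 : ℚ) ≤ (B : ℚ) ^ 4 := one_le_pow₀ (by exact_mod_cast hB)
  have hbase : (1 : ℚ) ≤ 54 * (B : ℚ) ^ 4 * (r : ℚ) ^ 2 := by nlinarith
  unfold Ra
  apply abs_rhoP_le
  intro k hk
  have hk' : (k : ℚ) + 1 ≤ n := by exact_mod_cast hk
  have hk0 : (0 : ℚ) ≤ k := by positivity
  have hc : 2 * (n : ℚ) ≤ (r : ℚ) * n := by nlinarith
  have h1 := Phi_le2 (n := n) (b := b) (T := 2 * h) (B := B) (R := r + 1) (c := -(k : ℚ))
    (c' := (r : ℚ) * n) hn hB hc (by linarith) (by nlinarith) (by push_cast; linarith)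
  have h2 := Gb_le2 (n := n) (T := 2 * h) (B := B) (m := m) (c := -(k : ℚ))
    (c' := (r : ℚ) * n) hn hB hc (by linarith) (by nlinarith)
  have h3 := Nm_mul_le (T := 2 * h) zero_le_one h1 h2
  have hrn : (r : ℚ) * n / n = r := by field_simp
  rw [hrn, ← pow_add, ← mul_add, ← map_mul, ← Polynomial.mul_comp] at h3
  have h4 := h3.trans (pow_le_pow_right₀ hbase (Nat.mul_le_mul_left n hE))
  have h5 := pa_le (h := h) (i := i) hk hi hc h4
  refine h5.trans ?_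
  have h6 := fact_prod hk
  have h7 : 0 ≤ (n.factorial : ℚ) * ∏ k' ∈ (Finset.range n).erase k, (2 / |-(k : ℚ) + k'|) := by
    apply mul_nonneg (by positivity)
    exact Finset.prod_nonneg fun _ _ => by positivity
  calc 4 ^ h * ((n.factorial : ℚ) ^ (2 * h) *
        (4 * ((r : ℚ) * n) * (54 * (B : ℚ) ^ 4 * (r : ℚ) ^ 2) ^ (n * E)) *
        (∏ k' ∈ (Finset.range n).erase k, (2 / |-(k : ℚ) + k'|)) ^ (2 * h))
      = 4 ^ (h + 1) * r * n * (54 * (B : ℚ) ^ 4 * (r : ℚ) ^ 2) ^ (n * E) *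
        ((n.factorial : ℚ) * ∏ k' ∈ (Finset.range n).erase k, (2 / |-(k : ℚ) + k'|)) ^ (2 * h) := by
        rw [mul_pow (n.factorial : ℚ), pow_succ (4 : ℚ) h]
        ring
    _ ≤ _ := by gcongr

lemma rho_le_b {n h b B r r1 d0 i : ℕ} (hn : 1 ≤ n) (hr : 2 ≤ r) (hr1 : 1 ≤ r1) (hd0 : 1 ≤ d0)
    (hd0B : d0 ≤ B) (hi : i ≤ 2 * h) :
    |rhoP n h (KP n h (Phi n b B (r + 1) * Kd n b r (r1 * n) d0)) i| ≤
      |mainv n h b B r (r1 * n) d0| * Rb n h b B r r1 := by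
  have hn' : (1 : ℚ) ≤ n := by exact_mod_cast hn
  have hr' : (2 : ℚ) ≤ r := by exact_mod_cast hr
  have hr1' : (1 : ℚ) ≤ r1 := by exact_mod_cast hr1
  unfold Rb
  rw [mul_left_comm]
  apply abs_rhoP_le
  intro k hk
  have hk' : (k : ℚ) + 1 ≤ n := by exact_mod_cast hk
  have hk0 : (0 : ℚ) ≤ k := by positivity
  have hc0 : (r : ℚ) * n ≤ ((r : ℚ) + r1) * n := by nlinarith
  have hc : 2 * (n : ℚ) ≤ ((r : ℚ) + r1) * n := by nlinarith
  have h1 := Phi_ratio2 (n := n) (b := b) (T := 2 * h) (c := -(k : ℚ)) (c' := ((r : ℚ) + r1) * n)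
    (B := B) (r := r) (d0 := d0) hn hr hd0 hd0B (by linarith) (by nlinarith) hc0
  have h2 := Th_ratio2 (n := n) (b := b) (T := 2 * h) (c := -(k : ℚ)) (c' := ((r : ℚ) + r1) * n)
    (B := B) (r := r) (M := r1 * n) (d0 := d0) hn hr (Nat.le_mul_of_pos_left _ hr1) hd0 hd0B
    (by linarith) (by nlinarith) (by push_cast; linarith)
  have h3 := Nm_mul_le (T := 2 * h) zero_le_one h1 h2
  have hrn : ((r : ℚ) + r1) * n / n = (r : ℚ) + r1 := by field_simp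
  rw [hrn, ← map_mul, ← Polynomial.mul_comp] at h3
  have h5 := pa_le (h := h) (i := i) hk hi hc h3
  refine h5.trans ?_
  have hlb := mainv_lb (n := n) (h := h) (b := b) (B := B) (r := r) (M := r1 * n) (d0 := d0) hn hr hd0
  have h6 := fact_prod hk
  have h7 : 0 ≤ ∏ k' ∈ (Finset.range n).erase k, (2 / |-(k : ℚ) + k'|) :=
    Finset.prod_nonneg fun _ _ => by positivity
  have hexp : n * ((b + 1) * (B ^ 2 * (r + 1))) + (b + 1) * (r1 * n * B ^ 2) =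
      n * ((b + 1) * (B ^ 2 * (r + 1 + r1))) := by ring
  obtain ⟨EE, hEE⟩ : ∃ EE, EE = n * ((b + 1) * (B ^ 2 * (r + 1 + r1))) := ⟨_, rfl⟩
  obtain ⟨A, hA⟩ : ∃ A, A = |(Phi n b B (r + 1)).eval (yq n (x0q r n d0))| := ⟨_, rfl⟩
  obtain ⟨D, hD⟩ : ∃ D, D = |(Th n b r (r1 * n) d0).eval (yq n (x0q r n d0))| := ⟨_, rfl⟩
  have hA0 : 0 ≤ A := by rw [hA]; exact abs_nonneg _
  have hD0 : 0 ≤ D := by rw [hD]; exact abs_nonneg _
  obtain ⟨mv, hmv⟩ : ∃ mv, mv = |mainv n h b B r (r1 * n) d0| := ⟨_, rfl⟩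
  have hmv0 : 0 ≤ mv := by rw [hmv]; exact abs_nonneg _
  obtain ⟨Pk, hPk⟩ : ∃ Pk, Pk = ∏ k' ∈ (Finset.range n).erase k, (2 / |-(k : ℚ) + k'|) := ⟨_, rfl⟩
  rw [← hA, ← hD, ← hmv] at hlb
  rw [← hPk] at h6 h7
  rw [← hA, ← hD, ← hmv, ← hPk]
  have hX : (54 * (B : ℚ) ^ 4 * ((r : ℚ) + r1) ^ 2) ^ (n * ((b + 1) * (B ^ 2 * (r + 1)))) *
      (54 * (B : ℚ) ^ 4 * ((r : ℚ) + r1) ^ 2) ^ ((b + 1) * (r1 * n * B ^ 2)) =
      (54 * (B : ℚ) ^ 4 * ((r : ℚ) + r1) ^ 2) ^ EE := by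
    rw [← pow_add, hexp, ← hEE]
  rw [← hEE]
  have h8 : (n : ℚ) ^ n * Pk ≤ n * 12 ^ n := by
    calc (n : ℚ) ^ n * Pk ≤ (3 ^ n * (n.factorial : ℚ)) * Pk := by
          have := fact_lb n
          gcongr
      _ = 3 ^ n * ((n.factorial : ℚ) * Pk) := by ring
      _ ≤ 3 ^ n * (n * 4 ^ n) := by gcongr
      _ = n * (3 ^ n * 4 ^ n) := by ring
      _ = n * 12 ^ n := by rw [← mul_pow]; norm_num
  calc 4 ^ h * ((n.factorial : ℚ) ^ (2 * h) * (4 * (((r : ℚ) + r1) * n) *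
        (A * (54 * (B : ℚ) ^ 4 * ((r : ℚ) + r1) ^ 2) ^ (n * ((b + 1) * (B ^ 2 * (r + 1)))) *
        (D * (((r1 * n : ℕ) : ℚ) * n) ^ (b + 1) *
        (54 * (B : ℚ) ^ 4 * ((r : ℚ) + r1) ^ 2) ^ ((b + 1) * (r1 * n * B ^ 2))))) * Pk ^ (2 * h))
      = ((n.factorial : ℚ) ^ (2 * h) * A * D) * (4 ^ (h + 1) * ((r : ℚ) + r1) * n *
        (((r1 * n : ℕ) : ℚ) * n) ^ (b + 1) *
        ((54 * (B : ℚ) ^ 4 * ((r : ℚ) + r1) ^ 2) ^ (n * ((b + 1) * (B ^ 2 * (r + 1)))) *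
        (54 * (B : ℚ) ^ 4 * ((r : ℚ) + r1) ^ 2) ^ ((b + 1) * (r1 * n * B ^ 2)))) * Pk ^ (2 * h) := by
        rw [pow_succ (4 : ℚ) h]
        ring
    _ = ((n.factorial : ℚ) ^ (2 * h) * A * D) * (4 ^ (h + 1) * ((r : ℚ) + r1) * n *
        (((r1 * n : ℕ) : ℚ) * n) ^ (b + 1) *
        (54 * (B : ℚ) ^ 4 * ((r : ℚ) + r1) ^ 2) ^ EE) * Pk ^ (2 * h) := by rw [hX]
    _ ≤ (mv * (((r : ℚ) + 1) * n) ^ (2 * h * n)) * (4 ^ (h + 1) * ((r : ℚ) + r1) * n *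
        (((r1 * n : ℕ) : ℚ) * n) ^ (b + 1) *
        (54 * (B : ℚ) ^ 4 * ((r : ℚ) + r1) ^ 2) ^ EE) * Pk ^ (2 * h) := by gcongr
    _ = mv * (4 ^ (h + 1) * ((r : ℚ) + r1) * n * (((r1 * n : ℕ) : ℚ) * n) ^ (b + 1) *
        (54 * (B : ℚ) ^ 4 * ((r : ℚ) + r1) ^ 2) ^ EE *
        (((r : ℚ) + 1) ^ n * ((n : ℚ) ^ n * Pk)) ^ (2 * h)) := by
        rw [mul_comm (2 * h) n, pow_mul (((r : ℚ) + 1) * n) n (2 * h), mul_pow ((r : ℚ) + 1) (n : ℚ) n,
          mul_pow _ _ (2 * h), mul_pow (((r : ℚ) + 1) ^ n) _ (2 * h), mul_pow _ Pk (2 * h)]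
        ring
    _ ≤ _ := by gcongr

/-- the linear form with `y j` in the place of `ζ(j)` -/
def LamZ (n h b B : ℕ) (w : ℕ → ℤ) (y : ℕ → ℝ) (P : ℚ[X]) : ℝ :=
  ∑ i ∈ Finset.Icc 1 (2 * h),
      ((Cb b i * rhoP n h P i * (WW B w (i + b) : ℚ) : ℚ) : ℝ) * y (i + b) -
      ((∑ d ∈ Finset.Icc 1 B, (w d : ℚ) * bet n h b d P : ℚ) : ℝ)

/-- the difference -/
lemma Lam_sub_LamZ {n h b B : ℕ} (hn : 1 ≤ n) (hb : Even b) (hb1 : 1 ≤ b) (w : ℕ → ℤ)
    (y : ℕ → ℝ) (Q : ℚ[X]) (hdeg : 2 * Q.natDegree + 3 ≤ n * (2 * h)) {R : ℚ} {W δ : ℝ}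
    (hR : ∀ i ≤ 2 * h, |rhoP n h (KP n h Q) i| ≤ R)
    (hW : ∀ j ≤ 2 * h + b, |((WW B w j : ℤ) : ℝ)| ≤ W) (hδ : 0 ≤ δ)
    (hy : ∀ j, Odd j → b < j → j ≤ 2 * h + b → WW B w j = 0 ∨ |zr j - y j| ≤ δ) :
    |Lam n h b B w (KP n h Q) - LamZ n h b B w y (KP n h Q)| ≤
      2 * h * (2 ^ (2 * h + b) * R * W * δ) := by
  have hdeg' := degree_KP_lt hdeg
  have hR0 : 0 ≤ R := (abs_nonneg _).trans (hR 0 (by omega))
  have hW0 : 0 ≤ W := (abs_nonneg _).trans (hW 0 (by omega))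
  rw [Lam_eq hb hb1 w _ hdeg']
  unfold LamZ
  rw [sub_sub_sub_cancel_right, ← Finset.sum_sub_distrib]
  refine (Finset.abs_sum_le_sum_abs _ _).trans ?_
  have h1 : ∀ i ∈ Finset.Icc 1 (2 * h),
      |((Cb b i * rhoP n h (KP n h Q) i * (WW B w (i + b) : ℚ) : ℚ) : ℝ) * zr (i + b) -
        ((Cb b i * rhoP n h (KP n h Q) i * (WW B w (i + b) : ℚ) : ℚ) : ℝ) * y (i + b)| ≤
      2 ^ (2 * h + b) * (R : ℝ) * W * δ := by
    intro i hi
    rw [Finset.mem_Icc] at hi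
    rw [← mul_sub, abs_mul]
    have hnn : (0 : ℝ) ≤ 2 ^ (2 * h + b) * (R : ℝ) * W * δ := by
      have : (0 : ℝ) ≤ R := by exact_mod_cast hR0
      positivity
    rcases Nat.even_or_odd i with hi2 | hi2
    · rw [rho_even hn _ hi2 hi.1]
      simpa using hnn
    · rcases hy (i + b) (hi2.add_even hb) (by omega) (by omega) with h3 | h3
      · rw [h3]
        simpa using hnn
      · have a1 : |(Cb b i : ℚ)| ≤ 2 ^ (2 * h + b) := by
          unfold Cb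
          rw [abs_of_nonneg (by positivity)]
          have h4 : (i - 1 + b).choose (i - 1) ≤ 2 ^ (i - 1 + b) := Nat.choose_le_two_pow _ _
          have h5 : 2 ^ (i - 1 + b) ≤ 2 ^ (2 * h + b) := Nat.pow_le_pow_right (by norm_num) (by omega)
          exact_mod_cast h4.trans h5
        have a1' : |((Cb b i : ℚ) : ℝ)| ≤ 2 ^ (2 * h + b) := by exact_mod_cast a1
        have a2' : |((rhoP n h (KP n h Q) i : ℚ) : ℝ)| ≤ (R : ℝ) := by
          exact_mod_cast hR i hi.2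
        have a3 := hW (i + b) (by omega)
        have hR0' : (0 : ℝ) ≤ R := by exact_mod_cast hR0
        push_cast
        rw [abs_mul, abs_mul]
        refine mul_le_mul (mul_le_mul (mul_le_mul a1' a2' (abs_nonneg _) (by positivity)) a3
          (abs_nonneg _) (by positivity)) h3 (abs_nonneg _) (by positivity)
  refine (Finset.sum_le_sum h1).trans ?_
  rw [Finset.sum_const, Nat.card_Icc, nsmul_eq_mul]
  push_cast
  simp

/-- linearity -/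
lemma pfc_sum (s : Finset ℕ) (μ : ℕ → ℕ) (S : Finset ℕ) (a : ℕ → ℚ) (P : ℕ → ℚ[X]) (k j : ℕ) :
    pfc s μ (∑ m ∈ S, C (a m) * P m) k j = ∑ m ∈ S, a m * pfc s μ (P m) k j := by
  unfold pfc
  rw [map_sum, Finset.sum_mul, map_sum]
  refine Finset.sum_congr rfl fun m _ => ?_
  rw [map_mul (TS _), TS_C, mul_assoc, PowerSeries.coeff_C_mul]

lemma pa_sum (s : Finset ℕ) (μ : ℕ → ℕ) (S : Finset ℕ) (a : ℕ → ℚ) (P : ℕ → ℚ[X]) (k i : ℕ) :
    pa s μ (∑ m ∈ S, C (a m) * P m) k i = ∑ m ∈ S, a m * pa s μ (P m) k i := by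
  unfold pa
  split_ifs
  · exact pfc_sum s μ S a P k _
  · simp

lemma rhoP_sum (n h : ℕ) (S : Finset ℕ) (a : ℕ → ℚ) (P : ℕ → ℚ[X]) (i : ℕ) :
    rhoP n h (∑ m ∈ S, C (a m) * P m) i = ∑ m ∈ S, a m * rhoP n h (P m) i := by
  unfold rhoP
  simp_rw [pa_sum, Finset.mul_sum]
  rw [Finset.sum_comm]

lemma bet_sum (n h b d : ℕ) (S : Finset ℕ) (a : ℕ → ℚ) (P : ℕ → ℚ[X]) :
    bet n h b d (∑ m ∈ S, C (a m) * P m) = ∑ m ∈ S, a m * bet n h b d (P m) := by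
  unfold bet
  have h1 : ∀ k ∈ sP n, ∑ i ∈ Finset.Icc 1 (2 * h), pa (sP n) (mP h) (∑ m ∈ S, C (a m) * P m) k i *
      Cb b i * ((d : ℚ) ^ (i + b) * hs (i + b) (d * k)) = ∑ m ∈ S, ∑ i ∈ Finset.Icc 1 (2 * h),
      a m * (pa (sP n) (mP h) (P m) k i * Cb b i * ((d : ℚ) ^ (i + b) * hs (i + b) (d * k))) := by
    intro k _
    rw [Finset.sum_comm]
    refine Finset.sum_congr rfl fun i _ => ?_
    rw [pa_sum, Finset.sum_mul, Finset.sum_mul]
    refine Finset.sum_congr rfl fun m _ => ?_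
    ring
  rw [Finset.sum_congr rfl h1, Finset.sum_comm]
  refine Finset.sum_congr rfl fun m _ => ?_
  rw [Finset.mul_sum]
  refine Finset.sum_congr rfl fun k _ => ?_
  rw [Finset.mul_sum]

lemma LamZ_sum {n h b B : ℕ} (w : ℕ → ℤ) (y : ℕ → ℝ) (S : Finset ℕ) (a : ℕ → ℚ) (P : ℕ → ℚ[X]) :
    LamZ n h b B w y (∑ m ∈ S, C (a m) * P m) = ∑ m ∈ S, (a m : ℝ) * LamZ n h b B w y (P m) := by
  unfold LamZ
  simp_rw [mul_sub]
  rw [Finset.sum_sub_distrib]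
  congr 1
  · simp_rw [rhoP_sum, Finset.mul_sum]
    rw [Finset.sum_comm]
    refine Finset.sum_congr rfl fun i _ => ?_
    push_cast
    rw [Finset.sum_mul, Finset.sum_mul]
    refine Finset.sum_congr rfl fun m _ => ?_
    ring
  · simp_rw [bet_sum, Finset.mul_sum]
    push_cast
    rw [Finset.sum_comm]
    refine Finset.sum_congr rfl fun m _ => ?_
    rw [Finset.mul_sum]
    refine Finset.sum_congr rfl fun d _ => ?_
    ring

/-- **Integrality** of the perturbed forms -/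
theorem LamZ_int {n h b B R : ℕ} (hn : 1 ≤ n) (hR : 1 ≤ R) (hb : Even b) (w : ℕ → ℤ)
    (m : ℕ) (hdeg : 2 * (Phi n b B R * Gb n m).natDegree + 3 ≤ n * (2 * h)) (E : ℕ) (z : ℕ → ℤ)
    (y : ℕ → ℝ)
    (hz : ∀ j, Odd j → b < j → j ≤ 2 * h + b → WW B w j = 0 ∨ (E : ℝ) * y j = z j) :
    ∃ M : ℤ, (E : ℝ) * (Dl n 1 : ℝ) ^ (2 * h + b) *
      LamZ n h b B w y (KP n h (Phi n b B R * Gb n m)) = M := by
  have hdeg' := degree_KP_lt hdeg
  unfold LamZ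
  set P := KP n h (Phi n b B R * Gb n m) with hP
  -- the rational number
  obtain ⟨x, hx⟩ : ∃ x : ℚ, x = (Dl n 1 : ℚ) ^ (2 * h + b) *
      (∑ i ∈ Finset.Icc 1 (2 * h), Cb b i * rhoP n h P i * (WW B w (i + b) : ℚ) * (z (i + b) : ℚ) -
        (E : ℚ) * ∑ d ∈ Finset.Icc 1 B, (w d : ℚ) * bet n h b d P) := ⟨_, rfl⟩
  have h1 : (E : ℝ) * (Dl n 1 : ℝ) ^ (2 * h + b) *
      (∑ i ∈ Finset.Icc 1 (2 * h),
      ((Cb b i * rhoP n h P i * (WW B w (i + b) : ℚ) : ℚ) : ℝ) * y (i + b) -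
      ((∑ d ∈ Finset.Icc 1 B, (w d : ℚ) * bet n h b d P : ℚ) : ℝ)) = (x : ℝ) := by
    rw [hx]
    have h2 : ∀ i ∈ Finset.Icc 1 (2 * h),
        (E : ℝ) * (((Cb b i * rhoP n h P i * (WW B w (i + b) : ℚ) : ℚ) : ℝ) * y (i + b)) =
        ((Cb b i * rhoP n h P i * (WW B w (i + b) : ℚ) * (z (i + b) : ℚ) : ℚ) : ℝ) := by
      intro i hi
      rw [Finset.mem_Icc] at hi
      rcases Nat.even_or_odd i with hi2 | hi2
      · rw [hP, rho_even hn _ hi2 hi.1]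
        simp
      · rcases hz (i + b) (hi2.add_even hb) (by omega) (by omega) with h3 | h3
        · rw [h3]; simp
        · push_cast
          rw [← h3]
          ring
    have h4 : (E : ℝ) * ∑ i ∈ Finset.Icc 1 (2 * h),
        ((Cb b i * rhoP n h P i * (WW B w (i + b) : ℚ) : ℚ) : ℝ) * y (i + b) =
        ((∑ i ∈ Finset.Icc 1 (2 * h),
          Cb b i * rhoP n h P i * (WW B w (i + b) : ℚ) * (z (i + b) : ℚ) : ℚ) : ℝ) := by
      rw [Finset.mul_sum, Finset.sum_congr rfl h2]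
      push_cast
      rfl
    rw [mul_right_comm, mul_sub, h4]
    push_cast
    ring
  rw [h1]
  have h5 : x.den = 1 := by
    apply PRaux.int_of_padicNorm
    intro p hp
    have hρ : (1 : ℚ) ≤ (p : ℚ) ^ Nat.log p n := rho_ge n
    have hρ0 : (0 : ℚ) < (p : ℚ) ^ Nat.log p n := by linarith
    have hD : padicNorm p (Dl n 1 : ℚ) ≤ ((p : ℚ) ^ Nat.log p n)⁻¹ := by
      by_cases hpn : p ≤ n
      · rw [pn_Dl hpn, one_mul]
      · rw [Nat.log_of_lt (by omega), pow_zero, inv_one]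
        exact padicNorm.of_nat _
    have hPa : ∀ k < n, ∀ i : ℕ, i ≤ 2 * h → padicNorm p (pa (sP n) (mP h) P k i) ≤
        ((p : ℚ) ^ Nat.log p n) ^ (2 * h - i) := by
      intro k hk i hi
      exact pa_bound hk _ hi (PB_PG hn)
    have h6 : padicNorm p (∑ i ∈ Finset.Icc 1 (2 * h), Cb b i * rhoP n h P i *
        (WW B w (i + b) : ℚ) * (z (i + b) : ℚ) -
        (E : ℚ) * ∑ d ∈ Finset.Icc 1 B, (w d : ℚ) * bet n h b d P) ≤
        ((p : ℚ) ^ Nat.log p n) ^ (2 * h + b) := by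
      refine padicNorm.sub.trans (max_le ?_ ?_)
      · apply padicNorm.sum_le' _ (by positivity)
        intro i hi
        rw [Finset.mem_Icc] at hi
        rw [padicNorm.mul, padicNorm.mul, padicNorm.mul]
        have a1 := pn_Cb (p := p) b i
        have a2 := rho_bound (p := p) hi.2 hPa
        have a3 := padicNorm.of_int (p := p) (WW B w (i + b))
        have a4 := padicNorm.of_int (p := p) (z (i + b))
        have a5 : ((p : ℚ) ^ Nat.log p n) ^ (2 * h) ≤ ((p : ℚ) ^ Nat.log p n) ^ (2 * h + b) :=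
          pow_le_pow_right₀ hρ (by omega)
        calc _ ≤ 1 * ((p : ℚ) ^ Nat.log p n) ^ (2 * h) * 1 * 1 := by
              refine mul_le_mul (mul_le_mul (mul_le_mul a1 a2 (padicNorm.nonneg _) zero_le_one) a3
                (padicNorm.nonneg _) (by positivity)) a4 (padicNorm.nonneg _) (by positivity)
          _ ≤ _ := by rw [one_mul, mul_one, mul_one]; exact a5
      · rw [padicNorm.mul]
        have a1 := padicNorm.of_nat (p := p) E
        have a2 : padicNorm p (∑ d ∈ Finset.Icc 1 B, (w d : ℚ) * bet n h b d P) ≤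
            ((p : ℚ) ^ Nat.log p n) ^ (2 * h + b) := by
          apply padicNorm.sum_le' _ (by positivity)
          intro d hd
          rw [Finset.mem_Icc] at hd
          rw [padicNorm.mul]
          have a3 := padicNorm.of_int (p := p) (w d)
          have a4 := bet_bound (p := p) (n := n) (h := h) (b := b) (d := d) hb hd.1 hdeg' hPa
            fun v hv hdv => Phi_zero hn hR hd.1 hd.2 _ hv hdv
          calc _ ≤ 1 * ((p : ℚ) ^ Nat.log p n) ^ (2 * h + b) :=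
                mul_le_mul a3 a4 (padicNorm.nonneg _) zero_le_one
            _ = _ := one_mul _
        calc _ ≤ 1 * ((p : ℚ) ^ Nat.log p n) ^ (2 * h + b) :=
              mul_le_mul a1 a2 (padicNorm.nonneg _) zero_le_one
          _ = _ := one_mul _
    rw [hx, padicNorm.mul, pn_pow]
    have h7 : (padicNorm p (Dl n 1 : ℚ)) ^ (2 * h + b) ≤ (((p : ℚ) ^ Nat.log p n)⁻¹) ^ (2 * h + b) :=
      pow_le_pow_left₀ (padicNorm.nonneg _) hD _
    calc _ ≤ (((p : ℚ) ^ Nat.log p n)⁻¹) ^ (2 * h + b) * ((p : ℚ) ^ Nat.log p n) ^ (2 * h + b) :=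
          mul_le_mul h7 h6 (padicNorm.nonneg _) (by positivity)
      _ = 1 := by rw [← mul_pow, inv_mul_cancel₀ hρ0.ne', one_pow]
  refine ⟨x.num, ?_⟩
  have h8 : (x : ℚ) = (x.num : ℚ) := by
    have := Rat.mul_den_eq_num x
    rw [h5] at this
    simpa using this
  conv_lhs => rw [h8]
  push_cast
  rfl

end

end Pool.Agent.Y926.LZ
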