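import Pool.Agent.Y926.LZ.Bd

/-!
# A kernel with a dominating term
-/

open Polynomial Pool.Agent.H337R2 Pool.Agent.W165.OZ Pool.Agent.W165.OZ.PAx

namespace Pool.Agent.Y926.LZ

noncomputable section

/-- lower bound of a product over a run -/
lemma run_lb {D M : ℕ} (hD : 1 ≤ D) {ξ : ℚ} (hξ : ∃ a : ℤ, ξ = a / D) (h0 : ∀ j < M, ξ + j ≠ 0) :
    (M.factorial : ℚ) / (D : ℚ) ^ (2 * M) ≤ |∏ j ∈ Finset.range M, (ξ + j)| := by
  have hD0 : (0 : ℚ) < D := by exact_mod_cast hD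
  have hf : (0 : ℚ) < (M.factorial : ℚ) := by exact_mod_cast M.factorial_pos
  have h1 : ∀ p : ℕ, [Fact p.Prime] →
      padicNorm p (((D : ℚ) ^ (2 * M) / M.factorial) * ∏ j ∈ Finset.range M, (ξ + j)) ≤ 1 := by
    intro p hp
    have h2 := PB_Poch_gen (p := p) (rho_ge M) (rho_N (n := M)) le_rfl hD hξ 0
    rw [pow_zero, mul_one, PowerSeries.coeff_zero_eq_constantCoeff_apply, map_mul] at h2
    unfold Poch at h2
    rw [map_prod] at h2
    simp only [PowerSeries.constantCoeff_C, map_add, PowerSeries.constantCoeff_X, zero_add] at h2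
    exact h2
  have hne : ((D : ℚ) ^ (2 * M) / M.factorial) * ∏ j ∈ Finset.range M, (ξ + j) ≠ 0 := by
    apply mul_ne_zero (by positivity)
    exact Finset.prod_ne_zero_iff.2 fun j hj => h0 j (Finset.mem_range.1 hj)
  have h3 := PRaux.one_le_abs h1 hne
  rw [abs_mul, abs_of_pos (by positivity : (0 : ℚ) < (D : ℚ) ^ (2 * M) / M.factorial)] at h3
  rw [div_le_iff₀ (by positivity)]
  rw [div_mul_eq_mul_div, le_div_iff₀ hf] at h3
  linarith

lemma yq_sub (n : ℕ) (x y : ℚ) : yq n x - yq n y = (x - y) * (x + y + ((n : ℚ) - 1)) := by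
  unfold yq; ring

lemma YB_eval (n : ℕ) (x x' : ℚ) (m : ℕ) : (YB n x' m).eval (yq n x) =
    ∏ j ∈ Finset.range m, ((x - (x' + j)) * (x + (x' + j) + ((n : ℚ) - 1))) := by
  unfold YB
  rw [Polynomial.eval_prod]
  refine Finset.prod_congr rfl fun j _ => ?_
  rw [Polynomial.eval_sub, Polynomial.eval_X, Polynomial.eval_C, yq_sub]

lemma YB_lb {n m D : ℕ} (hD : 1 ≤ D) {x x' : ℚ} (hξ : ∃ a : ℤ, x' - x = a / D)
    (hne : ∀ j < m, x' - x + j ≠ 0) (hpos : ∀ j < m, (n : ℚ) ≤ x + (x' + j) + ((n : ℚ) - 1)) :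
    (m.factorial : ℚ) / (D : ℚ) ^ (2 * m) * (n : ℚ) ^ m ≤ |(YB n x' m).eval (yq n x)| := by
  rw [YB_eval, Finset.prod_mul_distrib, abs_mul]
  have h1 := run_lb hD hξ hne
  have h2 : |∏ j ∈ Finset.range m, (x - (x' + (j : ℚ)))| = |∏ j ∈ Finset.range m, (x' - x + j)| := by
    rw [Finset.abs_prod, Finset.abs_prod]
    refine Finset.prod_congr rfl fun j _ => ?_
    rw [← abs_neg]
    congr 1
    ring
  have h3 : (n : ℚ) ^ m ≤ |∏ j ∈ Finset.range m, (x + (x' + (j : ℚ)) + ((n : ℚ) - 1))| := by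
    have hn0 : (0 : ℚ) ≤ n := by positivity
    rw [Finset.abs_prod]
    calc (n : ℚ) ^ m = ∏ _j ∈ Finset.range m, (n : ℚ) := by rw [Finset.prod_const, Finset.card_range]
      _ ≤ _ := by
        apply Finset.prod_le_prod (fun _ _ => hn0)
        intro j hj
        exact (hpos j (Finset.mem_range.1 hj)).trans (le_abs_self _)
  rw [h2]
  exact mul_le_mul h1 h3 (by positivity) (abs_nonneg _)

variable {n b h : ℕ} {c : ℚ}

lemma run_ratio {m D B : ℕ} (hn : 1 ≤ n) (hnm : n ≤ m) (hD : 1 ≤ D) (hDB : D ≤ B ^ 2) :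
    (6 * c ^ 2) ^ m ≤ (m.factorial : ℚ) / (D : ℚ) ^ (2 * m) * (n : ℚ) ^ m *
      (54 * (B : ℚ) ^ 4 * (c / n) ^ 2) ^ m := by
  have hn' : (0 : ℚ) < n := by exact_mod_cast hn
  have hD' : (0 : ℚ) < D := by exact_mod_cast hD
  have h1 : (n : ℚ) ^ m ≤ 3 ^ m * (m.factorial : ℚ) := by
    refine le_trans ?_ (fact_lb m)
    exact pow_le_pow_left₀ hn'.le (by exact_mod_cast hnm) _
  have h2 : (D : ℚ) ^ 2 ≤ (B : ℚ) ^ 4 := by
    have : D ^ 2 ≤ (B ^ 2) ^ 2 := Nat.pow_le_pow_left hDB 2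
    rw [← pow_mul] at this
    exact_mod_cast this
  rw [div_mul_eq_mul_div, div_mul_eq_mul_div, le_div_iff₀ (by positivity)]
  have h3 : (0 : ℚ) < 3 ^ m := by positivity
  rw [← mul_le_mul_iff_right₀ h3]
  calc 3 ^ m * ((6 * c ^ 2) ^ m * (D : ℚ) ^ (2 * m)) = (18 * c ^ 2 * (D : ℚ) ^ 2) ^ m := by
        rw [pow_mul, ← mul_pow, ← mul_pow]
        congr 1
        ring
    _ ≤ (54 * (c ^ 2) * (B : ℚ) ^ 4) ^ m := by
        apply pow_le_pow_left₀ (by positivity)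
        have : 0 ≤ c ^ 2 := sq_nonneg c
        nlinarith [mul_nonneg this (sq_nonneg (D : ℚ))]
    _ = (n : ℚ) ^ m * (n : ℚ) ^ m * (54 * (B : ℚ) ^ 4 * (c / n) ^ 2) ^ m := by
        rw [← mul_pow, ← mul_pow]
        congr 1
        field_simp
    _ ≤ (3 ^ m * (m.factorial : ℚ)) * (n : ℚ) ^ m * (54 * (B : ℚ) ^ 4 * (c / n) ^ 2) ^ m := by
        gcongr
    _ = _ := by ring

lemma YB_ratio {m D B : ℕ} (hn : 1 ≤ n) (hnm : n ≤ m) (hD : 1 ≤ D) (hDB : D ≤ B ^ 2)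
    (hc : 2 * (n : ℚ) ≤ c) {x x' : ℚ} (hx1 : -(n : ℚ) ≤ x') (hx2 : x' + m ≤ c + 1)
    (hξ : ∃ a : ℤ, x' - x = a / D)
    (hne : ∀ j < m, x' - x + j ≠ 0) (hpos : ∀ j < m, (n : ℚ) ≤ x + (x' + j) + ((n : ℚ) - 1)) :
    Nm b 1 (TS c ((YB n x' m).comp (yp n))) ≤
      |(YB n x' m).eval (yq n x)| * (54 * (B : ℚ) ^ 4 * (c / n) ^ 2) ^ m := by
  refine (Nm_YB hn hc hx1 hx2).trans ?_
  refine (run_ratio hn hnm hD hDB).trans ?_
  exact mul_le_mul_of_nonneg_right (YB_lb hD hξ hne hpos) (by positivity)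

lemma NB_ratio {D B d : ℕ} (hn : 1 ≤ n) (hD : 1 ≤ D) (hDB : D ≤ B ^ 2)
    (hc : 2 * (n : ℚ) ≤ c) {x x' : ℚ} (hx1 : -(n : ℚ) ≤ x') (hx2 : x' + n ≤ c + 1)
    (hξ : ∃ a : ℤ, x' - x = a / D)
    (hne : ∀ j < n, x' - x + j ≠ 0) (hpos : ∀ j < n, (n : ℚ) ≤ x + (x' + j) + ((n : ℚ) - 1)) :
    Nm b 1 (TS c ((NB n d x' n).comp (yp n))) ≤
      |(NB n d x' n).eval (yq n x)| * (54 * (B : ℚ) ^ 4 * (c / n) ^ 2) ^ n := by
  unfold NB
  rw [Polynomial.mul_comp, Polynomial.C_comp, map_mul, TS_C, Polynomial.eval_mul,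
    Polynomial.eval_C, abs_mul, mul_assoc]
  refine Nm_mul_le zero_le_one ?_ (YB_ratio hn le_rfl hD hDB hc hx1 hx2 hξ hne hpos)
  rw [Nm_C]

/-- the exceptional node -/
def x0q (r n d0 : ℕ) : ℚ := (r : ℚ) * n + ((1 % d0 : ℕ) : ℚ) / d0

lemma e0_lt {d0 : ℕ} (hd0 : 1 ≤ d0) : ((1 % d0 : ℕ) : ℚ) / d0 < 1 := by
  rw [div_lt_one (by exact_mod_cast hd0)]
  exact_mod_cast Nat.mod_lt 1 hd0

lemma e0_nonneg {d0 : ℕ} : 0 ≤ ((1 % d0 : ℕ) : ℚ) / d0 := by positivity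

lemma Phi_ratio {B r d0 : ℕ} (hn : 1 ≤ n) (hr : 2 ≤ r) (hd0 : 1 ≤ d0) (hd0B : d0 ≤ B)
    (hcr : (r : ℚ) * n ≤ c) :
    Nm b 1 (TS c ((Phi n b B (r + 1)).comp (yp n))) ≤
      |(Phi n b B (r + 1)).eval (yq n (x0q r n d0))| *
        (54 * (B : ℚ) ^ 4 * (c / n) ^ 2) ^ (n * ((b + 1) * (B ^ 2 * (r + 1)))) := by
  have hn' : (1 : ℚ) ≤ n := by exact_mod_cast hn
  have hr' : (2 : ℚ) ≤ r := by exact_mod_cast hr
  have hc : 2 * (n : ℚ) ≤ c := by nlinarith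
  have hB4 : (1 : ℚ) ≤ (B : ℚ) ^ 4 := one_le_pow₀ (by exact_mod_cast hd0.trans hd0B)
  have hτ : 2 ≤ c / n := by rw [le_div_iff₀ (by linarith)]; linarith
  have hbase : (1 : ℚ) ≤ 54 * (B : ℚ) ^ 4 * (c / n) ^ 2 := by nlinarith
  have hd0' : (0 : ℚ) < d0 := by exact_mod_cast hd0
  have h1 : Nm b 1 (TS c ((Phi n b B (r + 1)).comp (yp n))) ≤ ∏ q ∈ Ix B (r + 1),
      (|(NB n q.1 (stq n q) n).eval (yq n (x0q r n d0))| *
        (54 * (B : ℚ) ^ 4 * (c / n) ^ 2) ^ n) ^ (b + 1) := by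
    unfold Phi
    rw [Polynomial.prod_comp, map_prod]
    refine Nm_prod (T := b) (ρ := 1) zero_le_one _ _ _ fun q hq => ?_
    rw [Polynomial.pow_comp, map_pow]
    have hq' := hq
    rw [mem_Ix] at hq
    apply Nm_pow zero_le_one
    have hd : (1 : ℚ) ≤ ((q.1 : ℕ) : ℚ) := by exact_mod_cast hq.1.1
    have hl : (((q.2.1 : ℕ) : ℚ)) / ((q.1 : ℕ) : ℚ) < 1 := by
      rw [div_lt_one (by linarith)]
      exact_mod_cast hq.2.1
    have hl0 : 0 ≤ (((q.2.1 : ℕ) : ℚ)) / ((q.1 : ℕ) : ℚ) := by positivity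
    have hc2 : (((q.2.2 : ℕ) : ℚ)) ≤ r := by exact_mod_cast Nat.lt_succ_iff.1 hq.2.2
    have hc0 : (0 : ℚ) ≤ ((q.2.2 : ℕ) : ℚ) := by positivity
    have he1 := e0_lt hd0
    have he0 := e0_nonneg (d0 := d0)
    refine NB_ratio (D := q.1 * d0) hn ?_ ?_ hc ?_ ?_ ?_ ?_ ?_
    · exact Nat.mul_pos hq.1.1 hd0
    · rw [pow_two]
      exact Nat.mul_le_mul hq.1.2 hd0B
    · unfold stq
      nlinarith
    · unfold stq
      nlinarith
    · obtain ⟨e, he⟩ : ∃ e : ℕ, e = 1 % d0 := ⟨_, rfl⟩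
      refine ⟨(((q.2.2 : ℤ) - 1) * n - r * n) * (q.1 * d0) + q.2.1 * d0 - e * q.1, ?_⟩
      unfold stq x0q
      rw [← he]
      have : (q.1 : ℚ) ≠ 0 := by linarith
      push_cast
      field_simp
      ring
    · intro j hj
      have hj' : (j : ℚ) + 1 ≤ n := by exact_mod_cast hj
      unfold stq x0q
      apply ne_of_lt
      nlinarith
    · intro j hj
      have hj' : (0 : ℚ) ≤ j := by positivity
      unfold stq x0q
      nlinarith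
  refine h1.trans ?_
  have h2 : ∏ q ∈ Ix B (r + 1), (|(NB n q.1 (stq n q) n).eval (yq n (x0q r n d0))| *
        (54 * (B : ℚ) ^ 4 * (c / n) ^ 2) ^ n) ^ (b + 1) =
      |(Phi n b B (r + 1)).eval (yq n (x0q r n d0))| *
        (54 * (B : ℚ) ^ 4 * (c / n) ^ 2) ^ (n * ((b + 1) * (Ix B (r + 1)).card)) := by
    unfold Phi
    rw [Polynomial.eval_prod, Finset.abs_prod]
    have h3 : ∀ q ∈ Ix B (r + 1), (|(NB n q.1 (stq n q) n).eval (yq n (x0q r n d0))| *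
        (54 * (B : ℚ) ^ 4 * (c / n) ^ 2) ^ n) ^ (b + 1) =
        |((NB n q.1 (stq n q) n) ^ (b + 1)).eval (yq n (x0q r n d0))| *
        ((54 * (B : ℚ) ^ 4 * (c / n) ^ 2) ^ n) ^ (b + 1) := by
      intro q _
      rw [Polynomial.eval_pow, abs_pow, mul_pow]
    rw [Finset.prod_congr rfl h3, Finset.prod_mul_distrib, Finset.prod_const, ← pow_mul, ← pow_mul,
      mul_assoc]
  rw [h2]
  apply mul_le_mul_of_nonneg_left _ (abs_nonneg _)
  apply pow_le_pow_right₀ hbase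
  exact Nat.mul_le_mul_left _ (Nat.mul_le_mul_left _ (card_Ix_le B (r + 1)))

/-- the lines -/
def JJ (d0 : ℕ) : Finset (Σ _ : ℕ, ℕ) := (Finset.Icc 1 d0).sigma fun d => Finset.range d

lemma mem_JJ {d0 : ℕ} {q : Σ _ : ℕ, ℕ} : q ∈ JJ d0 ↔ (1 ≤ q.1 ∧ q.1 ≤ d0) ∧ q.2 < q.1 := by
  unfold JJ
  rw [Finset.mem_sigma, Finset.mem_Icc, Finset.mem_range]

lemma card_JJ_le (d0 : ℕ) : (JJ d0).card ≤ d0 ^ 2 := by
  unfold JJ
  rw [Finset.card_sigma]
  calc ∑ d ∈ Finset.Icc 1 d0, (Finset.range d).card ≤ ∑ d ∈ Finset.Icc 1 d0, d0 := by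
        apply Finset.sum_le_sum
        intro d hd
        rw [Finset.mem_Icc] at hd
        rw [Finset.card_range]
        exact hd.2
    _ = _ := by rw [Finset.sum_const, Nat.card_Icc, smul_eq_mul]; simp; ring

/-- the free factor, without the exceptional zero -/
def Th (n b r M d0 : ℕ) : ℚ[X] :=
  YB n (x0q r n d0 + 1) (M - 1) ^ (b + 1) *
    ∏ q ∈ (JJ d0).erase ⟨d0, 1 % d0⟩, YB n ((r : ℚ) * n + (q.2 : ℚ) / (q.1 : ℕ)) M ^ (b + 1)

lemma q0_mem {d0 : ℕ} (hd0 : 1 ≤ d0) : (⟨d0, 1 % d0⟩ : Σ _ : ℕ, ℕ) ∈ JJ d0 := by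
  rw [mem_JJ]
  exact ⟨⟨hd0, le_rfl⟩, Nat.mod_lt _ hd0⟩

lemma line_ne {d0 : ℕ} (hd0 : 1 ≤ d0) {q : Σ _ : ℕ, ℕ} (hq : q ∈ (JJ d0).erase ⟨d0, 1 % d0⟩)
    (j : ℕ) : (q.2 : ℚ) / (q.1 : ℕ) - ((1 % d0 : ℕ) : ℚ) / d0 + j ≠ 0 := by
  obtain ⟨d, l⟩ := q
  rw [Finset.mem_erase, mem_JJ] at hq
  obtain ⟨hne, ⟨hd1, hd2⟩, hl⟩ := hq
  simp only at hd1 hd2 hl ⊢
  have hd' : (0 : ℚ) < d := by exact_mod_cast hd1
  have hd0' : (0 : ℚ) < d0 := by exact_mod_cast hd0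
  intro h0
  apply hne
  have h1 : (l : ℚ) * d0 + j * (d * d0) = ((1 % d0 : ℕ) : ℚ) * d := by
    field_simp at h0
    linarith
  have h2 : l * d0 + j * (d * d0) = (1 % d0) * d := by exact_mod_cast h1
  have h3 : (1 % d0) < d0 := Nat.mod_lt _ hd0
  have hj : j = 0 := by
    by_contra hj
    have h4 : d * d0 ≤ j * (d * d0) := Nat.le_mul_of_pos_left _ (Nat.pos_of_ne_zero hj)
    have h5 : (1 % d0) * d < d0 * d := Nat.mul_lt_mul_of_pos_right h3 hd1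
    have h6 : d0 * d = d * d0 := Nat.mul_comm _ _
    omega
  rw [hj, Nat.zero_mul, Nat.add_zero] at h2
  rcases Nat.lt_or_ge 1 d0 with h4 | h4
  · have h5 : 1 % d0 = 1 := Nat.mod_eq_of_lt h4
    rw [h5, Nat.one_mul] at h2
    have hl0 : l ≠ 0 := by
      rintro rfl
      omega
    have h6 : d0 ≤ l * d0 := Nat.le_mul_of_pos_left _ (Nat.pos_of_ne_zero hl0)
    have h7 : d = d0 := by omega
    have h8 : l = 1 := by
      have h9 : l * d0 = 1 * d0 := by omega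
      exact Nat.eq_of_mul_eq_mul_right hd0 h9
    rw [h7, h8, h5]
  · have h5 : d0 = 1 := by omega
    subst h5
    have h6 : d = 1 := by omega
    have h7 : l = 0 := by omega
    rw [h6, h7]

lemma Th_ratio {B r M d0 : ℕ} (hn : 1 ≤ n) (hr : 2 ≤ r) (hM : n ≤ M) (hd0 : 1 ≤ d0) (hd0B : d0 ≤ B)
    (hcr : (r : ℚ) * n + M ≤ c) :
    Nm b 1 (TS c (((X - C (yq n (x0q r n d0))) ^ b * Th n b r M d0).comp (yp n))) ≤
      |(Th n b r M d0).eval (yq n (x0q r n d0))| * ((M : ℚ) * n) ^ (b + 1) *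
        (54 * (B : ℚ) ^ 4 * (c / n) ^ 2) ^ ((b + 1) * (M * B ^ 2)) := by
  have hn' : (1 : ℚ) ≤ n := by exact_mod_cast hn
  have hr' : (2 : ℚ) ≤ r := by exact_mod_cast hr
  have hM' : (n : ℚ) ≤ M := by exact_mod_cast hM
  have hc : 2 * (n : ℚ) ≤ c := by nlinarith
  have hB4 : (1 : ℚ) ≤ (B : ℚ) ^ 4 := one_le_pow₀ (by exact_mod_cast hd0.trans hd0B)
  have hτ : 2 ≤ c / n := by rw [le_div_iff₀ (by linarith)]; linarith
  have hbase : (1 : ℚ) ≤ 54 * (B : ℚ) ^ 4 * (c / n) ^ 2 := by nlinarith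
  have hd0' : (0 : ℚ) < d0 := by exact_mod_cast hd0
  have he1 := e0_lt hd0
  have he0 := e0_nonneg (d0 := d0)
  have h6 : (1 : ℚ) ≤ 6 * c ^ 2 := by nlinarith
  set XX : ℚ := 54 * (B : ℚ) ^ 4 * (c / n) ^ 2 with hXX
  -- the exceptional line
  have h1 : Nm b 1 (TS c ((X - C (yq n (x0q r n d0))).comp (yp n))) ≤ 6 * c ^ 2 := by
    apply Nm_fac hn hc
    · unfold x0q; nlinarith
    · unfold x0q; nlinarith
  have hM1 : ((M - 1 : ℕ) : ℚ) + 1 = M := by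
    have : M - 1 + 1 = M := by omega
    exact_mod_cast this
  have h2 : Nm b 1 (TS c ((YB n (x0q r n d0 + 1) (M - 1)).comp (yp n))) ≤ (6 * c ^ 2) ^ (M - 1) := by
    apply Nm_YB hn hc
    · unfold x0q; nlinarith
    · unfold x0q; nlinarith
  have h3 : (6 * c ^ 2) ^ M ≤ |(YB n (x0q r n d0 + 1) (M - 1)).eval (yq n (x0q r n d0))| *
      ((M : ℚ) * n) * XX ^ M := by
    have h4 := run_ratio (c := c) (n := n) (m := M) (D := 1) (B := B) hn hM le_rfl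
      (Nat.one_le_pow _ _ (hd0.trans hd0B))
    have h5 := YB_lb (n := n) (m := M - 1) (D := 1) (x := x0q r n d0) (x' := x0q r n d0 + 1) le_rfl
      ⟨1, by push_cast; ring⟩ (fun j _ => by
        have : (0 : ℚ) ≤ j := by positivity
        apply ne_of_gt
        linarith) (fun j _ => by
        have : (0 : ℚ) ≤ j := by positivity
        unfold x0q
        nlinarith)
    rw [Nat.cast_one, one_pow, div_one] at h4 h5
    have h7 : (M.factorial : ℚ) * (n : ℚ) ^ M =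
        (((M - 1).factorial : ℚ) * (n : ℚ) ^ (M - 1)) * ((M : ℚ) * n) := by
      have e1 : M.factorial = M * (M - 1).factorial := by
        rw [Nat.mul_factorial_pred (by omega)]
      have e2 : (n : ℚ) ^ M = (n : ℚ) ^ (M - 1) * n := by
        rw [← pow_succ]; congr 1; omega
      rw [e1, e2]
      push_cast
      ring
    rw [h7] at h4
    refine h4.trans ?_
    gcongr
  have h4 : Nm b 1 (TS c (((X - C (yq n (x0q r n d0))) ^ b *
      YB n (x0q r n d0 + 1) (M - 1) ^ (b + 1)).comp (yp n))) ≤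
      (|(YB n (x0q r n d0 + 1) (M - 1)).eval (yq n (x0q r n d0))| *
      ((M : ℚ) * n) * XX ^ M) ^ (b + 1) := by
    rw [Polynomial.mul_comp, Polynomial.pow_comp, Polynomial.pow_comp, map_mul, map_pow, map_pow]
    refine (Nm_mul_le zero_le_one (Nm_pow zero_le_one h1 b)
      (Nm_pow zero_le_one h2 (b + 1))).trans ?_
    refine le_trans ?_ (pow_le_pow_left₀ (by positivity) h3 (b + 1))
    rw [← pow_mul, ← pow_mul, ← pow_add]
    apply pow_le_pow_right₀ h6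
    have e1 : M = (M - 1) + 1 := by omega
    have e2 : M * (b + 1) = (M - 1) * (b + 1) + (b + 1) := by
      conv_lhs => rw [e1]
      ring
    omega
  -- the other lines
  have h5 : Nm b 1 (TS c ((∏ q ∈ (JJ d0).erase ⟨d0, 1 % d0⟩,
      YB n ((r : ℚ) * n + (q.2 : ℚ) / (q.1 : ℕ)) M ^ (b + 1)).comp (yp n))) ≤
      ∏ q ∈ (JJ d0).erase ⟨d0, 1 % d0⟩,
      (|(YB n ((r : ℚ) * n + (q.2 : ℚ) / (q.1 : ℕ)) M).eval (yq n (x0q r n d0))| * XX ^ M) ^ (b + 1) := by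
    rw [Polynomial.prod_comp, map_prod]
    refine Nm_prod (T := b) (ρ := 1) zero_le_one _ _ _ fun q hq => ?_
    rw [Polynomial.pow_comp, map_pow]
    have hq' := hq
    rw [Finset.mem_erase, mem_JJ] at hq
    apply Nm_pow zero_le_one
    have hd : (1 : ℚ) ≤ ((q.1 : ℕ) : ℚ) := by exact_mod_cast hq.2.1.1
    have hl : (((q.2 : ℕ) : ℚ)) / ((q.1 : ℕ) : ℚ) < 1 := by
      rw [div_lt_one (by linarith)]
      exact_mod_cast hq.2.2
    have hl0 : 0 ≤ (((q.2 : ℕ) : ℚ)) / ((q.1 : ℕ) : ℚ) := by positivity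
    refine YB_ratio (D := q.1 * d0) hn hM ?_ ?_ hc ?_ ?_ ?_ ?_ ?_
    · exact Nat.mul_pos hq.2.1.1 hd0
    · rw [pow_two]
      exact Nat.mul_le_mul (hq.2.1.2.trans hd0B) hd0B
    · nlinarith
    · linarith
    · obtain ⟨e, he⟩ : ∃ e : ℕ, e = 1 % d0 := ⟨_, rfl⟩
      refine ⟨q.2 * d0 - e * q.1, ?_⟩
      unfold x0q
      rw [← he]
      have : (q.1 : ℚ) ≠ 0 := by linarith
      push_cast
      field_simp
      ring
    · intro j _
      have h8 := line_ne hd0 hq' j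
      unfold x0q
      intro h9
      apply h8
      linarith
    · intro j _
      have hj' : (0 : ℚ) ≤ j := by positivity
      unfold x0q
      nlinarith
  have h7 := Nm_mul_le (T := b) zero_le_one h4 h5
  rw [← map_mul, ← Polynomial.mul_comp] at h7
  have h8 : (X - C (yq n (x0q r n d0))) ^ b * YB n (x0q r n d0 + 1) (M - 1) ^ (b + 1) *
      ∏ q ∈ (JJ d0).erase ⟨d0, 1 % d0⟩, YB n ((r : ℚ) * n + (q.2 : ℚ) / (q.1 : ℕ)) M ^ (b + 1) =
      (X - C (yq n (x0q r n d0))) ^ b * Th n b r M d0 := by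
    unfold Th
    rw [mul_assoc]
  rw [h8] at h7
  refine h7.trans ?_
  have h9 : (∏ q ∈ (JJ d0).erase ⟨d0, 1 % d0⟩,
      (|(YB n ((r : ℚ) * n + (q.2 : ℚ) / (q.1 : ℕ)) M).eval (yq n (x0q r n d0))| * XX ^ M) ^ (b + 1)) =
      |(∏ q ∈ (JJ d0).erase ⟨d0, 1 % d0⟩,
        YB n ((r : ℚ) * n + (q.2 : ℚ) / (q.1 : ℕ)) M ^ (b + 1)).eval (yq n (x0q r n d0))| *
      (XX ^ (M * (b + 1))) ^ ((JJ d0).card - 1) := by
    rw [Polynomial.eval_prod, Finset.abs_prod, ← Finset.card_erase_of_mem (q0_mem hd0),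
      ← Finset.prod_const, ← Finset.prod_mul_distrib]
    refine Finset.prod_congr rfl fun q _ => ?_
    rw [Polynomial.eval_pow, abs_pow, mul_pow, ← pow_mul]
  rw [h9]
  have h10 : |(Th n b r M d0).eval (yq n (x0q r n d0))| =
      |(YB n (x0q r n d0 + 1) (M - 1)).eval (yq n (x0q r n d0))| ^ (b + 1) *
      |(∏ q ∈ (JJ d0).erase ⟨d0, 1 % d0⟩,
        YB n ((r : ℚ) * n + (q.2 : ℚ) / (q.1 : ℕ)) M ^ (b + 1)).eval (yq n (x0q r n d0))| := by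
    unfold Th
    rw [Polynomial.eval_mul, Polynomial.eval_pow, abs_mul, abs_pow]
  rw [h10]
  have h11 : (XX ^ M) ^ (b + 1) * (XX ^ (M * (b + 1))) ^ ((JJ d0).card - 1) ≤
      XX ^ ((b + 1) * (M * B ^ 2)) := by
    rw [← pow_mul, ← pow_mul, ← pow_add]
    apply pow_le_pow_right₀ hbase
    have e1 : 1 ≤ (JJ d0).card := Finset.card_pos.2 ⟨_, q0_mem hd0⟩
    have e2 : (JJ d0).card ≤ B ^ 2 := (card_JJ_le d0).trans (Nat.pow_le_pow_left hd0B 2)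
    calc M * (b + 1) + M * (b + 1) * ((JJ d0).card - 1) = M * (b + 1) * (JJ d0).card := by
          conv_rhs => rw [show (JJ d0).card = 1 + ((JJ d0).card - 1) by omega]
          ring
      _ ≤ M * (b + 1) * B ^ 2 := Nat.mul_le_mul_left _ e2
      _ = _ := by ring
  calc (|(YB n (x0q r n d0 + 1) (M - 1)).eval (yq n (x0q r n d0))| *
      ((M : ℚ) * n) * XX ^ M) ^ (b + 1) *
      (|(∏ q ∈ (JJ d0).erase ⟨d0, 1 % d0⟩,
        YB n ((r : ℚ) * n + (q.2 : ℚ) / (q.1 : ℕ)) M ^ (b + 1)).eval (yq n (x0q r n d0))| *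
      (XX ^ (M * (b + 1))) ^ ((JJ d0).card - 1))
      = |(YB n (x0q r n d0 + 1) (M - 1)).eval (yq n (x0q r n d0))| ^ (b + 1) *
      |(∏ q ∈ (JJ d0).erase ⟨d0, 1 % d0⟩,
        YB n ((r : ℚ) * n + (q.2 : ℚ) / (q.1 : ℕ)) M ^ (b + 1)).eval (yq n (x0q r n d0))| *
      ((M : ℚ) * n) ^ (b + 1) * ((XX ^ M) ^ (b + 1) * (XX ^ (M * (b + 1))) ^ ((JJ d0).card - 1)) := by
        ring
    _ ≤ _ := by gcongr

end

end Pool.Agent.Y926.LZ
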