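import Pool.Agent.Y926.LZ.NonV

/-!
# Non-vanishing
-/

open Polynomial Pool.Agent.H337R2 Pool.Agent.W165.OZ Pool.Agent.W165.OZ.PAx

namespace Pool.Agent.Y926.LZ

noncomputable section

lemma cc_TS (c : ℚ) (P : ℚ[X]) : PowerSeries.constantCoeff (TS c P) = P.eval c := by
  unfold TS
  simp [Polynomial.constantCoeff_coe]

lemma eval_yp (n : ℕ) (x : ℚ) : (yp n).eval x = yq n x := by
  unfold yp yq
  simp

lemma cc_iv (a : ℚ) : PowerSeries.constantCoeff (iv a) = 1 / a := by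
  unfold iv
  rw [← PowerSeries.coeff_zero_eq_constantCoeff_apply, PowerSeries.coeff_mk]
  simp

lemma cc_VV (n h : ℕ) (c : ℚ) : PowerSeries.constantCoeff (VV (sP n) (mP h) c) =
    ∏ k ∈ Finset.range n, (1 / (c + k)) ^ (2 * h) := by
  unfold VV
  rw [map_prod]
  refine Finset.prod_congr rfl fun k _ => ?_
  rw [map_pow, cc_iv]

/-- the leading term -/
lemma main_eq (n h b : ℕ) (x : ℚ) (Φ T : ℚ[X]) :
    PowerSeries.coeff b (RS (sP n) (mP h) (KP n h (Φ * ((X - C (yq n x)) ^ b * T))) x) =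
      (n.factorial : ℚ) ^ (2 * h) * (2 * x + ((n : ℚ) - 1)) * Φ.eval (yq n x) *
        (2 * x + ((n : ℚ) - 1)) ^ b * T.eval (yq n x) *
        ∏ k ∈ Finset.range n, (1 / (x + k)) ^ (2 * h) := by
  have h1 : TS x ((X - C (yq n x)).comp (yp n)) =
      PowerSeries.X * (PowerSeries.X + PowerSeries.C (2 * x + ((n : ℚ) - 1))) := by
    rw [lin_comp, map_mul, TS_lin, TS_lin, add_neg_cancel, map_zero, add_zero]
    congr 3
    ring
  have h2 : RS (sP n) (mP h) (KP n h (Φ * ((X - C (yq n x)) ^ b * T))) x =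
      PowerSeries.X ^ b * (TS x (C ((n.factorial : ℚ) ^ (2 * h))) * TS x (C 2 * X + C ((n : ℚ) - 1)) *
        TS x (Φ.comp (yp n)) * (PowerSeries.X + PowerSeries.C (2 * x + ((n : ℚ) - 1))) ^ b *
        TS x (T.comp (yp n)) * VV (sP n) (mP h) x) := by
    unfold RS KP num
    have h0 : TS x (((X - C (yq n x)).comp (yp n)) ^ b) = PowerSeries.X ^ b *
        (PowerSeries.X + PowerSeries.C (2 * x + ((n : ℚ) - 1))) ^ b := by
      rw [map_pow, h1, mul_pow]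
    rw [map_mul, map_mul, Polynomial.mul_comp, Polynomial.mul_comp, Polynomial.pow_comp, map_mul,
      map_mul, h0]
    ring
  rw [h2, PowerSeries.coeff_X_pow_mul', if_pos le_rfl, Nat.sub_self,
    PowerSeries.coeff_zero_eq_constantCoeff_apply]
  simp only [map_mul, map_pow, map_add, cc_TS, PowerSeries.constantCoeff_X,
    PowerSeries.constantCoeff_C, cc_VV, Polynomial.eval_C, Polynomial.eval_X, Polynomial.eval_comp,
    eval_yp, zero_add]

lemma YB_ne {n m : ℕ} (hn : 1 ≤ n) {x x' : ℚ}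
    (hne : ∀ j < m, x' - x + j ≠ 0) (hpos : ∀ j < m, (n : ℚ) ≤ x + (x' + j) + ((n : ℚ) - 1)) :
    (YB n x' m).eval (yq n x) ≠ 0 := by
  have hn' : (1 : ℚ) ≤ n := by exact_mod_cast hn
  rw [YB_eval]
  apply Finset.prod_ne_zero_iff.2
  intro j hj
  rw [Finset.mem_range] at hj
  apply mul_ne_zero
  · intro h0
    apply hne j hj
    linarith
  · have := hpos j hj
    intro h0
    linarith

lemma Phi_ne {n b B r d0 : ℕ} (hn : 1 ≤ n) (hr : 2 ≤ r) (hd0 : 1 ≤ d0) :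
    (Phi n b B (r + 1)).eval (yq n (x0q r n d0)) ≠ 0 := by
  have hn' : (1 : ℚ) ≤ n := by exact_mod_cast hn
  have hr' : (2 : ℚ) ≤ r := by exact_mod_cast hr
  unfold Phi
  rw [Polynomial.eval_prod]
  apply Finset.prod_ne_zero_iff.2
  intro q hq
  rw [Polynomial.eval_pow]
  apply pow_ne_zero
  unfold NB
  rw [Polynomial.eval_mul, Polynomial.eval_C]
  rw [mem_Ix] at hq
  have hd : (1 : ℚ) ≤ ((q.1 : ℕ) : ℚ) := by exact_mod_cast hq.1.1
  have hl : (((q.2.1 : ℕ) : ℚ)) / ((q.1 : ℕ) : ℚ) < 1 := by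
    rw [div_lt_one (by linarith)]
    exact_mod_cast hq.2.1
  have hl0 : 0 ≤ (((q.2.1 : ℕ) : ℚ)) / ((q.1 : ℕ) : ℚ) := by positivity
  have hc2 : (((q.2.2 : ℕ) : ℚ)) ≤ r := by exact_mod_cast Nat.lt_succ_iff.1 hq.2.2
  have hc0 : (0 : ℚ) ≤ ((q.2.2 : ℕ) : ℚ) := by positivity
  have he1 := e0_lt hd0
  have he0 := e0_nonneg (d0 := d0)
  apply mul_ne_zero
  · have hf : (0 : ℚ) < (n.factorial : ℚ) := by exact_mod_cast n.factorial_pos
    have : (0 : ℚ) < ((q.1 : ℕ) : ℚ) := by linarith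
    positivity
  · apply YB_ne hn
    · intro j hj
      have hj' : (j : ℚ) + 1 ≤ n := by exact_mod_cast hj
      unfold stq x0q
      apply ne_of_lt
      nlinarith
    · intro j hj
      have hj' : (0 : ℚ) ≤ j := by positivity
      unfold stq x0q
      nlinarith

lemma Th_ne {n b r M d0 : ℕ} (hn : 1 ≤ n) (hr : 2 ≤ r) (hd0 : 1 ≤ d0) :
    (Th n b r M d0).eval (yq n (x0q r n d0)) ≠ 0 := by
  have hn' : (1 : ℚ) ≤ n := by exact_mod_cast hn
  have hr' : (2 : ℚ) ≤ r := by exact_mod_cast hr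
  have he1 := e0_lt hd0
  have he0 := e0_nonneg (d0 := d0)
  unfold Th
  rw [Polynomial.eval_mul, Polynomial.eval_pow]
  apply mul_ne_zero
  · apply pow_ne_zero
    apply YB_ne hn
    · intro j _
      have : (0 : ℚ) ≤ j := by positivity
      apply ne_of_gt
      linarith
    · intro j _
      have : (0 : ℚ) ≤ j := by positivity
      unfold x0q
      nlinarith
  · rw [Polynomial.eval_prod]
    apply Finset.prod_ne_zero_iff.2
    intro q hq
    rw [Polynomial.eval_pow]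
    apply pow_ne_zero
    have hl0 : 0 ≤ (((q.2 : ℕ) : ℚ)) / ((q.1 : ℕ) : ℚ) := by positivity
    apply YB_ne hn
    · intro j _
      have h8 := line_ne hd0 hq j
      unfold x0q
      intro h9
      apply h8
      linarith
    · intro j _
      have hj' : (0 : ℚ) ≤ j := by positivity
      unfold x0q
      nlinarith

/-- the dominating kernel -/
def Kd (n b r M d0 : ℕ) : ℚ[X] := (X - C (yq n (x0q r n d0))) ^ b * Th n b r M d0

/-- the dominating term -/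
def mainv (n h b B r M d0 : ℕ) : ℚ :=
  PowerSeries.coeff b (RS (sP n) (mP h) (KP n h (Phi n b B (r + 1) * Kd n b r M d0)) (x0q r n d0))

lemma mainv_ne {n h b B r M d0 : ℕ} (hn : 1 ≤ n) (hr : 2 ≤ r) (hd0 : 1 ≤ d0) :
    mainv n h b B r M d0 ≠ 0 := by
  have hn' : (1 : ℚ) ≤ n := by exact_mod_cast hn
  have hr' : (2 : ℚ) ≤ r := by exact_mod_cast hr
  have he0 := e0_nonneg (d0 := d0)
  have hx : (1 : ℚ) ≤ x0q r n d0 := by unfold x0q; nlinarith
  have hf : (0 : ℚ) < (n.factorial : ℚ) := by exact_mod_cast n.factorial_pos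
  have hu : (0 : ℚ) < 2 * x0q r n d0 + ((n : ℚ) - 1) := by linarith
  unfold mainv Kd
  rw [main_eq]
  refine mul_ne_zero (mul_ne_zero (mul_ne_zero (mul_ne_zero (mul_ne_zero (by positivity) hu.ne')
    (Phi_ne hn hr hd0)) (pow_ne_zero _ hu.ne')) (Th_ne hn hr hd0)) ?_
  apply Finset.prod_ne_zero_iff.2
  intro k _
  have : (0 : ℚ) ≤ k := by positivity
  have : (0 : ℚ) < x0q r n d0 + k := by linarith
  positivity

lemma mainv_lb {n h b B r M d0 : ℕ} (hn : 1 ≤ n) (hr : 2 ≤ r) (hd0 : 1 ≤ d0) :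
    (n.factorial : ℚ) ^ (2 * h) * |(Phi n b B (r + 1)).eval (yq n (x0q r n d0))| *
      |(Th n b r M d0).eval (yq n (x0q r n d0))| ≤
      |mainv n h b B r M d0| * (((r : ℚ) + 1) * n) ^ (2 * h * n) := by
  have hn' : (1 : ℚ) ≤ n := by exact_mod_cast hn
  have hr' : (2 : ℚ) ≤ r := by exact_mod_cast hr
  have he0 := e0_nonneg (d0 := d0)
  have he1 := e0_lt hd0
  have hx : (1 : ℚ) ≤ x0q r n d0 := by unfold x0q; nlinarith
  have hf : (0 : ℚ) < (n.factorial : ℚ) := by exact_mod_cast n.factorial_pos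
  have hu : (1 : ℚ) ≤ 2 * x0q r n d0 + ((n : ℚ) - 1) := by linarith
  unfold mainv Kd
  rw [main_eq, abs_mul, abs_mul, abs_mul, abs_mul, abs_mul,
    abs_of_pos (by positivity : (0 : ℚ) < (n.factorial : ℚ) ^ (2 * h)), abs_pow,
    abs_of_pos (by linarith : (0 : ℚ) < 2 * x0q r n d0 + ((n : ℚ) - 1))]
  have h1 : 1 ≤ |∏ k ∈ Finset.range n, (1 / (x0q r n d0 + (k : ℚ))) ^ (2 * h)| *
      (((r : ℚ) + 1) * n) ^ (2 * h * n) := by
    rw [pow_mul, ← Finset.card_range n, ← Finset.prod_const, Finset.card_range, Finset.abs_prod,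
      ← Finset.prod_mul_distrib]
    have h2 : (1 : ℚ) = ∏ _k ∈ Finset.range n, (1 : ℚ) := by rw [Finset.prod_const_one]
    conv_lhs => rw [h2]
    apply Finset.prod_le_prod (fun _ _ => zero_le_one)
    intro k hk
    rw [Finset.mem_range] at hk
    have hk' : (k : ℚ) + 1 ≤ n := by exact_mod_cast hk
    have hk0 : (0 : ℚ) ≤ k := by positivity
    have hpos : 0 < x0q r n d0 + (k : ℚ) := by linarith
    rw [abs_pow, abs_of_pos (by positivity), ← mul_pow]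
    apply one_le_pow₀
    rw [one_div, ← div_eq_inv_mul, one_le_div hpos]
    unfold x0q
    nlinarith
  have h3 : (1 : ℚ) ≤ (2 * x0q r n d0 + ((n : ℚ) - 1)) ^ b := one_le_pow₀ hu
  generalize |∏ k ∈ Finset.range n, (1 / (x0q r n d0 + (k : ℚ))) ^ (2 * h)| = Z at *
  generalize (2 * x0q r n d0 + ((n : ℚ) - 1)) ^ b = U at *
  generalize (2 * x0q r n d0 + ((n : ℚ) - 1)) = V at *
  generalize (((r : ℚ) + 1) * n) ^ (2 * h * n) = W at *
  have hA := abs_nonneg ((Phi n b B (r + 1)).eval (yq n (x0q r n d0)))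
  have hB := abs_nonneg ((Th n b r M d0).eval (yq n (x0q r n d0)))
  generalize |(Phi n b B (r + 1)).eval (yq n (x0q r n d0))| = A at *
  generalize |(Th n b r M d0).eval (yq n (x0q r n d0))| = D at *
  have hF : (0 : ℚ) ≤ (n.factorial : ℚ) ^ (2 * h) := by positivity
  generalize (n.factorial : ℚ) ^ (2 * h) = F at *
  calc F * A * D = F * 1 * A * 1 * D * 1 := by ring
    _ ≤ F * V * A * U * D * (Z * W) := by gcongr
    _ = _ := by ring

/-- the zeros of the kernel -/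
lemma node_zero {n h b B r M d0 d t : ℕ} (hn : 1 ≤ n) (hd : 1 ≤ d) (hdd : d ≤ d0)
    (hd0B : d0 ≤ B) (ht : t + 1 < d * (r * n + M))
    (hne : ¬ (d = d0 ∧ t + 1 = r * (d * n) + 1 % d0)) :
    PowerSeries.coeff b (RS (sP n) (mP h) (KP n h (Phi n b B (r + 1) * Kd n b r M d0))
      (((t : ℚ) + 1) / d)) = 0 := by
  by_cases ht1 : t + 1 < r * (d * n)
  · exact term_zero hn hd (hdd.trans hd0B) _ ht1
  · have hd' : (d : ℚ) ≠ 0 := by exact_mod_cast (by omega : d ≠ 0)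
    obtain ⟨a, ha⟩ : ∃ a, t + 1 = r * (d * n) + a :=
      ⟨t + 1 - r * (d * n), (Nat.add_sub_cancel' (not_lt.1 ht1)).symm⟩
    have haM : a < d * M := by
      have h0 : d * (r * n + M) = r * (d * n) + d * M := by ring
      rw [h0, ha] at ht
      exact Nat.lt_of_add_lt_add_left ht
    have hl : a % d < d := Nat.mod_lt _ hd
    have hm : a / d < M := by
      rw [Nat.div_lt_iff_lt_mul (by omega)]
      rwa [Nat.mul_comm]
    have hdm := Nat.div_add_mod a d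
    have hc : ((t : ℚ) + 1) / d = ((r : ℚ) * n + ((a % d : ℕ) : ℚ) / d) + ((a / d : ℕ) : ℚ) := by
      have h1 : (t : ℚ) + 1 = (r : ℚ) * (d * n) + a := by exact_mod_cast ha
      have h2 : (a : ℚ) = d * ((a / d : ℕ) : ℚ) + ((a % d : ℕ) : ℚ) := by exact_mod_cast hdm.symm
      rw [h1, h2]
      field_simp
      ring
    apply RS_zero
    rw [mul_comm (Phi n b B (r + 1))]
    apply KP_dvd
    unfold Kd Th
    rw [Polynomial.mul_comp, Polynomial.mul_comp]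
    apply Dvd.dvd.mul_left
    by_cases hq : (⟨d, a % d⟩ : Σ _ : ℕ, ℕ) = ⟨d0, 1 % d0⟩
    · have hq1 : d = d0 := congrArg Sigma.fst hq
      have hq2 : a % d = 1 % d0 := by
        have := congrArg (fun q : (Σ _ : ℕ, ℕ) => q.2) hq
        exact this
      have hm0 : a / d ≠ 0 := by
        intro h0
        apply hne
        refine ⟨hq1, ?_⟩
        rw [h0, Nat.mul_zero, Nat.zero_add] at hdm
        rw [← hq2, hdm]
        exact ha
      apply Dvd.dvd.mul_right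
      rw [Polynomial.pow_comp]
      apply pow_dvd_pow_of_dvd
      have h3 : ((t : ℚ) + 1) / d = (x0q r n d0 + 1) + ((a / d - 1 : ℕ) : ℚ) := by
        rw [hc, Nat.cast_sub (Nat.one_le_iff_ne_zero.2 hm0)]
        unfold x0q
        rw [hq2, hq1]
        push_cast
        ring
      rw [h3]
      have h4 : a / d - 1 < M - 1 := by
        generalize a / d = y at hm hm0
        omega
      exact YB_dvd n _ h4
    · apply Dvd.dvd.mul_left
      have hmem : (⟨d, a % d⟩ : Σ _ : ℕ, ℕ) ∈ (JJ d0).erase ⟨d0, 1 % d0⟩ := by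
        rw [Finset.mem_erase, mem_JJ]
        exact ⟨hq, ⟨hd, hdd⟩, hl⟩
      rw [Polynomial.prod_comp]
      refine Dvd.dvd.trans ?_ (Finset.dvd_prod_of_mem _ hmem)
      rw [Polynomial.pow_comp, hc]
      exact pow_dvd_pow_of_dvd (YB_dvd n _ hm) _

/-- the constant of the tail -/
def M7 (n h b B r r1 : ℕ) : ℚ :=
  4 ^ (h + 1) * n * (((r1 * n : ℕ) : ℚ) * n) ^ (b + 1) *
    (54 * (B : ℚ) ^ 4) ^ (n * ((b + 1) * (B ^ 2 * (r + 1 + r1)))) *
    ((r : ℚ) + 1) ^ (2 * h * n) /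
    ((r : ℚ) + r1) ^ (2 * h * n - (2 * (n * ((b + 1) * (B ^ 2 * (r + 1 + r1)))) + 1) - 2) *
    ((B : ℚ) * n) ^ 2

lemma node_le {n h b B r r1 d0 d t : ℕ} (hn : 1 ≤ n) (hr : 2 ≤ r) (hr1 : 1 ≤ r1) (hd : 1 ≤ d)
    (hdd : d ≤ d0) (hd0B : d0 ≤ B) (ht : d * (r * n + r1 * n) ≤ t + 1)
    (hh : 2 * (n * ((b + 1) * (B ^ 2 * (r + 1 + r1)))) + 3 ≤ 2 * h * n) :
    |PowerSeries.coeff b (RS (sP n) (mP h) (KP n h (Phi n b B (r + 1) * Kd n b r (r1 * n) d0))
      (((t : ℚ) + 1) / d))| ≤ |mainv n h b B r (r1 * n) d0| * M7 n h b B r r1 *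
        (1 / ((t : ℚ) + 1) ^ 2) := by
  have hn' : (1 : ℚ) ≤ n := by exact_mod_cast hn
  have hd' : (1 : ℚ) ≤ d := by exact_mod_cast hd
  have hB' : (d : ℚ) ≤ B := by exact_mod_cast hdd.trans hd0B
  have hr' : (2 : ℚ) ≤ r := by exact_mod_cast hr
  have hr1' : (1 : ℚ) ≤ r1 := by exact_mod_cast hr1
  have hd0 : 1 ≤ d0 := hd.trans hdd
  obtain ⟨c, hc⟩ : ∃ c : ℚ, c = ((t : ℚ) + 1) / d := ⟨_, rfl⟩
  have ht' : (d : ℚ) * (r * n + r1 * n) ≤ (t : ℚ) + 1 := by exact_mod_cast ht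
  have hcr1 : (r : ℚ) * n + r1 * n ≤ c := by
    rw [hc, le_div_iff₀ (by linarith)]
    linarith
  have hcr : (r : ℚ) * n ≤ c := by nlinarith
  have hc2 : 2 * (n : ℚ) ≤ c := by nlinarith
  have hc0 : 0 < c := by linarith
  have hτ : (r : ℚ) + r1 ≤ c / n := by rw [le_div_iff₀ (by linarith)]; linarith
  rw [← hc]
  have h1 := Phi_ratio (n := n) (b := b) (c := c) (B := B) (r := r) (d0 := d0) hn hr hd0 hd0B hcr
  have h2 := Th_ratio (n := n) (b := b) (c := c) (B := B) (r := r) (M := r1 * n) (d0 := d0) hn hr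
    (Nat.le_mul_of_pos_left _ hr1) hd0 hd0B (by push_cast; exact hcr1)
  have h3 := Nm_mul_le (T := b) zero_le_one h1 h2
  rw [← map_mul, ← Polynomial.mul_comp] at h3
  have h5 := RS_le (h := h) hn hc2 h3
  refine h5.trans ?_
  have hlb := mainv_lb (n := n) (h := h) (b := b) (B := B) (r := r) (M := r1 * n) (d0 := d0) hn hr hd0
  have h7 := tail_pow (r := (r : ℚ) + r1) (τ := c / n)
    (p := 2 * (n * ((b + 1) * (B ^ 2 * (r + 1 + r1)))) + 1) (q := 2 * h * n) (by linarith) hτ (by omega)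
  have h8 : 1 / (c / n) ^ 2 ≤ ((B : ℚ) * n) ^ 2 * (1 / ((t : ℚ) + 1) ^ 2) := by
    have ht0 : (0 : ℚ) < (t : ℚ) + 1 := by positivity
    have h9 : 1 / (c / n) ^ 2 = ((d : ℚ) * n) ^ 2 * (1 / ((t : ℚ) + 1) ^ 2) := by
      rw [hc]
      field_simp
    rw [h9]
    gcongr
  have hexp : n * ((b + 1) * (B ^ 2 * (r + 1))) + (b + 1) * (r1 * n * B ^ 2) =
      n * ((b + 1) * (B ^ 2 * (r + 1 + r1))) := by ring
  obtain ⟨EE, hEE⟩ : ∃ EE, EE = n * ((b + 1) * (B ^ 2 * (r + 1 + r1))) := ⟨_, rfl⟩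
  obtain ⟨A, hA⟩ : ∃ A, A = |(Phi n b B (r + 1)).eval (yq n (x0q r n d0))| := ⟨_, rfl⟩
  obtain ⟨D, hD⟩ : ∃ D, D = |(Th n b r (r1 * n) d0).eval (yq n (x0q r n d0))| := ⟨_, rfl⟩
  have hA0 : 0 ≤ A := by rw [hA]; exact abs_nonneg _
  have hD0 : 0 ≤ D := by rw [hD]; exact abs_nonneg _
  obtain ⟨mv, hmv⟩ : ∃ mv, mv = |mainv n h b B r (r1 * n) d0| := ⟨_, rfl⟩
  have hmv0 : 0 ≤ mv := by rw [hmv]; exact abs_nonneg _
  rw [← hA, ← hD, ← hmv] at hlb
  rw [← hA, ← hD, ← hmv]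
  unfold M7
  rw [← hEE] at h7 ⊢
  have hX : (54 * (B : ℚ) ^ 4 * (c / n) ^ 2) ^ (n * ((b + 1) * (B ^ 2 * (r + 1)))) *
      (54 * (B : ℚ) ^ 4 * (c / n) ^ 2) ^ ((b + 1) * (r1 * n * B ^ 2)) =
      (54 * (B : ℚ) ^ 4) ^ EE * (c / n) ^ (2 * EE) := by
    rw [← pow_add, hexp, ← hEE, mul_pow, ← pow_mul (c / n) 2 EE]
  have hfac : (2 / c ^ n) ^ (2 * h) * (((r : ℚ) + 1) * n) ^ (2 * h * n) =
      4 ^ h * ((r : ℚ) + 1) ^ (2 * h * n) / (c / n) ^ (2 * h * n) := by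
    have h4 : (4 : ℚ) ^ h = 2 ^ (2 * h) := by rw [pow_mul]; norm_num
    rw [h4, div_pow 2, div_pow c, mul_pow, ← pow_mul, mul_comm n (2 * h)]
    have hc' : c ≠ 0 := hc0.ne'
    have hn0 : (n : ℚ) ≠ 0 := by linarith
    field_simp
  calc (n.factorial : ℚ) ^ (2 * h) * (4 * c *
        (A * (54 * (B : ℚ) ^ 4 * (c / n) ^ 2) ^ (n * ((b + 1) * (B ^ 2 * (r + 1)))) *
        (D * (((r1 * n : ℕ) : ℚ) * n) ^ (b + 1) *
        (54 * (B : ℚ) ^ 4 * (c / n) ^ 2) ^ ((b + 1) * (r1 * n * B ^ 2))))) * (2 / c ^ n) ^ (2 * h)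
      = ((n.factorial : ℚ) ^ (2 * h) * A * D) * (4 * c * (((r1 * n : ℕ) : ℚ) * n) ^ (b + 1) *
        ((54 * (B : ℚ) ^ 4 * (c / n) ^ 2) ^ (n * ((b + 1) * (B ^ 2 * (r + 1)))) *
        (54 * (B : ℚ) ^ 4 * (c / n) ^ 2) ^ ((b + 1) * (r1 * n * B ^ 2)))) * (2 / c ^ n) ^ (2 * h) := by
        ring
    _ = ((n.factorial : ℚ) ^ (2 * h) * A * D) * (4 * c * (((r1 * n : ℕ) : ℚ) * n) ^ (b + 1) *
        ((54 * (B : ℚ) ^ 4) ^ EE * (c / n) ^ (2 * EE))) * (2 / c ^ n) ^ (2 * h) := by rw [hX]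
    _ ≤ (mv * (((r : ℚ) + 1) * n) ^ (2 * h * n)) * (4 * c * (((r1 * n : ℕ) : ℚ) * n) ^ (b + 1) *
        ((54 * (B : ℚ) ^ 4) ^ EE * (c / n) ^ (2 * EE))) * (2 / c ^ n) ^ (2 * h) := by
        gcongr
    _ = mv * (4 * c * (((r1 * n : ℕ) : ℚ) * n) ^ (b + 1) *
        ((54 * (B : ℚ) ^ 4) ^ EE * (c / n) ^ (2 * EE))) *
        ((2 / c ^ n) ^ (2 * h) * (((r : ℚ) + 1) * n) ^ (2 * h * n)) := by ring
    _ = mv * (4 ^ (h + 1) * n * (((r1 * n : ℕ) : ℚ) * n) ^ (b + 1) * (54 * (B : ℚ) ^ 4) ^ EE *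
        ((r : ℚ) + 1) ^ (2 * h * n)) * ((c / n) ^ (2 * EE + 1) / (c / n) ^ (2 * h * n)) := by
        rw [hfac, pow_succ (c / n) (2 * EE), pow_succ (4 : ℚ) h]
        have : (c : ℚ) = n * (c / n) := by field_simp
        have h10 : 4 * c = 4 * (n * (c / n)) := by rw [← this]
        rw [h10]
        ring
    _ ≤ mv * (4 ^ (h + 1) * n * (((r1 * n : ℕ) : ℚ) * n) ^ (b + 1) * (54 * (B : ℚ) ^ 4) ^ EE *
        ((r : ℚ) + 1) ^ (2 * h * n)) *
        (1 / ((r : ℚ) + r1) ^ (2 * h * n - (2 * EE + 1) - 2) * (1 / (c / n) ^ 2)) := by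
        gcongr
    _ ≤ mv * (4 ^ (h + 1) * n * (((r1 * n : ℕ) : ℚ) * n) ^ (b + 1) * (54 * (B : ℚ) ^ 4) ^ EE *
        ((r : ℚ) + 1) ^ (2 * h * n)) *
        (1 / ((r : ℚ) + r1) ^ (2 * h * n - (2 * EE + 1) - 2) *
          (((B : ℚ) * n) ^ 2 * (1 / ((t : ℚ) + 1) ^ 2))) := by
        gcongr
    _ = _ := by ring

end

end Pool.Agent.Y926.LZ
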