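import Pool.Agent.W165.OZ.PA

/-!
# p-adic bounds of the coefficients of Pochhammer products
-/

open Polynomial Pool.Agent.H337R2 Pool.Agent.W165.OZ Pool.Agent.W165.OZ.PAx

namespace Pool.Agent.Y926.LZ

noncomputable section

set_option linter.unusedSectionVars false

variable {p : ℕ} [hp : Fact p.Prime]

lemma PB_add {ρ A : ℚ} {f g : PowerSeries ℚ} (hf : PB p ρ A f) (hg : PB p ρ A g) :
    PB p ρ A (f + g) := by
  intro j
  rw [map_add]
  exact (padicNorm.nonarchimedean).trans (max_le (hf j) (hg j))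

lemma PB_neg {ρ A : ℚ} {f : PowerSeries ℚ} (hf : PB p ρ A f) : PB p ρ A (-f) := by
  intro j
  rw [map_neg, padicNorm.neg]
  exact hf j

lemma PB_sub {ρ A : ℚ} {f g : PowerSeries ℚ} (hf : PB p ρ A f) (hg : PB p ρ A g) :
    PB p ρ A (f - g) := by
  rw [sub_eq_add_neg]
  exact PB_add hf (PB_neg hg)

/-- `∏_{j < n} (X + ξ + j)` -/
def Poch (n : ℕ) (ξ : ℚ) : PowerSeries ℚ :=
  ∏ j ∈ Finset.range n, (PowerSeries.X + PowerSeries.C (ξ + j))

lemma Poch_succ (n : ℕ) (ξ : ℚ) :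
    Poch (n + 1) ξ = Poch n ξ * (PowerSeries.X + PowerSeries.C (ξ + n)) := by
  unfold Poch
  rw [Finset.prod_range_succ]

lemma Poch_succ' (n : ℕ) (ξ : ℚ) :
    Poch (n + 1) ξ = (PowerSeries.X + PowerSeries.C ξ) * Poch n (ξ + 1) := by
  unfold Poch
  rw [Finset.prod_range_succ', mul_comm]
  congr 1
  · simp
  · apply Finset.prod_congr rfl
    intro j _
    congr 2
    push_cast
    ring

lemma Poch_step (n : ℕ) (ξ : ℚ) :
    Poch (n + 1) (ξ + 1) = Poch (n + 1) ξ + PowerSeries.C ((n : ℚ) + 1) * Poch n (ξ + 1) := by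
  rw [Poch_succ, Poch_succ' n ξ]
  have h : PowerSeries.C (ξ + 1 + (n : ℚ)) = PowerSeries.C ξ + PowerSeries.C ((n : ℚ) + 1) := by
    rw [← map_add]; congr 1; ring
  rw [h]
  ring

lemma PB_Poch_zero {ρ : ℚ} (hρ : 1 ≤ ρ) {N : ℕ}
    (hN : ∀ i : ℕ, 1 ≤ i → i ≤ N → (padicNorm p (i : ℚ))⁻¹ ≤ ρ) {n : ℕ} (hn : n ≤ N) :
    PB p ρ (padicNorm p (n.factorial : ℚ)) (Poch n 0) := by
  rcases n with _ | n
  · simpa [Poch] using PB.one (p := p) (by linarith : (0 : ℚ) ≤ ρ)
  · have hρ0 : (0 : ℚ) ≤ ρ := by linarith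
    have key : ∀ i : ℕ, 1 ≤ i → i ≤ N → 1 ≤ padicNorm p (i : ℚ) * ρ := by
      intro i h1 h2
      have h3 := hN i h1 h2
      have h4 : 0 < padicNorm p (i : ℚ) := pn_pos (by exact_mod_cast (by omega : i ≠ 0))
      rwa [inv_le_iff_one_le_mul₀' h4] at h3
    have h1 : Poch (n + 1) 0 = PowerSeries.X *
        ∏ j ∈ Finset.range n, (PowerSeries.X + PowerSeries.C (((j + 1 : ℕ)) : ℚ)) := by
      rw [Poch_succ']
      unfold Poch
      congr 1
      · simp
      · apply Finset.prod_congr rfl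
        intro j _
        congr 2
        push_cast; ring
    rw [h1]
    have h2 : PB p ρ (padicNorm p (((n + 1 : ℕ)) : ℚ)) (PowerSeries.X : PowerSeries ℚ) := by
      have := PB.linX (p := p) (ρ := ρ) (A := padicNorm p (((n + 1 : ℕ)) : ℚ)) (a := 0) hρ0
        (padicNorm.nonneg _) (by rw [padicNorm.zero]; exact padicNorm.nonneg _)
        (key (n + 1) (by omega) hn)
      simpa using this
    have h3 : PB p ρ (∏ j ∈ Finset.range n, padicNorm p (((j + 1 : ℕ)) : ℚ))
        (∏ j ∈ Finset.range n, (PowerSeries.X + PowerSeries.C (((j + 1 : ℕ)) : ℚ))) := by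
      refine PB.prod _ _ _ hρ0 (fun _ _ => padicNorm.nonneg _) fun j hj => ?_
      rw [Finset.mem_range] at hj
      exact PB.linX hρ0 (padicNorm.nonneg _) le_rfl (key (j + 1) (by omega) (by omega))
    have h4 := PB.mul hρ0 (padicNorm.nonneg _)
      (Finset.prod_nonneg fun j _ => padicNorm.nonneg _) h2 h3
    have h5 : padicNorm p (((n + 1).factorial : ℕ) : ℚ) =
        padicNorm p (((n + 1 : ℕ)) : ℚ) * ∏ j ∈ Finset.range n, padicNorm p (((j + 1 : ℕ)) : ℚ) := by
      rw [← pn_prod, ← padicNorm.mul, Nat.factorial_succ, ← Finset.prod_range_add_one_eq_factorial]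
      push_cast
      rfl
    rw [h5]
    exact h4

lemma PB_Poch_int {ρ : ℚ} (hρ : 1 ≤ ρ) {N : ℕ}
    (hN : ∀ i : ℕ, 1 ≤ i → i ≤ N → (padicNorm p (i : ℚ))⁻¹ ≤ ρ) {n : ℕ} (hn : n ≤ N) (z : ℤ) :
    PB p ρ (padicNorm p (n.factorial : ℚ)) (Poch n z) := by
  have hρ0 : (0 : ℚ) ≤ ρ := by linarith
  induction n generalizing z with
  | zero => simpa [Poch] using PB.one (p := p) hρ0
  | succ n ih =>
    have hC : ∀ z : ℤ, PB p ρ (padicNorm p ((n + 1).factorial : ℚ))
        (PowerSeries.C ((n : ℚ) + 1) * Poch n z) := by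
      intro z
      have h1 := PB.mul hρ0 (padicNorm.nonneg _) (padicNorm.nonneg _)
        (PB.C (p := p) (ρ := ρ) (a := (n : ℚ) + 1) hρ0 (padicNorm.nonneg _) le_rfl) (ih (by omega) z)
      rw [← padicNorm.mul] at h1
      rw [Nat.factorial_succ]
      push_cast
      exact h1
    have hup : ∀ z : ℤ, PB p ρ (padicNorm p ((n + 1).factorial : ℚ)) (Poch (n + 1) z) →
        PB p ρ (padicNorm p ((n + 1).factorial : ℚ)) (Poch (n + 1) ((z + 1 : ℤ) : ℚ)) := by
      intro z hz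
      have h1 := Poch_step n (z : ℚ)
      have h2 := hC (z + 1)
      push_cast at h2 ⊢
      rw [h1]
      exact PB_add hz h2
    have hdn : ∀ z : ℤ, PB p ρ (padicNorm p ((n + 1).factorial : ℚ)) (Poch (n + 1) z) →
        PB p ρ (padicNorm p ((n + 1).factorial : ℚ)) (Poch (n + 1) ((z - 1 : ℤ) : ℚ)) := by
      intro z hz
      have h1 := Poch_step n ((z : ℚ) - 1)
      rw [sub_add_cancel] at h1
      have h2 := hC z
      push_cast
      have h3 : Poch (n + 1) ((z : ℚ) - 1) = Poch (n + 1) z - PowerSeries.C ((n : ℚ) + 1) * Poch n z := by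
        rw [h1]; ring
      rw [h3]
      exact PB_sub hz h2
    induction z using Int.induction_on with
    | zero => simpa using PB_Poch_zero hρ hN hn
    | succ i hi => exact hup _ hi
    | pred i hi => exact hdn _ hi

lemma PB_zero {ρ A : ℚ} (hρ : 0 ≤ ρ) (hA : 0 ≤ A) : PB p ρ A 0 := by
  intro j
  rw [map_zero, padicNorm.zero]
  positivity

lemma prod_sub_prod {A : ℚ} (hA : 0 ≤ A) {ι : Type*} (s : Finset ι)
    (f g : ι → PowerSeries ℚ) (hf : ∀ i ∈ s, PB p 1 1 (f i)) (hg : ∀ i ∈ s, PB p 1 1 (g i))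
    (hfg : ∀ i ∈ s, PB p 1 A (f i - g i)) :
    PB p 1 A (∏ i ∈ s, f i - ∏ i ∈ s, g i) := by
  classical
  induction s using Finset.induction_on with
  | empty => simpa using PB_zero (p := p) zero_le_one hA
  | insert a s ha ih =>
    rw [Finset.prod_insert ha, Finset.prod_insert ha]
    have h1 := ih (fun i hi => hf i (Finset.mem_insert_of_mem hi))
      (fun i hi => hg i (Finset.mem_insert_of_mem hi)) (fun i hi => hfg i (Finset.mem_insert_of_mem hi))
    have hs : PB p 1 1 (∏ i ∈ s, f i) := by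
      have := PB.prod (p := p) s (fun _ => (1 : ℚ)) f zero_le_one (fun _ _ => zero_le_one)
        fun i hi => hf i (Finset.mem_insert_of_mem hi)
      simpa using this
    have h2 := PB.mul zero_le_one hA zero_le_one (hfg a (Finset.mem_insert_self _ _)) hs
    have h3 := PB.mul zero_le_one zero_le_one hA (hg a (Finset.mem_insert_self _ _)) h1
    rw [mul_one] at h2
    rw [one_mul] at h3
    have h4 : f a * ∏ i ∈ s, f i - g a * ∏ i ∈ s, g i =
        (f a - g a) * ∏ i ∈ s, f i + g a * (∏ i ∈ s, f i - ∏ i ∈ s, g i) := by ring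
    rw [h4]
    exact PB_add h2 h3

lemma PB_rho {ρ A : ℚ} (hρ : 1 ≤ ρ) (hA : 0 ≤ A) {f : PowerSeries ℚ} (h : PB p 1 A f) :
    PB p ρ A f := by
  intro j
  refine (h j).trans ?_
  rw [one_pow, mul_one]
  exact le_mul_of_one_le_right hA (one_le_pow₀ hρ)

/-- integers are dense in the `p`-integral rational numbers -/
lemma exists_int_near {ξ : ℚ} (hξ : padicNorm p ξ ≤ 1) (N : ℕ) :
    ∃ z : ℤ, padicNorm p (ξ - z) ≤ ((p : ℚ) ^ N)⁻¹ := by
  have hden : ¬ p ∣ ξ.den := by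
    intro hd
    have h1 : padicNorm p (ξ.den : ℚ) < 1 := (padicNorm.nat_lt_one_iff ξ.den).2 hd
    have h2 : padicNorm p (ξ.num : ℚ) = 1 := by
      rw [padicNorm.int_eq_one_iff]
      intro hpn
      have h4 : p ∣ ξ.num.natAbs := Int.natCast_dvd.1 hpn
      have h5 : p ∣ Nat.gcd ξ.num.natAbs ξ.den := Nat.dvd_gcd h4 hd
      rw [ξ.reduced] at h5
      exact hp.1.one_lt.ne' (Nat.dvd_one.1 h5)
    have h3 : padicNorm p ξ * padicNorm p (ξ.den : ℚ) = 1 := by
      rw [← padicNorm.mul, Rat.mul_den_eq_num ξ, h2]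
    have h4 : 0 ≤ padicNorm p (ξ.den : ℚ) := padicNorm.nonneg _
    nlinarith [padicNorm.nonneg (p := p) ξ]
  have hcop : Nat.Coprime ξ.den (p ^ N) := by
    apply Nat.Coprime.pow_right
    exact ((Nat.Prime.coprime_iff_not_dvd hp.1).2 hden).symm
  have hc2 : IsCoprime (ξ.den : ℤ) ((p ^ N : ℕ) : ℤ) := Nat.isCoprime_iff_coprime.2 hcop
  obtain ⟨u, v, huv⟩ := hc2
  refine ⟨ξ.num * u, ?_⟩
  have hd0 : (ξ.den : ℚ) ≠ 0 := by exact_mod_cast ξ.den_nz
  have h1 : ξ - ((ξ.num * u : ℤ) : ℚ) = ξ * ((v : ℤ) : ℚ) * ((p : ℚ) ^ N) := by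
    have h2 : ξ * (ξ.den : ℚ) = ξ.num := Rat.mul_den_eq_num ξ
    have h3 : ((u : ℤ) : ℚ) * ξ.den + (v : ℚ) * ((p : ℚ) ^ N) = 1 := by
      have := congrArg (fun x : ℤ => (x : ℚ)) huv
      push_cast at this
      exact this
    push_cast
    rw [← h2]
    linear_combination (-ξ) * h3
  rw [h1, padicNorm.mul, padicNorm.mul]
  have h5 : padicNorm p ((p : ℚ) ^ N) = ((p : ℚ) ^ N)⁻¹ := by
    rw [pn_pow, padicNorm.padicNorm_p_of_prime, inv_pow]
  rw [h5]
  have h6 : (0 : ℚ) ≤ ((p : ℚ) ^ N)⁻¹ := by positivity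
  have h7 : padicNorm p ((v : ℤ) : ℚ) ≤ 1 := padicNorm.of_int v
  calc padicNorm p ξ * padicNorm p ((v : ℤ) : ℚ) * ((p : ℚ) ^ N)⁻¹
      ≤ 1 * 1 * ((p : ℚ) ^ N)⁻¹ :=
        mul_le_mul_of_nonneg_right (mul_le_mul hξ h7 (padicNorm.nonneg _) zero_le_one) h6
    _ = _ := by ring

lemma PB_Poch_rat {ρ : ℚ} (hρ : 1 ≤ ρ) {N : ℕ}
    (hN : ∀ i : ℕ, 1 ≤ i → i ≤ N → (padicNorm p (i : ℚ))⁻¹ ≤ ρ) {n : ℕ} (hn : n ≤ N) {ξ : ℚ}
    (hξ : padicNorm p ξ ≤ 1) :
    PB p ρ (padicNorm p (n.factorial : ℚ)) (Poch n ξ) := by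
  have hf0 : (n.factorial : ℚ) ≠ 0 := by exact_mod_cast n.factorial_ne_zero
  have hpos : 0 < padicNorm p (n.factorial : ℚ) := pn_pos hf0
  obtain ⟨M, hM⟩ : ∃ M : ℕ, ((p : ℚ) ^ M)⁻¹ ≤ padicNorm p (n.factorial : ℚ) := by
    refine ⟨padicValNat p n.factorial, ?_⟩
    have := pn_val (p := p) n.factorial_ne_zero
    rw [← this, inv_inv]
  obtain ⟨z, hz⟩ := exists_int_near hξ M
  have h1 := PB_Poch_int hρ hN hn z
  have h2 : PB p 1 (padicNorm p (n.factorial : ℚ)) (Poch n ξ - Poch n z) := by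
    unfold Poch
    have hz1 : padicNorm p (z : ℚ) ≤ 1 := padicNorm.of_int z
    apply prod_sub_prod hpos.le
    · intro j _
      refine PB.linX zero_le_one zero_le_one ?_ (by norm_num)
      exact padicNorm.nonarchimedean.trans (max_le hξ (padicNorm.of_nat j))
    · intro j _
      refine PB.linX zero_le_one zero_le_one ?_ (by norm_num)
      exact padicNorm.nonarchimedean.trans (max_le hz1 (padicNorm.of_nat j))
    · intro j _
      have h3 : PowerSeries.X + PowerSeries.C (ξ + (j : ℚ)) - (PowerSeries.X + PowerSeries.C ((z : ℚ) + j))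
          = PowerSeries.C (ξ - z) := by
        have : PowerSeries.C (ξ - (z : ℚ)) = PowerSeries.C (ξ + (j : ℚ)) - PowerSeries.C ((z : ℚ) + j) := by
          rw [← map_sub]; congr 1; ring
        rw [this]; ring
      rw [h3]
      exact PB.C zero_le_one hpos.le (hz.trans hM)
  have h4 : Poch n ξ = (Poch n ξ - Poch n z) + Poch n z := by ring
  rw [h4]
  exact PB_add (PB_rho hρ hpos.le h2) h1

/-- the normalised Pochhammer products at points of `(1/d) ℤ` -/
lemma PB_Poch_gen {ρ : ℚ} (hρ : 1 ≤ ρ) {N : ℕ}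
    (hN : ∀ i : ℕ, 1 ≤ i → i ≤ N → (padicNorm p (i : ℚ))⁻¹ ≤ ρ) {n : ℕ} (hn : n ≤ N) {d : ℕ}
    (hd : 1 ≤ d) {ξ : ℚ} (hξ : ∃ a : ℤ, ξ = a / d) :
    PB p ρ 1 (PowerSeries.C ((d : ℚ) ^ (2 * n) / n.factorial) * Poch n ξ) := by
  have hρ0 : (0 : ℚ) ≤ ρ := by linarith
  obtain ⟨a, ha⟩ := hξ
  have hd0 : (d : ℚ) ≠ 0 := by exact_mod_cast (by omega : d ≠ 0)
  have hf0 : (n.factorial : ℚ) ≠ 0 := by exact_mod_cast n.factorial_ne_zero
  have hpos : 0 < padicNorm p (n.factorial : ℚ) := pn_pos hf0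
  by_cases hpd : p ∣ d
  · have h1 : PowerSeries.C ((d : ℚ) ^ (2 * n) / n.factorial) * Poch n ξ =
        PowerSeries.C ((d : ℚ) ^ n / n.factorial) *
          ∏ j ∈ Finset.range n, (PowerSeries.C (d : ℚ) * PowerSeries.X + PowerSeries.C (((a + d * j : ℤ)) : ℚ)) := by
      have h2 : ∏ j ∈ Finset.range n, (PowerSeries.C (d : ℚ) * PowerSeries.X +
          PowerSeries.C (((a + d * j : ℤ)) : ℚ)) = PowerSeries.C ((d : ℚ) ^ n) * Poch n ξ := by
        unfold Poch
        rw [map_pow, ← Finset.card_range n, ← Finset.prod_const, Finset.card_range,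
          ← Finset.prod_mul_distrib]
        apply Finset.prod_congr rfl
        intro j _
        rw [mul_add, ← map_mul]
        congr 2
        rw [ha]
        push_cast
        field_simp
      rw [h2, ← mul_assoc, ← map_mul]
      congr 2
      rw [pow_mul', pow_two]
      ring
    rw [h1]
    have h3 : PB p ρ 1 (PowerSeries.C ((d : ℚ) ^ n / n.factorial)) := by
      refine PB.C hρ0 zero_le_one ?_
      rw [padicNorm.div, div_le_one hpos, pn_pow]
      have h4 : padicNorm p (d : ℚ) ≤ (p : ℚ)⁻¹ := by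
        have := pn_dvd (p := p) hpd
        rwa [padicNorm.padicNorm_p_of_prime] at this
      have h5 : ((p : ℚ)⁻¹) ^ n ≤ padicNorm p (n.factorial : ℚ) := by
        have h6 := pn_val (p := p) n.factorial_ne_zero
        have h7 : padicNorm p (n.factorial : ℚ) = ((p : ℚ) ^ padicValNat p n.factorial)⁻¹ := by
          rw [← h6, inv_inv]
        rw [h7, inv_pow]
        have hp0 : (0 : ℚ) < p := by exact_mod_cast hp.1.pos
        apply inv_anti₀ (pow_pos hp0 _)
        apply pow_le_pow_right₀ one_le_p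
        have h8 := sub_one_mul_padicValNat_factorial (p := p) n
        have h9 : 1 ≤ p - 1 := by have := hp.1.two_le; omega
        have h10 : padicValNat p n.factorial ≤ (p - 1) * padicValNat p n.factorial :=
          Nat.le_mul_of_pos_left _ (by omega)
        omega
      exact (pow_le_pow_left₀ (padicNorm.nonneg _) h4 n).trans h5
    have h4 : PB p ρ 1 (∏ j ∈ Finset.range n, (PowerSeries.C (d : ℚ) * PowerSeries.X +
        PowerSeries.C (((a + d * j : ℤ)) : ℚ))) := by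
      have := PB.prod (p := p) (Finset.range n) (fun _ => (1 : ℚ)) (fun j : ℕ =>
        (PowerSeries.C (d : ℚ) * PowerSeries.X + PowerSeries.C (((a + d * j : ℤ)) : ℚ))) hρ0
        (fun _ _ => zero_le_one) fun j _ => PB.lin hρ0 zero_le_one (padicNorm.of_int _) (by
          rw [one_mul]
          exact (padicNorm.of_nat d).trans hρ)
      simpa using this
    have h5 := PB.mul hρ0 zero_le_one zero_le_one h3 h4
    rwa [one_mul] at h5
  · have hd1 : padicNorm p (d : ℚ) = 1 := (padicNorm.nat_eq_one_iff d).2 hpd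
    have hξ1 : padicNorm p ξ ≤ 1 := by
      rw [ha, padicNorm.div, hd1, div_one]
      exact padicNorm.of_int a
    have h1 := PB_Poch_rat hρ hN hn hξ1
    have h2 : PB p ρ ((padicNorm p (n.factorial : ℚ))⁻¹) (PowerSeries.C ((d : ℚ) ^ (2 * n) / n.factorial)) := by
      refine PB.C hρ0 (inv_nonneg.2 hpos.le) ?_
      rw [padicNorm.div, pn_pow, hd1, one_pow, one_div]
    have h3 := PB.mul hρ0 (inv_nonneg.2 hpos.le) hpos.le h2 h1
    rwa [inv_mul_cancel₀ hpos.ne'] at h3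

end

end Pool.Agent.Y926.LZ
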